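import Mathlib

/-!
# Subgroups of prime index above a subgroup with abelian quotient
-/

set_option autoImplicit false

namespace Pool.Agent.Lib.P0c8ca5.Hh

theorem normal_of_comm_mem {A : Type*} [Group A] {N : Subgroup A}
    (hab : ∀ x y : A, y * x * y⁻¹ * x⁻¹ ∈ N) : N.Normal := by
  refine ⟨fun x hx g => ?_⟩
  have h1 := N.mul_mem (hab x g) hx
  rwa [inv_mul_cancel_right] at h1

theorem exists_prime_index {A : Type*} [Group A] [Finite A] {N : Subgroup A}
    (hab : ∀ x y : A, y * x * y⁻¹ * x⁻¹ ∈ N) (hN : N ≠ ⊤) :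
    ∃ H : Subgroup A, N ≤ H ∧ H.Normal ∧ H.index.Prime := by
  obtain h0 | ⟨H, hH, hNH⟩ := eq_top_or_exists_le_coatom N
  · exact absurd h0 hN
  have hHn : H.Normal := normal_of_comm_mem fun x y => hNH (hab x y)
  refine ⟨H, hNH, hHn, ?_⟩
  have h1 : H.index ≠ 1 := by
    rw [Ne, Subgroup.index_eq_one]
    exact hH.1
  obtain ⟨q, hq, hqd⟩ := Nat.exists_prime_and_dvd h1
  have : Fact q.Prime := ⟨hq⟩
  obtain ⟨x, hx⟩ := exists_prime_orderOf_dvd_card' (G := A ⧸ H) q hqd
  have h2 : H ≤ (Subgroup.zpowers x).comap (QuotientGroup.mk' H) := by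
    intro z hz
    rw [Subgroup.mem_comap]
    have h3 : QuotientGroup.mk' H z = 1 := (QuotientGroup.eq_one_iff z).2 hz
    rw [h3]
    exact one_mem _
  have h3 : H ≠ (Subgroup.zpowers x).comap (QuotientGroup.mk' H) := by
    intro h4
    obtain ⟨z, rfl⟩ := QuotientGroup.mk'_surjective H x
    have h5 : z ∈ H := by
      rw [h4, Subgroup.mem_comap]
      exact Subgroup.mem_zpowers _
    have h6 : QuotientGroup.mk' H z = 1 := (QuotientGroup.eq_one_iff z).2 h5
    rw [h6, orderOf_one] at hx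
    exact hq.one_lt.ne hx
  have h4 := hH.2 _ (lt_of_le_of_ne h2 h3)
  have h5 : (Subgroup.zpowers x) = ⊤ := by
    rw [eq_top_iff]
    intro z _
    obtain ⟨a, rfl⟩ := QuotientGroup.mk'_surjective H z
    have h6 : a ∈ (Subgroup.zpowers x).comap (QuotientGroup.mk' H) := by
      rw [h4]
      exact Subgroup.mem_top a
    exact h6
  have h6 : H.index = q := by
    show Nat.card (A ⧸ H) = q
    rw [← hx, ← Nat.card_zpowers, h5]
    exact (Nat.card_congr (Subgroup.topEquiv (G := A ⧸ H)).toEquiv).symm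
  rw [h6]
  exact hq

end Pool.Agent.Lib.P0c8ca5.Hh
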