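import Mathlib
import Pool.Agent.Lib.P0c8ca5U.DefW
import Pool.Agent.Lib.P0c8ca5J.Dec

/-!
# Normal subgroups that are products of several commuting factors: definitions

`V` is the product of the pairwise commuting subgroups `W i`, a direct product modulo the central p'-subgroup `Z`
(`Jj.Dec p Z V W`).

* `lp a = a 0 * a 1 * ⋯ * a (n - 1)`.
* `csF N x`: the elements of the coset `N x`.
* `PD p V W`: the nontrivial p-subgroups `P` of `V` of product type, `P = ⨆ i, P ⊓ W i`.
* `prj X σ`: the nontrivial ones among the `Q ⊓ X`, `Q ∈ σ`.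
* `T1 p M D f x y`, `T2 p N D f x y w`: the sums of `Gg.dl p M D f u v` over `u ∈ M x`, `v ∈ M y`, and of
  `Un8.dlw p N D f u v w` over `u ∈ N x`, `v ∈ N y`.
-/

set_option autoImplicit false

namespace Pool.Agent.Lib.P0c8ca5.Hh

open MonoidAlgebra Ps Bq Zz

/-- the product of a finite sequence -/
def lp {M : Type*} [Monoid M] {n : ℕ} (a : Fin n → M) : M := (List.ofFn a).prod

theorem lp_zero {M : Type*} [Monoid M] (a : Fin 0 → M) : lp a = 1 := by
  rw [lp, List.ofFn_zero, List.prod_nil]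

theorem lp_succ {M : Type*} [Monoid M] {n : ℕ} (a : Fin (n + 1) → M) :
    lp a = a 0 * lp (fun i : Fin n => a i.succ) := by
  rw [lp, List.ofFn_succ, List.prod_cons, lp]

theorem lp_succ' {M : Type*} [Monoid M] {n : ℕ} (a : Fin (n + 1) → M) :
    lp a = lp (fun i : Fin n => a i.castSucc) * a (Fin.last n) := by
  rw [lp, List.ofFn_succ_last, List.prod_append, List.prod_singleton, lp]

variable {p : ℕ} {k : Type*} [Field k] {A : Type*} [Group A]

open Classical in
/-- the elements of the coset `N x` -/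
noncomputable def csF [Fintype A] (N : Subgroup A) (x : A) : Finset A :=
  Finset.univ.filter (fun u => u * x⁻¹ ∈ N)

theorem mem_csF [Fintype A] {N : Subgroup A} {x u : A} : u ∈ csF N x ↔ u * x⁻¹ ∈ N := by
  classical
  rw [csF, Finset.mem_filter]
  exact ⟨fun h => h.2, fun h => ⟨Finset.mem_univ _, h⟩⟩

open Classical in
/-- the nontrivial p-subgroups of `V` of product type -/
noncomputable def PD (p : ℕ) [Fintype A] {ι : Type*} (V : Subgroup A) (W : ι → Subgroup A) :
    Finset (Subgroup A) :=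
  Finset.univ.filter (fun P => P ≤ V ∧ IsPGroup p P ∧ P ≠ ⊥ ∧ (⨆ i, P ⊓ W i) = P)

theorem mem_PD [Fintype A] {ι : Type*} {V : Subgroup A} {W : ι → Subgroup A} {P : Subgroup A} :
    P ∈ PD p V W ↔ P ≤ V ∧ IsPGroup p P ∧ P ≠ ⊥ ∧ (⨆ i, P ⊓ W i) = P := by
  classical
  rw [PD, Finset.mem_filter]
  exact ⟨fun h => h.2, fun h => ⟨Finset.mem_univ _, h⟩⟩

open Classical in
/-- the nontrivial intersections of the members of `σ` with `X` -/
noncomputable def prj (X : Subgroup A) (σ : Finset (Subgroup A)) : Finset (Subgroup A) :=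
  (σ.image (fun Q => Q ⊓ X)).erase ⊥

theorem mem_prj {X : Subgroup A} {σ : Finset (Subgroup A)} {P : Subgroup A} :
    P ∈ prj X σ ↔ P ≠ ⊥ ∧ ∃ Q ∈ σ, Q ⊓ X = P := by
  classical
  rw [prj, Finset.mem_erase, Finset.mem_image]

/-- the sum of `dl` over `M x`, `M y` -/
noncomputable def T1 (p : ℕ) [Fact p.Prime] [Fintype A] (M : Subgroup A)
    (D : Finset (Subgroup A)) (f : MonoidAlgebra k A) (x y : A) : WittVector p k :=
  ∑ u ∈ csF M x, ∑ v ∈ csF M y, Gg.dl p M D f u v

/-- the sum of `dlw` over `N x`, `N y` -/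
noncomputable def T2 (p : ℕ) [Fact p.Prime] [Fintype A] (N : Subgroup A)
    (D : Finset (Subgroup A)) (f : MonoidAlgebra k A) (x y : A) (w : MonoidAlgebra k A) :
    WittVector p k :=
  ∑ u ∈ csF N x, ∑ v ∈ csF N y, Un8.dlw p N D f u v w

end Pool.Agent.Lib.P0c8ca5.Hh
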