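import Mathlib
import Pool.Agent.Lib.P0c8ca5H.Defs

/-!
# Products of finite sequences with commuting terms
-/

set_option autoImplicit false

namespace Pool.Agent.Lib.P0c8ca5.Hh

section

variable {M : Type*} [Monoid M] {n : ℕ}

theorem lp_one : lp (fun _ : Fin n => (1 : M)) = 1 := by
  induction n with
  | zero => exact lp_zero _
  | succ n ih => rw [lp_succ, one_mul]; exact ih

theorem lp_map {N F : Type*} [Monoid N] [FunLike F M N] [MonoidHomClass F M N] (f : F)
    (a : Fin n → M) : f (lp a) = lp (fun i => f (a i)) := by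
  rw [lp, map_list_prod, List.map_ofFn, lp]
  rfl

theorem lp_mem {S : Type*} [SetLike S M] [SubmonoidClass S M] (s : S) {a : Fin n → M}
    (h : ∀ i, a i ∈ s) : lp a ∈ s := by
  rw [lp]
  refine list_prod_mem fun x hx => ?_
  rw [List.mem_ofFn] at hx
  obtain ⟨i, rfl⟩ := hx
  exact h i

theorem lp_commute {c : M} {a : Fin n → M} (h : ∀ i, Commute c (a i)) : Commute c (lp a) := by
  induction n with
  | zero => rw [lp_zero]; exact Commute.one_right c
  | succ n ih => rw [lp_succ]; exact (h 0).mul_right (ih fun i => h i.succ)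

theorem lp_commute' {c : M} {a : Fin n → M} (h : ∀ i, Commute (a i) c) : Commute (lp a) c :=
  (lp_commute fun i => (h i).symm).symm

theorem lp_mul {a b : Fin n → M} (h : ∀ i j, i ≠ j → Commute (a i) (b j)) :
    lp (fun i => a i * b i) = lp a * lp b := by
  induction n with
  | zero => rw [lp_zero, lp_zero, lp_zero, one_mul]
  | succ n ih =>
    rw [lp_succ, lp_succ a, lp_succ b, ih fun i j hij => h _ _ fun e => hij (Fin.succ_inj.1 e)]
    have h1 : Commute (lp fun i : Fin n => a i.succ) (b 0) :=
      lp_commute' fun i => h _ _ (Fin.succ_ne_zero i)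
    rw [mul_assoc, ← mul_assoc (b 0), ← h1.eq]
    simp only [mul_assoc]

theorem lp_pow {a : Fin n → M} (h : ∀ i j, i ≠ j → Commute (a i) (a j)) (m : ℕ) :
    lp (fun i => a i ^ m) = lp a ^ m := by
  induction m with
  | zero => simp only [pow_zero]; exact lp_one
  | succ m ih =>
    simp only [pow_succ]
    rw [lp_mul (fun i j hij => (h i j hij).pow_left m), ih]

theorem lp_perm {a : Fin n → M} (h : ∀ i j, i ≠ j → Commute (a i) (a j))
    (e : Fin n ≃ Fin n) : lp (fun i => a (e i)) = lp a := by
  rw [lp, lp]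
  refine List.Perm.prod_eq' (Equiv.Perm.ofFn_comp_perm e a) ?_
  rw [List.pairwise_iff_getElem]
  intro i j hi hj hij
  rw [List.length_ofFn] at hi hj
  rw [List.getElem_ofFn, List.getElem_ofFn]
  exact h _ _ fun h0 => (ne_of_lt hij) (congrArg Fin.val (e.injective h0))

theorem lp_ite (i : Fin n) (x : M) :
    lp (fun j => if j = i then x else 1) = x := by
  induction n with
  | zero => exact i.elim0
  | succ n ih =>
    rw [lp_succ]
    rcases Fin.eq_zero_or_eq_succ i with rfl | ⟨i, rfl⟩
    · rw [if_pos rfl]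
      have : (fun j : Fin n => if j.succ = (0 : Fin (n + 1)) then x else (1 : M)) = fun _ => 1 :=
        funext fun j => if_neg (Fin.succ_ne_zero j)
      rw [this, lp_one, mul_one]
    · rw [if_neg (Fin.succ_ne_zero i).symm, one_mul]
      have h1 := ih i
      convert h1 using 2
      funext j
      by_cases hj : j = i
      · rw [if_pos hj, if_pos (by rw [hj])]
      · rw [if_neg hj, if_neg (fun h => hj (Fin.succ_inj.1 h))]

/-- one term in front -/
theorem lp_front {a : Fin n → M}
    (h : ∀ i j, i ≠ j → Commute (a i) (a j)) (i : Fin n) :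
    lp a = a i * lp (fun j => if j = i then 1 else a j) := by
  conv_rhs => rw [← lp_ite i (a i)]
  rw [← lp_mul]
  · congr 1
    funext j
    by_cases hj : j = i
    · rw [if_pos hj, if_pos hj, mul_one, hj]
    · rw [if_neg hj, if_neg hj, one_mul]
  · intro j l hjl
    by_cases hj : j = i
    · rw [if_pos hj]
      by_cases hl : l = i
      · rw [if_pos hl]; exact Commute.one_right _
      · rw [if_neg hl]; exact h _ _ fun h0 => hl h0.symm
    · rw [if_neg hj]; exact Commute.one_left _

end

theorem lp_eq_prod {M : Type*} [CommMonoid M] {n : ℕ} (a : Fin n → M) : lp a = ∏ i, a i := by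
  rw [lp, List.prod_ofFn]

theorem lp_inv {G : Type*} [Group G] {n : ℕ} {a : Fin n → G}
    (h : ∀ i j, i ≠ j → Commute (a i) (a j)) : (lp a)⁻¹ = lp (fun i => (a i)⁻¹) := by
  rw [inv_eq_iff_mul_eq_one, ← lp_mul (fun i j hij => (h i j hij).inv_right)]
  simp only [mul_inv_cancel]
  exact lp_one

theorem lp_smul {k R : Type*} [CommSemiring k] [Semiring R] [Algebra k R] {n : ℕ}
    (s : Fin n → k) (a : Fin n → R) : lp (fun i => s i • a i) = (∏ i, s i) • lp a := by
  induction n with
  | zero => rw [lp_zero, lp_zero, Fin.prod_univ_zero, one_smul]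
  | succ n ih =>
    rw [lp_succ, lp_succ a, ih, Fin.prod_univ_succ, smul_mul_smul_comm]

theorem lp_conj {G : Type*} [Group G] {n : ℕ} (g : G) (a : Fin n → G) :
    g * lp a * g⁻¹ = lp (fun i => g * a i * g⁻¹) := by
  have h := lp_map (MulAut.conj g).toMonoidHom a
  exact h

end Pool.Agent.Lib.P0c8ca5.Hh
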