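import Mathlib
import Pool.Agent.Lib.P0c8ca5H.LP
import Pool.Agent.Lib.P0c8ca5L.ChnD

/-!
# Module ShA: elements that permute the factors cyclically

`W : Fin q → Subgroup A`, `cg x (W i) = W (i + 1)` (addition modulo `q`), `a i ∈ W i`, `u = lp a * x`.  `pp f m = f 0 * f 1 * ⋯ * f (m - 1)` for a sequence `f : ℕ → M`.
`up a x m = (a 0 * x) * (a (-1) * x) * ⋯ * (a (-(m - 1)) * x)`, `ut a x = up a x q = lp (fun i => a (-i) * x)`.

PROOF of `lp_pp`.  Induction on `m` with `lp_succ'`.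
PROOF of `sh_u`.  `cg (lp a * x) (W i) = cg (lp a) (W (i + 1)) = W (i + 1)`: `lp a ∈ V` (`Ll.lp_mem`, `hd.le'`) normalizes `W (i + 1)` (`hd.norBy`, `Jj.norBy_iff`).
PROOF of `sh_conj`.  `x z x⁻¹ ∈ W (i + 1)` (`Jj.mem_cj` and `hx`), and `lp a` acts on `W (i + 1)` as `a (i + 1)` (`Ll.lp_mul_conj` with `x = 1`, or `Ll.lp_factor` and `hd.comm`).
PROOF of `up_conj`.  Induction on `m`: `z ∈ W (-(m + 1))`: `u ^ (m + 1) z u ^ -(m + 1) = u ^ m (u z u⁻¹) u ^ -m`, `u z u⁻¹ = (a (-m) x) z (a (-m) x)⁻¹ ∈ W (-m)` (`sh_conj` for `i = -(m + 1)`,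
`i + 1 = -m`), and the induction hypothesis.  (`(m : Fin q)` is `Fin.ofNat q m`; use the arithmetic of `Fin q` as a commutative ring, `Fin.ofNat` casts: maybe it is convenient to
obtain `q = q' + 1` first; then `Fin (q' + 1)` is a `CommRing` and `Nat.cast` is available.)
PROOF of `ut_conj`.  `up_conj` for `m = q`; `-(q : Fin q) = 0`.
PROOF of `up_mem`.  Induction: `up (m + 1) = up m * a (-m) * x`; with `up m = w x ^ m`, `w ∈ W 0`: `w x ^ m (a (-m)) x = w (x ^ m a (-m) x ^ -m) x ^ (m + 1)`, and `cg (x ^ m) (W (-m)) = W 0`.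
PROOF of `ut_stab`.  The members of `t` are subgroups of `W 0`; `u ^ q` and `ut` act in the same way on `W 0` (`ut_conj`), so they normalize the same subgroups of `W 0`
(`Ll.mem_stab_iff`, `Subgroup.mem_normalizer_iff` or `cg_eq_self_iff`: `cg (u ^ q) Q = cg ut Q` for `Q ≤ W 0`).
PROOF of `sum_ut`.  The map `a ↦ ut a x` from `Fintype.piFinset S` to `csF (W 0) (x ^ q)` (`up_mem`); `ut (Function.update a 0 (w * a 0)) x = w * ut a x` for `w ∈ W 0` (the factor `i = 0` is the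
first one: `lp_succ`, and `-i ≠ 0` for `i ≠ 0`), so all fibres have the same number `c₀` of elements (bijections between fibres), and `c₀ * |W 0| = ∏ |W i| = |W 0| ^ q` as
`|W i| = |W 0|` (`cg (x ^ i) (W 0) = W i`), so `c₀ = |W 0| ^ (q - 1)`.  Then `Finset.sum_fiberwise_of_maps_to` and `F` is constant on the fibres (the same pattern as in `Ll.sum_pair`).
-/

set_option autoImplicit false

namespace Pool.Agent.Lib.P0c8ca5.Hh

open MonoidAlgebra Ps Gg

variable {p : ℕ} {k : Type*} [Field k] {A : Type*} [Group A] {Z V : Subgroup A} {q : ℕ}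
  [NeZero q] {W : Fin q → Subgroup A} {a : Fin q → A} {x y : A}

/-- `f 0 * f 1 * ⋯ * f (m - 1)` -/
def pp {M : Type*} [Monoid M] (f : ℕ → M) : ℕ → M
  | 0 => 1
  | m + 1 => pp f m * f m

theorem lp_pp {M : Type*} [Monoid M] (f : ℕ → M) (m : ℕ) :
    lp (fun i : Fin m => f i) = pp f m := by
  induction m with
  | zero => rw [lp_zero, pp]
  | succ m ih =>
    rw [lp_succ', pp, ← ih]
    rfl

/-- `(a 0 * x) * (a (-1) * x) * ⋯`, `m` factors -/
def up (a : Fin q → A) (x : A) (m : ℕ) : A := pp (fun i => a (-(Fin.ofNat q i)) * x) m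

/-- `(a 0 * x) * (a (-1) * x) * ⋯ * (a 1 * x)` -/
def ut (a : Fin q → A) (x : A) : A := lp (fun i : Fin q => a (-i) * x)

namespace ShAAux

theorem ofNat_val (i : Fin q) : Fin.ofNat q i.val = i := by
  apply Fin.ext
  show i.val % q = i.val
  exact Nat.mod_eq_of_lt i.isLt

theorem ofNat_zero (q : ℕ) [NeZero q] : Fin.ofNat q 0 = 0 := by
  apply Fin.ext
  show 0 % q = (0 : Fin q).val
  rw [Nat.zero_mod]
  rfl

theorem ofNat_self (q : ℕ) [NeZero q] : Fin.ofNat q q = 0 := by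
  apply Fin.ext
  show q % q = (0 : Fin q).val
  rw [Nat.mod_self]
  rfl

theorem ofNat_succ (q : ℕ) [NeZero q] (m : ℕ) : Fin.ofNat q (m + 1) = Fin.ofNat q m + 1 := by
  apply Fin.ext
  rw [Fin.val_add]
  show (m + 1) % q = (m % q + (1 : Fin q).val) % q
  rcases Nat.eq_or_lt_of_le (NeZero.one_le (n := q)) with h1 | h1
  · subst h1
    rw [Nat.mod_one, Nat.mod_one]
  · have h2 : (1 : Fin q).val = 1 := by
      rw [Fin.val_one']
      exact Nat.mod_eq_of_lt h1
    rw [h2, Nat.mod_add_mod]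

theorem neg_ofNat_succ (q : ℕ) [NeZero q] (m : ℕ) :
    -(Fin.ofNat q (m + 1)) + 1 = -(Fin.ofNat q m) := by
  rw [ofNat_succ, neg_add, neg_add_cancel_right]

theorem cg_pow (hx : ∀ i, cg x (W i) = W (i + 1)) (j : Fin q) (m : ℕ) :
    cg (x ^ m) (W j) = W (j + Fin.ofNat q m) := by
  induction m with
  | zero => rw [pow_zero, cg_one, ofNat_zero, add_zero]
  | succ m ih => rw [pow_succ', ← cg_cg, ih, hx, ofNat_succ, add_assoc]

theorem up_succ (a : Fin q → A) (x : A) (m : ℕ) :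
    up a x (m + 1) = up a x m * (a (-(Fin.ofNat q m)) * x) := rfl

theorem up_zero (a : Fin q → A) (x : A) : up a x 0 = 1 := rfl

theorem norm_congr {Q : Subgroup A} {g g' : A}
    (h : ∀ z ∈ Q, g * z * g⁻¹ = g' * z * g'⁻¹) :
    g ∈ Subgroup.normalizer (Q : Set A) ↔ g' ∈ Subgroup.normalizer (Q : Set A) := by
  have h1 : cg g Q = cg g' Q := by
    unfold cg
    apply SetLike.ext
    intro y
    rw [Subgroup.mem_map, Subgroup.mem_map]
    constructor
    · rintro ⟨z, hz, rfl⟩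
      exact ⟨z, hz, (h z hz).symm⟩
    · rintro ⟨z, hz, rfl⟩
      exact ⟨z, hz, h z hz⟩
  rw [← cg_eq_self_iff, ← cg_eq_self_iff, h1]

theorem card_cg' (g : A) (P : Subgroup A) : Nat.card ↥(cg g P) = Nat.card P := by
  unfold cg
  exact (Nat.card_congr (P.equivMapOfInjective _ (MulAut.conj g).injective).toEquiv).symm

end ShAAux

open ShAAux

theorem ut_eq_up (a : Fin q → A) (x : A) : ut a x = up a x q := by
  unfold ut up
  rw [← lp_pp]
  congr 1
  funext i
  rw [ofNat_val]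

theorem sh_u (hd : Jj.Dec p Z V W) (hx : ∀ i, cg x (W i) = W (i + 1))
    (ha : ∀ i, a i ∈ W i) (i : Fin q) : cg (lp a * x) (W i) = W (i + 1) := by
  rw [← cg_cg, hx, cg_eq_self_iff]
  exact Jj.norBy_iff.1 (hd.norBy (i + 1)) (Ll.lp_mem fun i => hd.le' i (ha i))

theorem sh_conj (hd : Jj.Dec p Z V W) (hx : ∀ i, cg x (W i) = W (i + 1))
    (ha : ∀ i, a i ∈ W i) {i : Fin q} {z : A} (hz : z ∈ W i) :
    lp a * x * z * (lp a * x)⁻¹ = a (i + 1) * x * z * (a (i + 1) * x)⁻¹ := by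
  have h1 : x * z * x⁻¹ ∈ W (i + 1) := by
    rw [← hx, Jj.mem_cj]
    have e : x⁻¹ * (x * z * x⁻¹) * x = z := by group
    rwa [e]
  have h2 := Ll.lp_mul_conj hd ha (x := 1) (fun i => Subgroup.one_mem _) h1
  calc lp a * x * z * (lp a * x)⁻¹ = lp a * 1 * (x * z * x⁻¹) * (lp a * 1)⁻¹ := by group
    _ = a (i + 1) * 1 * (x * z * x⁻¹) * (a (i + 1) * 1)⁻¹ := h2
    _ = a (i + 1) * x * z * (a (i + 1) * x)⁻¹ := by group

theorem up_conj (hd : Jj.Dec p Z V W) (hx : ∀ i, cg x (W i) = W (i + 1))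
    (ha : ∀ i, a i ∈ W i) (m : ℕ) {z : A} (hz : z ∈ W (-(Fin.ofNat q m))) :
    (lp a * x) ^ m * z * ((lp a * x) ^ m)⁻¹ = up a x m * z * (up a x m)⁻¹ := by
  induction m generalizing z with
  | zero => rw [pow_zero, up_zero]
  | succ m ih =>
    have h1 := sh_conj hd hx ha hz
    rw [neg_ofNat_succ] at h1
    have h2 : lp a * x * z * (lp a * x)⁻¹ ∈ W (-(Fin.ofNat q m)) := by
      rw [← neg_ofNat_succ, ← sh_u hd hx ha, Jj.mem_cj]
      have e : (lp a * x)⁻¹ * (lp a * x * z * (lp a * x)⁻¹) * (lp a * x) = z := by group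
      rwa [e]
    have h3 := ih h2
    calc (lp a * x) ^ (m + 1) * z * ((lp a * x) ^ (m + 1))⁻¹
        = (lp a * x) ^ m * (lp a * x * z * (lp a * x)⁻¹) * ((lp a * x) ^ m)⁻¹ := by
          rw [pow_succ]; group
      _ = up a x m * (lp a * x * z * (lp a * x)⁻¹) * (up a x m)⁻¹ := h3
      _ = up a x m * (a (-(Fin.ofNat q m)) * x * z * (a (-(Fin.ofNat q m)) * x)⁻¹) *
          (up a x m)⁻¹ := by rw [h1]
      _ = up a x (m + 1) * z * (up a x (m + 1))⁻¹ := by
          rw [up_succ]; group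

theorem ut_conj (hd : Jj.Dec p Z V W) (hx : ∀ i, cg x (W i) = W (i + 1))
    (ha : ∀ i, a i ∈ W i) {z : A} (hz : z ∈ W 0) :
    (lp a * x) ^ q * z * ((lp a * x) ^ q)⁻¹ = ut a x * z * (ut a x)⁻¹ := by
  rw [ut_eq_up]
  apply up_conj hd hx ha
  rw [ofNat_self, neg_zero]
  exact hz

theorem up_mem (hd : Jj.Dec p Z V W) (hx : ∀ i, cg x (W i) = W (i + 1))
    (ha : ∀ i, a i ∈ W i) (m : ℕ) : up a x m * (x ^ m)⁻¹ ∈ W 0 := by
  have _ := hd.cen
  induction m with
  | zero =>
    rw [up_zero, pow_zero, inv_one, mul_one]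
    exact Subgroup.one_mem _
  | succ m ih =>
    have h1 : x ^ m * a (-(Fin.ofNat q m)) * (x ^ m)⁻¹ ∈ W 0 := by
      have h2 := cg_pow hx (-(Fin.ofNat q m)) m
      rw [neg_add_cancel] at h2
      rw [← h2, Jj.mem_cj]
      have e : (x ^ m)⁻¹ * (x ^ m * a (-(Fin.ofNat q m)) * (x ^ m)⁻¹) * x ^ m =
          a (-(Fin.ofNat q m)) := by group
      rw [e]
      exact ha _
    have e : up a x (m + 1) * (x ^ (m + 1))⁻¹ =
        up a x m * (x ^ m)⁻¹ * (x ^ m * a (-(Fin.ofNat q m)) * (x ^ m)⁻¹) := by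
      rw [up_succ, pow_succ]; group
    rw [e]
    exact Subgroup.mul_mem _ ih h1

theorem ut_mem (hd : Jj.Dec p Z V W) (hx : ∀ i, cg x (W i) = W (i + 1))
    (ha : ∀ i, a i ∈ W i) : ut a x * (x ^ q)⁻¹ ∈ W 0 := by
  rw [ut_eq_up]
  exact up_mem hd hx ha q

theorem ut_stab [Fintype A] (hd : Jj.Dec p Z V W) (hx : ∀ i, cg x (W i) = W (i + 1))
    (ha : ∀ i, a i ∈ W i) {t : Finset (Subgroup A)} (ht : t ∈ Ch (famAll p (W 0))) :
    (lp a * x) ^ q ∈ stab ⊤ t ↔ ut a x ∈ stab ⊤ t := by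
  rw [Ll.mem_stab_iff, Ll.mem_stab_iff]
  have h1 := (InvAux.mem_Ch.1 ht).1
  have key : ∀ Q ∈ t, ((lp a * x) ^ q ∈ Subgroup.normalizer (Q : Set A) ↔
      ut a x ∈ Subgroup.normalizer (Q : Set A)) := by
    intro Q hQ
    have hQ0 : Q ≤ W 0 := (mem_famAll.1 (h1 hQ)).1
    exact norm_congr fun z hz => ut_conj hd hx ha (hQ0 hz)
  constructor
  · exact fun h => ⟨Subgroup.mem_top _, fun Q hQ => (key Q hQ).1 (h.2 Q hQ)⟩
  · exact fun h => ⟨Subgroup.mem_top _, fun Q hQ => (key Q hQ).2 (h.2 Q hQ)⟩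

namespace ShAAux

theorem ut_update (a : Fin q → A) (x w : A) :
    ut (Function.update a 0 (w * a 0)) x = w * ut a x := by
  obtain ⟨n, rfl⟩ : ∃ n, q = n + 1 := ⟨q - 1, (Nat.succ_pred (NeZero.ne q)).symm⟩
  unfold ut
  rw [lp_succ, lp_succ, neg_zero, Function.update_self]
  have h2 : ∀ i : Fin n, Function.update a 0 (w * a 0) (-i.succ) = a (-i.succ) :=
    fun i => Function.update_of_ne (neg_ne_zero.2 (Fin.succ_ne_zero i)) _ _
  have h3 : (fun i : Fin n => Function.update a 0 (w * a 0) (-i.succ) * x) =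
      fun i : Fin n => a (-i.succ) * x := funext fun i => by rw [h2]
  rw [h3]
  simp only [mul_assoc]

theorem fib_le [Fintype A] [DecidableEq A] (S : Fin q → Finset A)
    (hS : ∀ i z, z ∈ S i ↔ z ∈ W i) {r r' : A} (hr : r' * r⁻¹ ∈ W 0) :
    ((Fintype.piFinset S).filter (fun a => ut a x = r)).card ≤
      ((Fintype.piFinset S).filter (fun a => ut a x = r')).card := by
  refine Finset.card_le_card_of_injOn (fun a => Function.update a 0 (r' * r⁻¹ * a 0)) ?_ ?_
  · intro a ha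
    rw [Finset.mem_coe, Finset.mem_filter, Fintype.mem_piFinset] at ha
    rw [Finset.mem_coe, Finset.mem_filter, Fintype.mem_piFinset]
    refine ⟨fun i => ?_, ?_⟩
    · show Function.update a 0 (r' * r⁻¹ * a 0) i ∈ S i
      rcases eq_or_ne i 0 with h | h
      · subst h
        rw [Function.update_self, hS]
        exact Subgroup.mul_mem _ hr ((hS _ _).1 (ha.1 0))
      · rw [Function.update_of_ne h]
        exact ha.1 i
    · show ut (Function.update a 0 (r' * r⁻¹ * a 0)) x = r'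
      rw [ut_update, ha.2]
      group
  · intro a _ b _ hab
    funext i
    have h1 := congrFun hab i
    simp only at h1
    rcases eq_or_ne i 0 with h | h
    · subst h
      rw [Function.update_self, Function.update_self] at h1
      exact mul_left_cancel h1
    · rwa [Function.update_of_ne h, Function.update_of_ne h] at h1

theorem card_csF [Fintype A] (N : Subgroup A) (y : A) : (csF N y).card = Nat.card N := by
  classical
  have h1 : Nat.card N = (Finset.univ.filter (fun z : A => z ∈ N)).card := by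
    rw [Nat.card_eq_fintype_card, Fintype.card_subtype]
  rw [h1]
  symm
  refine Finset.card_bij (fun z _ => z * y) ?_ ?_ ?_
  · intro z hz
    rw [mem_csF, mul_inv_cancel_right]
    exact (Finset.mem_filter.1 hz).2
  · intro z _ z' _ h
    exact mul_right_cancel h
  · intro r hr
    exact ⟨r * y⁻¹, Finset.mem_filter.2 ⟨Finset.mem_univ _, mem_csF.1 hr⟩, by group⟩

end ShAAux

theorem sum_ut [Fintype A] (hd : Jj.Dec p Z V W) (hx : ∀ i, cg x (W i) = W (i + 1))
    (S : Fin q → Finset A) (hS : ∀ i z, z ∈ S i ↔ z ∈ W i) {R : Type*} [CommSemiring R]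
    (F : A → R) :
    ∑ a ∈ Fintype.piFinset S, F (ut a x) =
      (Nat.card (W 0) : R) ^ (q - 1) * ∑ r ∈ csF (W 0) (x ^ q), F r := by
  classical
  have hmem : ∀ a ∈ Fintype.piFinset S, ∀ i, a i ∈ W i := fun a ha i =>
    (hS i _).1 (Fintype.mem_piFinset.1 ha i)
  have hmaps : ∀ a ∈ Fintype.piFinset S, ut a x ∈ csF (W 0) (x ^ q) := fun a ha =>
    mem_csF.2 (ut_mem hd hx (hmem a ha))
  set c : ℕ := ((Fintype.piFinset S).filter (fun a => ut a x = x ^ q)).card with hc
  have hfib : ∀ r ∈ csF (W 0) (x ^ q),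
      ((Fintype.piFinset S).filter (fun a => ut a x = r)).card = c := by
    intro r hr
    rw [mem_csF] at hr
    have hr' : x ^ q * r⁻¹ ∈ W 0 := by
      have h1 := Subgroup.inv_mem _ hr
      have e : (r * (x ^ q)⁻¹)⁻¹ = x ^ q * r⁻¹ := by group
      rwa [e] at h1
    exact le_antisymm (fib_le S hS hr') (fib_le S hS hr)
  have hcardS : ∀ i, (S i).card = Nat.card (W 0) := by
    intro i
    have h1 : Nat.card (W i) = Nat.card (W 0) := by
      rw [← Ll.cg_pow_val hx i, card_cg']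
    rw [← h1, Nat.card_eq_fintype_card, Fintype.card_subtype]
    congr 1
    ext z
    rw [hS, Finset.mem_filter]
    exact ⟨fun h => ⟨Finset.mem_univ _, h⟩, fun h => h.2⟩
  have hpos : 0 < Nat.card (W 0) := Nat.card_pos
  have hcount : c = Nat.card (W 0) ^ (q - 1) := by
    have h1 : (Fintype.piFinset S).card = Nat.card (W 0) ^ q := by
      rw [Fintype.card_piFinset, Finset.prod_congr rfl fun i _ => hcardS i, Finset.prod_const,
        Finset.card_univ, Fintype.card_fin]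
    have h2 : (Fintype.piFinset S).card = Nat.card (W 0) * c := by
      rw [Finset.card_eq_sum_card_fiberwise hmaps, Finset.sum_congr rfl hfib, Finset.sum_const,
        card_csF, smul_eq_mul]
    have h4 : Nat.card (W 0) * Nat.card (W 0) ^ (q - 1) = Nat.card (W 0) ^ q :=
      mul_pow_sub_one (NeZero.ne q) _
    have h5 : Nat.card (W 0) * Nat.card (W 0) ^ (q - 1) = Nat.card (W 0) * c := by
      rw [h4, ← h1, h2]
    exact (Nat.eq_of_mul_eq_mul_left hpos h5).symm
  rw [← Finset.sum_fiberwise_of_maps_to hmaps, Finset.mul_sum]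
  refine Finset.sum_congr rfl fun r hr => ?_
  rw [Finset.sum_congr rfl (g := fun _ => F r) (fun a ha => by
    rw [(Finset.mem_filter.1 ha).2]), Finset.sum_const, hfib r hr, nsmul_eq_mul, hcount,
    Nat.cast_pow]

end Pool.Agent.Lib.P0c8ca5.Hh
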