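import Mathlib
import Pool.Agent.Lib.P0c8ca5H.ShA
import Pool.Agent.Lib.P0c8ca5U.CmH
import Pool.Agent.Lib.P0c8ca5U.UnxE

/-!
# Module Tele: the product of the units of the factors along a cycle

`W : Fin q → Subgroup A`, `cg x (W i) = W (i + 1)`, `a i, b i ∈ W i`, `u = lp a * x`, `y` normalizes all `W i`; `Q ≤ W 0` a p-group, `wi i` is `W i`-invariant.
`hh i = (b i * y) * (a i * x) * (b (i - 1) * y)⁻¹ * (a i * x)⁻¹`, `e' i = single (hh i) 1 * cS (cg (u ^ i) Q) (wi i)`, supported in `W i ⊓ N(cg (u ^ i) Q)` (hypothesis `hs`).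

PROOF of `tele`.  For `m : ℕ` write `-m` for `-(Fin.ofNat q m)` and `U m = up a x m`, `om m = cj (x ^ (m - 1)) (wi (-(m - 1))) * ⋯ * cj x (wi (-1)) * wi 0` (`om 0 = 1`,
`om (m + 1) = cj (x ^ m) (wi (-m)) * om m`), `E m = pp (fun i => cj (u ^ i) (e' (-i))) m`.
CLAIM for `1 ≤ m ≤ q` (in fact for all `m ≥ 1` if `e'` is indexed by `Fin q`; note `(u ^ (-m : Fin q).val)` and `u ^ m`: `cg (u ^ (-m).val) Q`; here is the only point where `m ≤ q` matters, see (*)):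
`E m = single (b 0 * y * U m * (b (-m) * y)⁻¹ * (U m)⁻¹) 1 * cS Q (om m)`.
 `m = 1`: `E 1 = e' 0 = single (hh 0) 1 * cS Q (wi 0)`, `U 1 = a 0 * x`.
 Step `m → m + 1`, `1 ≤ m < q`: `F := cj (u ^ m) (e' (-m))`.  `e' (-m)` is in `k W (-m)`, so `F = cj (U m) (e' (-m))` (`up_conj`, compare coefficients), which is
 `single (U m * hh (-m) * (U m)⁻¹) 1 * cj (U m) (cS (cg (u ^ (-m).val) Q) (wi (-m)))`.  (*) `(-m).val = q - m`, and `e' (-m)` has support in the normalizer of `R := cg (u ^ (q - m)) Q`, a subgroup of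
 `W (-m)`; `cg (U m) R = cg (u ^ m) R = cg (u ^ q) Q = Q` by the hypothesis `hQ` that `u ^ q` normalizes `Q`.  So `cj (U m) (cS R (wi (-m))) = cS Q (cj (U m) (wi (-m)))`
 (restriction to the centralizer; `Un8.cS_cj`-like: coefficients) `= cS Q (cj (x ^ m) (wi (-m)))`, because `U m = z x ^ m` with `z ∈ W 0` (`up_mem`) and `cj (x ^ m) (wi (-m))` is invariant under
 `cg (x ^ m) (W (-m)) = W 0`.
 `F` is supported in `W 0 ⊓ N(Q)` (conjugate of `hs`), `om m` is `W 0`-invariant, so `cS Q (om m) * F = F * cS Q (om m)` (`Un8.cS_comm` with `QT p (W 0) Q (N(Q))`), hence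
 `E (m + 1) = single α 1 * cS Q (om m) * F = single α 1 * F * cS Q (om m) = single (α * (U m * hh (-m) * (U m)⁻¹)) 1 * (cS Q (cj (x ^ m) (wi (-m))) * cS Q (om m))`, the last factor is
 `cS Q (om (m + 1))` (`Un8.cS_mul`; both are `W 0`-invariant), and with `hh (-m) = (b (-m) y) (a (-m) x) (b (-m - 1) y)⁻¹ (a (-m) x)⁻¹`:
 `b 0 y U m (b (-m) y)⁻¹ (U m)⁻¹ U m hh (-m) (U m)⁻¹ = b 0 y U (m + 1) (b (-(m + 1)) y)⁻¹ (U (m + 1))⁻¹` (`U (m + 1) = U m * (a (-m) * x)`).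
 `m = q`: `-q = 0`, `U q = ut a x` (`ut_eq_up`), `E q = lp (..)` (`lp_pp`), and `om q = lp (fun j : Fin q => cj (x ^ (q - 1 - j)) (wi (j + 1)))`: the factor number `j` of `om q` is
 `cj (x ^ (q - 1 - j)) (wi (-(q - 1 - j)))` and `-(q - 1 - j) = j + 1` in `Fin q` (prove `om m = lp (fun j : Fin m => cj (x ^ (m - 1 - j)) (wi (-(m - 1 - j))))` by induction with `lp_succ`).
-/

set_option autoImplicit false

namespace Pool.Agent.Lib.P0c8ca5.Hh

open MonoidAlgebra Gg Un8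

variable {p : ℕ} {k : Type*} [Field k] {A : Type*} [Group A] {Z V Q : Subgroup A} {q : ℕ}
  [NeZero q] {W : Fin q → Subgroup A} {a b : Fin q → A} {x y : A}

/-- the unit over `[y, x ^ q]⁻¹` -/
noncomputable def wt (x : A) (wi : Fin q → MonoidAlgebra k A) : MonoidAlgebra k A :=
  lp (fun j : Fin q => P0c8ca5.cj (x ^ (q - 1 - (j : ℕ))) (wi (j + 1)))

/-- the component of `[v, u]` -/
def hh (a b : Fin q → A) (x y : A) (i : Fin q) : A :=
  b i * y * (a i * x) * (b (i - 1) * y)⁻¹ * (a i * x)⁻¹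

theorem cgx_mem (hx : ∀ i, cg x (W i) = W (i + 1)) {i : Fin q} {z : A} (hz : z ∈ W (i - 1)) :
    x * z * x⁻¹ ∈ W i := by
  have h1 : W i = cg x (W (i - 1)) := by rw [hx, sub_add_cancel]
  rw [h1, mem_cg]
  have e : x⁻¹ * (x * z * x⁻¹) * x = z := by group
  rwa [e]

theorem nor_mem {S : Subgroup A} (hy : y ∈ Subgroup.normalizer (S : Set A)) {z : A} (hz : z ∈ S) :
    y * z * y⁻¹ ∈ S := (Subgroup.mem_normalizer_iff.1 hy z).1 hz

theorem nor_mem' {S : Subgroup A} (hy : y ∈ Subgroup.normalizer (S : Set A)) {z : A} (hz : z ∈ S) :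
    y⁻¹ * z * y ∈ S := by
  have h := nor_mem (Subgroup.inv_mem _ hy) hz
  rwa [inv_inv] at h

/-- `[v, u] = lp (hh g⁻¹) g` -/
theorem comm_hh (hd : Jj.Dec p Z V W) (hx : ∀ i, cg x (W i) = W (i + 1))
    (ha : ∀ i, a i ∈ W i) (hb : ∀ i, b i ∈ W i)
    (hy : ∀ i, y ∈ Subgroup.normalizer (W i : Set A))
    (hg : ∀ i, y * x * y⁻¹ * x⁻¹ ∈ Subgroup.normalizer (W i : Set A)) :
    (∀ i, hh a b x y i * (y * x * y⁻¹ * x⁻¹)⁻¹ ∈ W i) ∧
    lp b * y * (lp a * x) * (lp b * y)⁻¹ * (lp a * x)⁻¹ =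
      lp (fun i => hh a b x y i * (y * x * y⁻¹ * x⁻¹)⁻¹) * (y * x * y⁻¹ * x⁻¹) := by
  have key : ∀ i, hh a b x y i * (y * x * y⁻¹ * x⁻¹)⁻¹ =
      b i * (y * a i * y⁻¹) * (y * x * y⁻¹ * (b (i - 1))⁻¹ * (y * x * y⁻¹)⁻¹) *
        (y * x * y⁻¹ * x⁻¹ * (a i)⁻¹ * (y * x * y⁻¹ * x⁻¹)⁻¹) := by
    intro i
    unfold hh
    group
  have m1 : ∀ i, b i ∈ W i := hb
  have m2 : ∀ i, y * a i * y⁻¹ ∈ W i := fun i => nor_mem (hy i) (ha i)
  have m3 : ∀ i, y * x * y⁻¹ * (b (i - 1))⁻¹ * (y * x * y⁻¹)⁻¹ ∈ W i := by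
    intro i
    have h1 := nor_mem' (hy (i - 1)) ((W (i - 1)).inv_mem (hb (i - 1)))
    have h2 := nor_mem (hy i) (cgx_mem hx h1)
    have e : y * (x * (y⁻¹ * (b (i - 1))⁻¹ * y) * x⁻¹) * y⁻¹ =
        y * x * y⁻¹ * (b (i - 1))⁻¹ * (y * x * y⁻¹)⁻¹ := by group
    rwa [e] at h2
  have m4 : ∀ i, y * x * y⁻¹ * x⁻¹ * (a i)⁻¹ * (y * x * y⁻¹ * x⁻¹)⁻¹ ∈ W i := fun i =>
    nor_mem (hg i) ((W i).inv_mem (ha i))
  have hcm : ∀ {f g : Fin q → A}, (∀ i, f i ∈ W i) → (∀ i, g i ∈ W i) →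
      ∀ i j, i ≠ j → Commute (f i) (g j) := fun hf hg i j hij => hd.comm i j hij _ (hf i) _ (hg j)
  refine ⟨fun i => ?_, ?_⟩
  · rw [key]
    exact (W i).mul_mem ((W i).mul_mem ((W i).mul_mem (m1 i) (m2 i)) (m3 i)) (m4 i)
  · have e0 : (fun i => hh a b x y i * (y * x * y⁻¹ * x⁻¹)⁻¹) = fun i =>
        b i * (y * a i * y⁻¹) * (y * x * y⁻¹ * (b (i - 1))⁻¹ * (y * x * y⁻¹)⁻¹) *
        (y * x * y⁻¹ * x⁻¹ * (a i)⁻¹ * (y * x * y⁻¹ * x⁻¹)⁻¹) := funext key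
    have e1 : lp (fun i => (b (i - 1))⁻¹) = (lp b)⁻¹ := by
      have h1 := lp_perm (a := fun i => (b i)⁻¹)
        (hcm (fun i => (W i).inv_mem (hb i)) (fun i => (W i).inv_mem (hb i)))
        (Equiv.subRight (1 : Fin q))
      rw [lp_inv (hcm hb hb), ← h1]
      rfl
    have e2 : lp (fun i => (a i)⁻¹) = (lp a)⁻¹ := (lp_inv (hcm ha ha)).symm
    rw [e0, lp_mul (hcm (fun i => (W i).mul_mem ((W i).mul_mem (m1 i) (m2 i)) (m3 i)) m4),
      lp_mul (hcm (fun i => (W i).mul_mem (m1 i) (m2 i)) m3), lp_mul (hcm m1 m2), ← lp_conj,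
      ← lp_conj, ← lp_conj, e1, e2]
    group

theorem up_eq_apr (a : Fin q → A) (x : A) (m : ℕ) :
    up a x m = apr (fun i => a (-(Fin.ofNat q i)) * x) m := by
  induction m with
  | zero => rfl
  | succ m ih => rw [apr_succ, ← ih]; rfl

theorem dpr_eq_lp {M : Type*} [Monoid M] (u : ℕ → M) (n : ℕ) :
    dpr u n = lp (fun j : Fin n => u (n - 1 - (j : ℕ))) := by
  induction n with
  | zero => rw [dpr_zero, lp_zero]
  | succ n ih =>
    rw [dpr_succ, lp_succ, ih]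
    congr 1
    congr 1
    funext j
    congr 1
    rw [Fin.val_succ]
    omega

theorem ofNat_val (i : Fin q) : Fin.ofNat q (i : ℕ) = i := by
  apply Fin.ext
  show (i : ℕ) % q = i
  exact Nat.mod_eq_of_lt i.isLt

theorem neg_ofNat_succ (m : ℕ) : -(Fin.ofNat q (m + 1)) = -(Fin.ofNat q m) - 1 := by
  have h : Fin.ofNat q (m + 1) = Fin.ofNat q m + 1 := by
    apply Fin.ext
    rw [Fin.val_add]
    show (m + 1) % q = (m % q + (1 : Fin q).val) % q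
    rcases Nat.eq_or_lt_of_le (NeZero.one_le (n := q)) with h1 | h1
    · subst h1
      rw [Nat.mod_one, Nat.mod_one]
    · have h2 : (1 : Fin q).val = 1 := by
        rw [Fin.val_one']
        exact Nat.mod_eq_of_lt h1
      rw [h2, Nat.mod_add_mod]
  rw [h, neg_add']

theorem neg_last (j : Fin q) : -(Fin.ofNat q (q - 1 - (j : ℕ))) = j + 1 := by
  have h : (j + 1) + Fin.ofNat q (q - 1 - (j : ℕ)) = 0 := by
    apply Fin.ext
    rw [Fin.val_add, Fin.val_add]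
    show ((j.val + (1 : Fin q).val) % q + (q - 1 - j.val) % q) % q = (0 : Fin q).val
    have hj := j.isLt
    have h0 : (0 : Fin q).val = 0 := rfl
    rw [h0, ← Nat.add_mod, Fin.val_one']
    rw [Nat.add_mod, Nat.add_mod j.val, Nat.mod_mod, ← Nat.add_mod j.val, ← Nat.add_mod]
    have h3 : j.val + 1 + (q - 1 - j.val) = q := by omega
    rw [h3, Nat.mod_self]
  exact (eq_neg_of_add_eq_zero_left h).symm

theorem cg_congr {S : Subgroup A} {g h : A} (H : ∀ z ∈ S, g * z * g⁻¹ = h * z * h⁻¹) :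
    cg g S = cg h S := by
  ext z
  rw [mem_cg, mem_cg]
  constructor
  · intro hz
    have h1 := H _ hz
    have e1 : g * (g⁻¹ * z * g) * g⁻¹ = z := by group
    have e2 : h⁻¹ * z * h = g⁻¹ * z * g := by
      rw [e1] at h1
      conv_lhs => rw [h1]
      group
    rw [e2]; exact hz
  · intro hz
    have h1 := H _ hz
    have e1 : h * (h⁻¹ * z * h) * h⁻¹ = z := by group
    have e2 : g⁻¹ * z * g = h⁻¹ * z * h := by
      rw [e1] at h1
      conv_lhs => rw [← h1]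
      group
    rw [e2]; exact hz

theorem cj_congr {S : Subgroup A} {g h : A} (H : ∀ z ∈ S, g * z * g⁻¹ = h * z * h⁻¹)
    {f : MonoidAlgebra k A} (hf : SuppIn S f) : P0c8ca5.cj g f = P0c8ca5.cj h f := by
  ext z
  rw [coeff_cj, coeff_cj]
  by_cases h1 : f.coeff (g⁻¹ * z * g) = 0
  · by_cases h2 : f.coeff (h⁻¹ * z * h) = 0
    · rw [h1, h2]
    · have h3 := H _ (hf _ h2)
      have e1 : h * (h⁻¹ * z * h) * h⁻¹ = z := by group
      have e2 : g⁻¹ * z * g = h⁻¹ * z * h := by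
        rw [e1] at h3
        conv_lhs => rw [← h3]
        group
      rw [e2]
  · have h3 := H _ (hf _ h1)
    have e1 : g * (g⁻¹ * z * g) * g⁻¹ = z := by group
    have e2 : h⁻¹ * z * h = g⁻¹ * z * g := by
      rw [e1] at h3
      conv_lhs => rw [h3]
      group
    rw [e2]

theorem tele [Fact p.Prime] [CharP k p] [Fintype A] (hd : Jj.Dec p Z V W)
    (hx : ∀ i, cg x (W i) = W (i + 1)) (ha : ∀ i, a i ∈ W i) (hb : ∀ i, b i ∈ W i)
    (hy : ∀ i, y ∈ Subgroup.normalizer (W i : Set A)) (hQW : Q ≤ W 0) (hQp : IsPGroup p Q)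
    (hQ : (lp a * x) ^ q ∈ Subgroup.normalizer (Q : Set A))
    {wi : Fin q → MonoidAlgebra k A} (hwi : ∀ i, InvBy (W i) (wi i))
    (hs : ∀ i, SuppIn (W i ⊓ Subgroup.normalizer
        ((cg ((lp a * x) ^ (i : ℕ)) Q : Subgroup A) : Set A))
      (single (hh a b x y i) 1 * cS (cg ((lp a * x) ^ (i : ℕ)) Q) (wi i))) :
    lp (fun i : Fin q => P0c8ca5.cj ((lp a * x) ^ (i : ℕ))
        (single (hh a b x y (-i)) 1 *
          cS (cg ((lp a * x) ^ ((-i : Fin q) : ℕ)) Q) (wi (-i)))) =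
      single (b 0 * y * ut a x * (b 0 * y)⁻¹ * (ut a x)⁻¹) 1 * cS Q (wt x wi) := by
  -- the sequences
  have hneg : ∀ i : ℕ, -(Fin.ofNat q (i + 1)) + 1 = -(Fin.ofNat q i) := by
    intro i
    rw [neg_ofNat_succ, sub_add_cancel]
  have hW : ∀ i : ℕ, cg x (W (-(Fin.ofNat q (i + 1)))) = W (-(Fin.ofNat q i)) := by
    intro i
    rw [hx, hneg]
  have hWu : ∀ i : ℕ, cg (lp a * x) (W (-(Fin.ofNat q (i + 1)))) = W (-(Fin.ofNat q i)) := by
    intro i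
    rw [sh_u hd hx ha, hneg]
  have h00 : -(Fin.ofNat q 0) = (0 : Fin q) := neg_zero
  have hW' : ∀ i : ℕ, cg (x ^ i) (W (-(Fin.ofNat q i))) = W 0 := by
    intro i
    induction i with
    | zero => rw [pow_zero, cg_one, h00]
    | succ i ih => rw [pow_succ, ← cg_cg, hW, ih]
  have hWu' : ∀ i : ℕ, cg ((lp a * x) ^ i) (W (-(Fin.ofNat q i))) = W 0 := by
    intro i
    induction i with
    | zero => rw [pow_zero, cg_one, h00]
    | succ i ih => rw [pow_succ, ← cg_cg, hWu, ih]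
  obtain ⟨xs, hxs⟩ : ∃ xs : ℕ → A, xs = fun i => a (-(Fin.ofNat q i)) * x := ⟨_, rfl⟩
  obtain ⟨ys, hys⟩ : ∃ ys : ℕ → A, ys = fun i => b (-(Fin.ofNat q i)) * y := ⟨_, rfl⟩
  have hxs' : ∀ i, apr xs i = up a x i := by
    intro i
    rw [up_eq_apr, hxs]
  have hX : ∀ i, apr xs i * (x ^ i)⁻¹ ∈ W 0 := by
    intro i
    rw [hxs']
    exact up_mem hd hx ha i
  have hcong : ∀ i : ℕ, ∀ z ∈ W (-(Fin.ofNat q i)),
      apr xs i * z * (apr xs i)⁻¹ = (lp a * x) ^ i * z * ((lp a * x) ^ i)⁻¹ := by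
    intro i z hz
    rw [hxs']
    exact (up_conj hd hx ha i hz).symm
  have hval : ∀ i : ℕ, i < q → ((-(Fin.ofNat q i) : Fin q) : ℕ) = (q - i) % q := by
    intro i hi
    rw [Fin.val_neg']
    show (q - i % q) % q = (q - i) % q
    rw [Nat.mod_eq_of_lt hi]
  have hRW : ∀ i : ℕ, cg ((lp a * x) ^ ((-(Fin.ofNat q i) : Fin q) : ℕ)) Q ≤
      W (-(Fin.ofNat q i)) := fun i => Ll.cg_le_W hd (sh_u hd hx ha) hQW _
  have hR : ∀ i : ℕ, i < q →
      cg (apr xs i) (cg ((lp a * x) ^ ((-(Fin.ofNat q i) : Fin q) : ℕ)) Q) = Q := by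
    intro i hi
    rw [cg_congr fun z hz => hcong i z (hRW i hz), hval i hi, cg_cg, ← pow_add]
    rcases Nat.eq_zero_or_pos i with h0 | h0
    · subst h0
      rw [Nat.sub_zero, Nat.mod_self, Nat.add_zero, pow_zero, cg_one]
    · rw [Nat.mod_eq_of_lt (by omega), Nat.add_sub_cancel' hi.le]
      exact cg_eq_self_iff.2 hQ
  have hωi : ∀ i : ℕ, InvBy (W 0) (P0c8ca5.cj (x ^ i) (wi (-(Fin.ofNat q i)))) := by
    intro i
    have h1 := invBy_cg (hwi (-(Fin.ofNat q i))) (x ^ i)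
    rwa [hW'] at h1
  have hω : ∀ i : ℕ, P0c8ca5.cj (apr xs i) (wi (-(Fin.ofNat q i))) =
      P0c8ca5.cj (x ^ i) (wi (-(Fin.ofNat q i))) := by
    intro i
    have e : apr xs i = apr xs i * (x ^ i)⁻¹ * x ^ i := by group
    rw [e, ← cj_cj]
    exact invBy_iff_cj.1 (hωi i) _ (hX i)
  have hcω : ∀ i : ℕ, i < q → P0c8ca5.cj (apr xs i)
      (cS (cg ((lp a * x) ^ ((-(Fin.ofNat q i) : Fin q) : ℕ)) Q) (wi (-(Fin.ofNat q i)))) =
      cS Q (P0c8ca5.cj (x ^ i) (wi (-(Fin.ofNat q i)))) := by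
    intro i hi
    rw [← cj_cS, hR i hi, hω i]
  have hhh : ∀ i : ℕ, ys i * xs i * (ys (i + 1))⁻¹ * (xs i)⁻¹ = hh a b x y (-(Fin.ofNat q i)) := by
    intro i
    rw [hxs, hys]
    show b (-(Fin.ofNat q i)) * y * (a (-(Fin.ofNat q i)) * x) *
      (b (-(Fin.ofNat q (i + 1))) * y)⁻¹ * (a (-(Fin.ofNat q i)) * x)⁻¹ = _
    rw [neg_ofNat_succ]
    rfl
  have hT : ∀ i : ℕ, SuppIn (W (-(Fin.ofNat q i)) ⊓ Subgroup.normalizer
      ((cg ((lp a * x) ^ ((-(Fin.ofNat q i) : Fin q) : ℕ)) Q : Subgroup A) : Set A))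
      (single (ys i * xs i * (ys (i + 1))⁻¹ * (xs i)⁻¹) 1 *
        cS (cg ((lp a * x) ^ ((-(Fin.ofNat q i) : Fin q) : ℕ)) Q) (wi (-(Fin.ofNat q i)))) := by
    intro i
    rw [hhh]
    exact hs _
  have hT' : ∀ i : ℕ, i < q → SuppIn (W 0 ⊓ Subgroup.normalizer (Q : Set A))
      (P0c8ca5.cj (apr xs i) (single (ys i * xs i * (ys (i + 1))⁻¹ * (xs i)⁻¹) 1 *
        cS (cg ((lp a * x) ^ ((-(Fin.ofNat q i) : Fin q) : ℕ)) Q) (wi (-(Fin.ofNat q i))))) := by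
    intro i hi
    have h1 := suppIn_cg (hT i) (apr xs i)
    rw [cg_inf, cg_normalizer, hR i hi, cg_congr (hcong i), hWu'] at h1
    exact h1
  have qt : QT p (W 0) Q (Subgroup.normalizer (Q : Set A)) :=
    ⟨hQW, hQp, Subgroup.centralizer_le_normalizer _, le_rfl⟩
  -- the telescoping product
  have main := apr_tele (T := W 0 ⊓ Subgroup.normalizer (Q : Set A)) (xs := xs) (ys := ys)
    (u := fun i => cS (cg ((lp a * x) ^ ((-(Fin.ofNat q i) : Fin q) : ℕ)) Q)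
      (wi (-(Fin.ofNat q i)))) (n := q) (fun i hi => hT' i hi) (fun i hi => by
        show InvBy _ (P0c8ca5.cj (apr xs i) (cS (cg ((lp a * x) ^
          ((-(Fin.ofNat q i) : Fin q) : ℕ)) Q) (wi (-(Fin.ofNat q i)))))
        rw [hcω i hi]
        exact cS_inv qt (hωi i))
  have hqq : -(Fin.ofNat q q) = (0 : Fin q) := by
    have h1 : Fin.ofNat q q = (0 : Fin q) := by
      apply Fin.ext
      show q % q = (0 : Fin q).val
      rw [Nat.mod_self]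
      rfl
    rw [h1, neg_zero]
  have hy0 : ys 0 = b 0 * y := by
    rw [hys]
    show b (-(Fin.ofNat q 0)) * y = _
    rw [h00]
  have hyq : ys q = b 0 * y := by
    rw [hys]
    show b (-(Fin.ofNat q q)) * y = _
    rw [hqq]
  have hL : lp (fun i : Fin q => P0c8ca5.cj ((lp a * x) ^ (i : ℕ))
        (single (hh a b x y (-i)) 1 *
          cS (cg ((lp a * x) ^ ((-i : Fin q) : ℕ)) Q) (wi (-i)))) =
      apr (fun i => P0c8ca5.cj (apr xs i) (single (ys i * xs i * (ys (i + 1))⁻¹ * (xs i)⁻¹) 1 *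
        cS (cg ((lp a * x) ^ ((-(Fin.ofNat q i) : Fin q) : ℕ)) Q) (wi (-(Fin.ofNat q i))))) q := by
    rw [apr_eq_lp]
    congr 1
    funext i
    show _ = P0c8ca5.cj (apr xs (i : ℕ)) _
    have h1 := cj_congr (fun z hz => hcong (i : ℕ) z hz)
      (fun z hz => (hT (i : ℕ) z hz).1)
    rw [h1, hhh, ofNat_val]
  have hR' : dpr (fun i => P0c8ca5.cj (apr xs i)
      (cS (cg ((lp a * x) ^ ((-(Fin.ofNat q i) : Fin q) : ℕ)) Q) (wi (-(Fin.ofNat q i))))) q =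
      cS Q (wt x wi) := by
    rw [dpr_congr (v := fun i => cS Q (P0c8ca5.cj (x ^ i) (wi (-(Fin.ofNat q i)))))
      (fun i hi => hcω i hi),
      ← (cS_dpr (u := fun i => P0c8ca5.cj (x ^ i) (wi (-(Fin.ofNat q i)))) hQp
        fun i _ => (hωi i).mono hQW).1]
    congr 1
    rw [dpr_eq_lp, wt]
    congr 1
    funext j
    show P0c8ca5.cj (x ^ (q - 1 - (j : ℕ))) (wi (-(Fin.ofNat q (q - 1 - (j : ℕ))))) = _
    rw [neg_last]
  rw [hL, main, hR', hy0, hyq, hxs', ← ut_eq_up]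

end Pool.Agent.Lib.P0c8ca5.Hh
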