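import Mathlib
import Pool.Agent.Lib.P0c8ca5H.Tele
import Pool.Agent.Lib.P0c8ca5L.ChnD

/-!
# Module Sft: the situation for cyclically permuted factors

A structure that collects the data, no theorems.
-/

set_option autoImplicit false

namespace Pool.Agent.Lib.P0c8ca5.Hh

open MonoidAlgebra Ps Gg Un8

variable {p : ℕ} {k : Type*} [Field k] {A : Type*} [Group A]

/-- `x` permutes the factors `W i` of `V` cyclically, `y` normalizes them -/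
structure Sft (p : ℕ) {k : Type*} [Field k] {A : Type*} [Group A] [Fintype A]
    (Z V M : Subgroup A) {q : ℕ} [NeZero q] (W : Fin q → Subgroup A) (c : MonoidAlgebra k A)
    (cc : Fin q → MonoidAlgebra k A) (l : A → k) (x y : A) (w w' : MonoidAlgebra k A)
    (wi wi' : Fin q → MonoidAlgebra k A) (wt' eta : MonoidAlgebra k A) (s : k) : Prop where
  dec : Jj.Dec p Z V W
  nV : V.Normal
  uh : UH V ⊤ c
  uhi : ∀ i, UH (W i) (Subgroup.normalizer (W i : Set A)) (cc i)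
  hz : ∀ i, ∀ z ∈ Z, single z (1 : k) * cc i = l z • cc i
  hx : ∀ i, cg x (W i) = W (i + 1)
  hcx : ∀ i, P0c8ca5.cj x (cc i) = cc (i + 1)
  hy : ∀ i, y ∈ Subgroup.normalizer (W i : Set A)
  VM : V ≤ M
  hab : ∀ g h : A, h * g * h⁻¹ * g⁻¹ ∈ M
  hMW : ∀ i, M ≤ Subgroup.normalizer (W i : Set A)
  hMC : ∀ σ ∈ Ch (Hh.PD p V W), cS (σ.sup id) c ≠ 0 →
    M ≤ V ⊔ (M ⊓ Subgroup.centralizer ((σ.sup id : Subgroup A) : Set A))
  hw : UP V c (y * x * y⁻¹ * x⁻¹)⁻¹ w w'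
  hwi : ∀ i, UP (W i) (cc i) (y * x * y⁻¹ * x⁻¹)⁻¹ (wi i) (wi' i)
  hwt : UP (W 0) (cc 0) (y * x ^ q * y⁻¹ * (x ^ q)⁻¹)⁻¹ (wt x wi) wt'
  heta : eta ∈ fixAlg k V V
  res : IsRes c eta s
  hs : s ≠ 0
  lev : ∀ σ ∈ Ch (Hh.PD p V W), ∀ h : Fin q → A, (∀ i, h i ∈ W i) →
    lp h * (y * x * y⁻¹ * x⁻¹) ∈ Subgroup.normalizer ((σ.sup id : Subgroup A) : Set A) →
    single (lp h * (y * x * y⁻¹ * x⁻¹)) 1 * cS (σ.sup id) w =
      cS (σ.sup id) eta * lp (fun i => single (h i * (y * x * y⁻¹ * x⁻¹)) 1 *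
        cS ((prj (W i) σ).sup id) (wi i))
  hcS : ∀ σ ∈ Ch (Hh.PD p V W),
    cS (σ.sup id) c = lp (fun i => cS ((prj (W i) σ).sup id) (cc i))

end Pool.Agent.Lib.P0c8ca5.Hh
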