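import Mathlib
import Pool.Agent.Lib.P0c8ca5H.Sft
import Pool.Agent.Lib.P0c8ca5U.UnxA
import Pool.Agent.Lib.P0c8ca5U.UnxE
import Pool.Agent.Lib.P0c8ca5W.Cos

/-!
# Module ExSft: the situation for cyclically permuted factors exists

`exists_sft`: the units `w`, `wi`, the unit `wt` over `[y, x ^ q]⁻¹` and the central element `eta`.
-/

set_option autoImplicit false

namespace Pool.Agent.Lib.P0c8ca5.Hh

open MonoidAlgebra Ps Bq Gg Un8

variable {p : ℕ} {k : Type*} [Field k] {A : Type*} [Group A] {Z V : Subgroup A}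
  {c : MonoidAlgebra k A}

namespace ExSftAux

theorem lp_absorb {M : Type*} [Monoid M] {n : ℕ} {a : Fin n → M} {b : M} (i : Fin n)
    (h : a i * b = a i) (hc : ∀ j, j ≠ i → b * a j = a j * b) : lp a * b = lp a := by
  induction n with
  | zero => exact i.elim0
  | succ n ih =>
    rw [lp_succ]
    rcases Fin.eq_zero_or_eq_succ i with rfl | ⟨j, rfl⟩
    · rw [mul_assoc, ← comm_lp (fun j => hc _ (Fin.succ_ne_zero j)), ← mul_assoc, h]
    · rw [mul_assoc, ih j h (fun l hl => hc _ (fun h' => hl (Fin.succ_injective _ h')))]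

theorem dpr_eq_lp {M : Type*} [Monoid M] (u : ℕ → M) (n : ℕ) :
    dpr u n = lp (fun j : Fin n => u (n - 1 - (j : ℕ))) := by
  induction n with
  | zero => rw [dpr_zero, lp_zero]
  | succ n ih =>
    rw [dpr_succ, ih, lp_succ]
    congr 2
    funext j
    congr 1
    rw [Fin.val_succ]
    omega

theorem ofNat_succ' (q : ℕ) [NeZero q] (m : ℕ) :
    (Fin.ofNat q (m + 1) : Fin q) = Fin.ofNat q m + 1 := by
  apply Fin.ext
  rw [Fin.val_add]
  simp [Fin.ofNat, Nat.add_mod]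

theorem neg_succ_add (q : ℕ) [NeZero q] (m : ℕ) :
    -(Fin.ofNat q (m + 1) : Fin q) + 1 = -(Fin.ofNat q m : Fin q) := by
  rw [ofNat_succ', neg_add, neg_add_cancel_right]

theorem neg_ofNat (q : ℕ) [NeZero q] (j : Fin q) :
    -(Fin.ofNat q (q - 1 - (j : ℕ)) : Fin q) = j + 1 := by
  rw [neg_eq_iff_add_eq_zero]
  apply Fin.ext
  have h1 : (q - 1 - (j : ℕ)) + ((j : ℕ) + 1) = q := by
    have := j.2
    omega
  rw [Fin.val_add, Fin.val_add]
  simp only [Fin.ofNat, Fin.val_one', Fin.val_zero]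
  rw [Nat.add_mod_mod, Nat.mod_add_mod, ← add_assoc, Nat.add_mod_mod, add_assoc, h1, Nat.mod_self]

end ExSftAux

open ExSftAux

theorem exists_sft [Fact p.Prime] [CharP k p] [IsAlgClosed k] [Fintype A] {q : ℕ} [NeZero q]
    {W : Fin q → Subgroup A} {cc : Fin q → MonoidAlgebra k A} {l : A → k} {x y : A}
    (hd : Jj.Dec p Z V W) (hV : V.Normal) (uh : UH V ⊤ c)
    (hx : ∀ i, cg x (W i) = W (i + 1))
    (hy : ∀ i, y ∈ Subgroup.normalizer (W i : Set A))
    (hMW : ∀ i, uh.unt ≤ Subgroup.normalizer (W i : Set A))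
    (hab : ∀ g h : A, h * g * h⁻¹ * g⁻¹ ∈ uh.unt)
    (hcb : ∀ i, IsBlock (W i) (cc i)) (hc : c = lp cc)
    (hz : ∀ i, ∀ z ∈ Z, single z (1 : k) * cc i = l z • cc i)
    (hcj : ∀ (g : A) (i j : Fin q), cg g (W i) = W j → P0c8ca5.cj g (cc i) = cc j) :
    ∃ w w' wi wi' wt' eta s, Sft p Z V uh.unt W c cc l x y w w' wi wi' wt' eta s := by
  have hcg : ∀ {g : A} {i : Fin q}, g ∈ Subgroup.normalizer (W i : Set A) →
      P0c8ca5.cj g (cc i) = cc i := fun h => hcj _ _ _ (cg_eq_self_iff.2 h)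
  have uhi : ∀ i, UH (W i) (Subgroup.normalizer (W i : Set A)) (cc i) := fun i =>
    ⟨Subgroup.le_normalizer, le_rfl, hcb i, invBy_iff_cj.2 fun g hg => hcg hg⟩
  have hP : CP V W c cc := ⟨hd.sup, hd.comm, hcb, hc⟩
  have hg : y * x * y⁻¹ * x⁻¹ ∈ uh.unt := hab x y
  have hgi : (y * x * y⁻¹ * x⁻¹)⁻¹ ∈ uh.unt := uh.unt.inv_mem hg
  have hMn : uh.unt.Normal := by
    have h1 := uh.norm_unt
    rw [top_le_iff] at h1
    exact Subgroup.normalizer_eq_top_iff.1 h1
  have hgV : y * x * y⁻¹ * x⁻¹ ∈ Subgroup.normalizer (V : Set A) := uh.nm (Subgroup.mem_top _)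
  obtain ⟨-, w, w', hw⟩ := uh.mem_unt.1 hgi
  have hfac : ∀ i, ∃ u v, UP (W i) (cc i) (y * x * y⁻¹ * x⁻¹)⁻¹ u v := by
    intro i
    have hR : (y * x * y⁻¹ * x⁻¹)⁻¹ ∈ Subgroup.normalizer
        ((⨆ (j) (_ : j ≠ i), W j : Subgroup A) : Set A) := by
      rw [← cg_eq_self_iff, Jj.cg_iSup]
      refine iSup_congr fun j => ?_
      rw [Jj.cg_iSup]
      exact iSup_congr fun _ => cg_eq_self_iff.2 (hMW j hgi)
    have h1 : (y * x * y⁻¹ * x⁻¹)⁻¹ ∈ (uhi i).unt := by
      refine UH.unt_factor uh (uhi i) (R := ⨆ (j) (_ : j ≠ i), W j) ?_ ?_ ?_ hgi (hMW i hgi) hR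
      · rw [← hd.sup]
        exact iSup_split_single W i
      · exact fun w hw r hr => Jj.Dec.comm_others hd i w hw r (Subgroup.mem_sup_right hr)
      · rw [hc]
        exact lp_absorb i (hcb i).idem
          (fun j hj => supp_comm (hd.comm i j hj.symm) (hcb i).suppIn (hcb j).suppIn)
    obtain ⟨-, u, v, h2⟩ := (uhi i).mem_unt.1 h1
    exact ⟨u, v, h2⟩
  choose wi wi' hwi using hfac
  obtain ⟨eta, heta, s, hs, hres, hew⟩ := hP.eta hgV (fun i => hMW i hg)
    (fun i => hcg (hMW i hg)) hwi uh (Subgroup.mem_top _) hw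
  have hPW : ∀ σ ∈ Ch (Hh.PD p V W), ∀ i, (prj (W i) σ).sup id ≤ W i := by
    intro σ hσ i
    rw [← Ll.sup_inf hσ i]
    exact inf_le_right
  have hpg : ∀ σ ∈ Ch (Hh.PD p V W), IsPGroup p (σ.sup id : Subgroup A) := by
    intro σ hσ
    have h1 := InvAux.mem_Ch.1 hσ
    rcases Ll.sup_mem_of_chain h1.2 with h2 | h2
    · rw [h2]; exact IsPGroup.of_bot
    · exact (mem_PD.1 (h1.1 h2)).2.1
  have hle : ∀ σ ∈ Ch (Hh.PD p V W), σ.sup id ≤ V := by
    intro σ hσ
    have h1 := InvAux.mem_Ch.1 hσ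
    exact Finset.sup_le fun Q hQ => (mem_PD.1 (h1.1 hQ)).1
  have hshift := UP.shift (W := fun m => W (-(Fin.ofNat q m : Fin q)))
    (K := Subgroup.normalizer (W 0 : Set A))
    (cc := fun m => cc (-(Fin.ofNat q m : Fin q))) (w := fun m => wi (-(Fin.ofNat q m : Fin q)))
    (v := fun m => wi' (-(Fin.ofNat q m : Fin q))) (x := x) (y := y) (n := q - 1)
    (by
      have e : (-(Fin.ofNat q 0 : Fin q)) = 0 := by
        have : (Fin.ofNat q 0 : Fin q) = 0 := by
          apply Fin.ext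
          simp [Fin.ofNat]
        rw [this, neg_zero]
      simp only [e]
      exact uhi 0)
    (fun i => by
      show cg x (W (-(Fin.ofNat q (i + 1) : Fin q))) = W (-(Fin.ofNat q i : Fin q))
      rw [hx, neg_succ_add])
    (fun i => by
      show P0c8ca5.cj x (cc (-(Fin.ofNat q (i + 1) : Fin q))) = cc (-(Fin.ofNat q i : Fin q))
      rw [hcj x _ _ (hx _), neg_succ_add])
    (fun i _ => hMW 0 (hMn.conj_mem _ hgi _))
    (fun i _ => hwi _)
  have hq1 : q - 1 + 1 = q := Nat.succ_pred_eq_of_ne_zero (NeZero.ne q)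
  rw [hq1] at hshift
  have hwt : dpr (fun i => P0c8ca5.cj (x ^ i) (wi (-(Fin.ofNat q i : Fin q)))) q = wt x wi := by
    rw [dpr_eq_lp, wt]
    congr 1
    funext j
    rw [neg_ofNat]
  have e0 : (-(Fin.ofNat q 0 : Fin q)) = 0 := by
    have : (Fin.ofNat q 0 : Fin q) = 0 := by
      apply Fin.ext
      simp [Fin.ofNat]
    rw [this, neg_zero]
  simp only [e0] at hshift
  rw [hwt] at hshift
  refine ⟨w, w', wi, wi', _, eta, s,
    { dec := hd
      nV := hV
      uh := uh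
      uhi := uhi
      hz := hz
      hx := hx
      hcx := fun i => hcj x i (i + 1) (hx i)
      hy := hy
      VM := uh.le_unt
      hab := hab
      hMW := hMW
      hMC := ?_
      hw := hw
      hwi := hwi
      hwt := hshift
      heta := heta
      res := hres
      hs := hs
      lev := ?_
      hcS := ?_ }⟩
  · intro σ hσ h0
    exact (uh.unt_eq (hle σ hσ) (hpg σ hσ) (Cs.cS_ne_hasBr h0)).le
  · intro σ hσ h hh hn
    have hp' := hpg σ hσ
    rw [Ll.sup_eq hσ] at hn hp' ⊢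
    exact hP.level hgV (fun i => hMW i hg) (fun i => hcg (hMW i hg)) hwi heta hew
      (hPW σ hσ) hp' hh hn
  · intro σ hσ
    rw [Ll.sup_eq hσ, hc]
    exact cS_lp hd.comm (hPW σ hσ) (fun i => (hcb i).suppIn)

end Pool.Agent.Lib.P0c8ca5.Hh
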