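import Mathlib
import Pool.Agent.Lib.P0c8ca5H.Defs
import Pool.Agent.Lib.P0c8ca5L.ChnD
import Pool.Agent.Lib.P0c8ca5L.ChnA

/-!
# The family of the subgroups of product type, and rotations

`PD p V W` does not change if the factors are renumbered.  `decG`: for a normal subgroup `H` of prime index `q` that
contains the normalizer of a component, and `x ∉ H`, the `q` factors permuted cyclically by `x`; the family `PD` does
not depend on `x`.
-/

set_option autoImplicit false

namespace Pool.Agent.Lib.P0c8ca5.Hh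

open MonoidAlgebra Ps Gg Jj

section

variable {p : ℕ} {A : Type*} [Group A] [Fintype A] {V : Subgroup A} {ι κ : Type*}

theorem PD_comp {U : κ → Subgroup A} {f : ι → κ} (hf : Function.Surjective f) :
    Hh.PD p V (fun i => U (f i)) = Hh.PD p V U := by
  classical
  ext P
  rw [mem_PD, mem_PD]
  have h1 : (⨆ i, P ⊓ U (f i)) = ⨆ j, P ⊓ U j := hf.iSup_comp (g := fun j => P ⊓ U j)
  rw [h1]

end

section

variable {L : Type*} [Group L]

theorem decG {p : ℕ} [Fact p.Prime] [Fintype L] (hR : Rd p L) {V : Subgroup L} (hV : MinN V)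
    {E : Subgroup L} (hE : Cmp V E) {q : ℕ} [hq : Fact q.Prime] [NeZero q] (H : Subgroup L)
    [H.Normal] (hH : Subgroup.normalizer (E : Set L) ≤ H) (hi : H.index = q) {x : L}
    (hx : x ∉ H) :
    ∃ W : Fin q → Subgroup L, Dec p (Subgroup.center L) V W ∧
      (∀ i, cg x (W i) = W (i + 1)) ∧ (∀ g ∈ H, ∀ i, cg g (W i) = W i) ∧
      Hh.PD p V W = Hh.PD p V (WB E H) := by
  have hord : orderOf (x : L ⧸ H) = q := by
    apply orderOf_eq_prime
    · rw [← hi]
      have : Nat.card (L ⧸ H) = H.index := rfl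
      rw [← this]
      exact pow_card_eq_one'
    · intro h1
      exact hx ((QuotientGroup.eq_one_iff x).1 h1)
  have hinj : Function.Injective (fun j : Fin q => ((x ^ j.val : L) : L ⧸ H)) := by
    intro i j hij
    have h1 : (x : L ⧸ H) ^ i.val = (x : L ⧸ H) ^ j.val := hij
    rw [pow_eq_pow_iff_modEq, hord] at h1
    rw [Nat.ModEq, Nat.mod_eq_of_lt i.isLt, Nat.mod_eq_of_lt j.isLt] at h1
    exact Fin.ext h1
  have hbij : Function.Bijective (fun j : Fin q => ((x ^ j.val : L) : L ⧸ H)) := by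
    rw [Nat.bijective_iff_injective_and_card]
    refine ⟨hinj, ?_⟩
    rw [Nat.card_fin]
    exact hi.symm
  refine ⟨fun j => WB E H ((x ^ j.val : L) : L ⧸ H),
    (hV.decB hR hE H hH).reindex (Equiv.ofBijective _ hbij), ?_, ?_, ?_⟩
  · intro j
    rw [WB.cg_eq]
    congr 1
    show (x : L ⧸ H) * (x : L ⧸ H) ^ j.val = (x : L ⧸ H) ^ (j + 1).val
    rw [← pow_succ', pow_eq_pow_iff_modEq, hord, Fin.val_add, Fin.val_one',
      Nat.mod_eq_of_lt hq.out.one_lt]
    exact (Nat.mod_modEq _ _).symm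
  · intro g hg j
    rw [WB.cg_eq]
    congr 1
    show (g : L ⧸ H) * (x : L ⧸ H) ^ j.val = (x : L ⧸ H) ^ j.val
    rw [(QuotientGroup.eq_one_iff g).2 hg, one_mul]
  · exact PD_comp (U := WB E H) hbij.2

/-- the family of the subgroups of product type for the factors `WB E H` -/
theorem PD_WB_fam {p : ℕ} [Fact p.Prime] [Fintype L] (hR : Rd p L) {V : Subgroup L}
    (hV : MinN V) {E : Subgroup L} (hE : Cmp V E) (H : Subgroup L)
    (hH : Subgroup.normalizer (E : Set L) ≤ H) :
    Fam p ⊤ V (Hh.PD p V (WB E H)) := by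
  have hfin : Finite (L ⧸ H) := inferInstance
  exact Ll.PD_fam (hV.decB hR hE H hH) fun g c => ⟨g • c, WB.cg_eq E H g c⟩

end

end Pool.Agent.Lib.P0c8ca5.Hh
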