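import Mathlib
import Pool.Agent.Lib.P0c8ca5H.LP

/-!
# Module DecLp: products of elements of the factors

PROOF of `dec_mono`.  `le`, `cen`, `pr` clear; `comm` from `P i ≤ W i`; `indep`: `P i ⊓ ⨆ P j ≤ W i ⊓ ⨆ W j ≤ Z`.
PROOF of `dec_tail`.  Same with `W i = P i.succ`; `le'` by `le_iSup`; `⨆ (j ≠ i) P j.succ ≤ ⨆ (j ≠ i.succ) P j`.
PROOF of `dec_lp_mem`.  `lp_mem` and `hd.le'`.
PROOF of `dec_exists_lp`.  Induction on `n` (generalizing `N`, `P`): `n = 0`: `N = ⨆ = ⊥` (`hd.sup`, `iSup_of_empty`), `v = 1`, `lp_zero`.  Step: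
`N = P 0 ⊔ N'`, `N' = ⨆ i, P i.succ` (`iSup_succ`-like for `Fin`: `Fin.iSup_succ`? otherwise `le_antisymm`), `P 0` commutes with `N'`, so `v = g₀ v'` (`Jj.mem_sup_of_commute` as used
in P0c8ca5J.Dec), and induction for `v'`.
PROOF of `supp_lp`, `lp_inv_by`.  `SuppIn.mul` and `supp 1`, by induction (or `lp_mem` for the subalgebra `fixAlg k N ⊥`-like).
PROOF of `inv_factor`.  `f` commutes with `single g 1` for `g ∈ P j`, `j ≠ i` (`hd.comm`: `coeff (g x g⁻¹) = coeff x` for `x ∈ P i`; for `x ∉ P i` both are zero, as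
`N` normalizes `P i`, `hd.norBy`), and for `g ∈ P i`; the `g` with this property form a subgroup, `N = ⨆ P j`.
PROOF of `lp_mem_fix`.  `lp f ∈ fixAlg k N N`: support by `supp_lp`; invariance under `P j` for all `j`, so under `N = ⨆ P j`: `single g 1` commutes with each `f i`: for
`g ∈ P j`, `j ≠ i`, because `g` commutes with all elements of `P i` (write `f i` as a sum of singles, or compare coefficients), for `j = i` because `f i ∈ fixAlg k (P i) (P i)`.
`lp f` is idempotent: `lp_mul`; `lp f * (f i)`: `lp_front`.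
PROOF of `commute_factor`.  `SuppIn (P i) a`, `SuppIn (P j) b`, `i ≠ j`: `a * b = b * a`: expand into singles (`commute_of` with `InvBy (P j) a`).
-/

set_option autoImplicit false

namespace Pool.Agent.Lib.P0c8ca5.Hh

open MonoidAlgebra

variable {p : ℕ} {k : Type*} [Field k] {A : Type*} [Group A] {Z N : Subgroup A} {n : ℕ}

theorem dec_mono {ι : Type*} {W P : ι → Subgroup A} (hd : Jj.Dec p Z N W)
    (hZ : ∀ i, Z ≤ P i) (hP : ∀ i, P i ≤ W i) : Jj.Dec p Z (⨆ i, P i) P :=
  ⟨hZ, fun i => le_iSup P i, rfl,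
    fun i j hij x hx y hy => hd.comm i j hij x (hP i hx) y (hP j hy),
    fun i => (inf_le_inf (hP i) (iSup₂_mono fun j _ => hP j)).trans (hd.indep i), hd.cen, hd.pr⟩

theorem dec_tail {P : Fin (n + 1) → Subgroup A} (hd : Jj.Dec p Z N P) :
    Jj.Dec p Z (⨆ i : Fin n, P i.succ) (fun i : Fin n => P i.succ) := by
  refine ⟨fun i => hd.le _, fun i => le_iSup (fun i : Fin n => P i.succ) i, rfl,
    fun i j hij => hd.comm _ _ fun h => hij (Fin.succ_inj.1 h), fun i => ?_, hd.cen, hd.pr⟩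
  refine le_trans (inf_le_inf_left _ ?_) (hd.indep i.succ)
  refine iSup_le fun j => iSup_le fun hj => ?_
  exact le_iSup₂_of_le (f := fun (j : Fin (n + 1)) (_ : j ≠ i.succ) => P j) j.succ
    (fun h => hj (Fin.succ_inj.1 h)) le_rfl

theorem dec_lp_mem {P : Fin n → Subgroup A} (hd : Jj.Dec p Z N P) {g : Fin n → A}
    (hg : ∀ i, g i ∈ P i) : lp g ∈ N :=
  lp_mem N fun i => hd.le' i (hg i)

theorem dec_exists_lp {P : Fin n → Subgroup A} (hd : Jj.Dec p Z N P) {v : A} (hv : v ∈ N) :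
    ∃ g : Fin n → A, (∀ i, g i ∈ P i) ∧ lp g = v := by
  induction n generalizing N v with
  | zero =>
    refine ⟨fun i => i.elim0, fun i => i.elim0, ?_⟩
    rw [lp_zero]
    rw [← hd.sup, iSup_of_empty, Subgroup.mem_bot] at hv
    exact hv.symm
  | succ n ih =>
    have h1 : N ≤ P 0 ⊔ ⨆ i : Fin n, P i.succ := by
      rw [← hd.sup]
      refine iSup_le fun i => ?_
      rcases Fin.eq_zero_or_eq_succ i with rfl | ⟨i, rfl⟩
      · exact le_sup_left
      · exact le_sup_of_le_right (le_iSup (fun i : Fin n => P i.succ) i)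
    have h2 : (⨆ i : Fin n, P i.succ) ≤ Subgroup.centralizer (P 0 : Set A) := by
      refine iSup_le fun i x hx => ?_
      rw [Subgroup.mem_centralizer_iff]
      exact fun y hy => hd.comm 0 i.succ (Fin.succ_ne_zero i).symm y hy x hx
    obtain ⟨g0, hg0, v', hv', e⟩ := Jj.mem_sup_of_commute (P := P 0)
      (R := ⨆ i : Fin n, P i.succ)
      (fun y hy z hz => (Subgroup.mem_centralizer_iff.1 (h2 hz) y hy).symm) v (h1 hv)
    obtain ⟨g, hg, e'⟩ := ih (dec_tail hd) hv'
    refine ⟨Fin.cons g0 g, fun i => ?_, ?_⟩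
    · rcases Fin.eq_zero_or_eq_succ i with rfl | ⟨i, rfl⟩
      · rw [Fin.cons_zero]; exact hg0
      · rw [Fin.cons_succ]; exact hg i
    · rw [lp_succ, Fin.cons_zero]
      simp only [Fin.cons_succ]
      rw [e', e]

theorem inv_of_supp {ι : Type*} {P : ι → Subgroup A} (hd : Jj.Dec p Z N P) {i j : ι}
    (hij : i ≠ j) {b : MonoidAlgebra k A} (hb : SuppIn (P j) b) : InvBy (P i) b := by
  intro g hg x
  by_cases hx : x ∈ P j
  · have e : g * x * g⁻¹ = x := by
      rw [hd.comm i j hij g hg x hx]; group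
    rw [e]
  · have h1 : g * x * g⁻¹ ∉ P j := by
      intro h
      apply hx
      have h2 := hd.norBy j g⁻¹ (N.inv_mem (hd.le' i hg)) _ h
      have e : g⁻¹ * (g * x * g⁻¹) * g⁻¹⁻¹ = x := by group
      rwa [e] at h2
    have e1 : b.coeff x = 0 := by
      by_contra h; exact hx (hb x h)
    have e2 : b.coeff (g * x * g⁻¹) = 0 := by
      by_contra h; exact h1 (hb _ h)
    rw [e1, e2]

theorem commute_factor {ι : Type*} {P : ι → Subgroup A} (hd : Jj.Dec p Z N P) {i j : ι}
    (hij : i ≠ j) {a b : MonoidAlgebra k A} (ha : SuppIn (P i) a) (hb : SuppIn (P j) b) :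
    Commute a b :=
  commute_of ha (inv_of_supp hd hij hb)

theorem supp_lp {P : Fin n → Subgroup A} (hd : Jj.Dec p Z N P) {a : Fin n → MonoidAlgebra k A}
    (ha : ∀ i, SuppIn (P i) (a i)) : SuppIn N (lp a) := by
  have h : lp a ∈ fixAlg k N ⊥ := by
    refine lp_mem (fixAlg k N ⊥) fun i => mem_fixAlg.2 ⟨(ha i).mono (hd.le' i), ?_⟩
    intro g hg x
    rw [Subgroup.mem_bot] at hg
    rw [hg, one_mul, inv_one, mul_one]
  exact (mem_fixAlg.1 h).1

theorem inv_factor {ι : Type*} {P : ι → Subgroup A} (hd : Jj.Dec p Z N P) {i : ι}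
    {f : MonoidAlgebra k A} (hf : f ∈ fixAlg k (P i) (P i)) : InvBy N f := by
  let S : Subgroup A :=
    { carrier := {g | ∀ x, f.coeff (g * x * g⁻¹) = f.coeff x}
      mul_mem' := by
        intro g h hg hh x
        have e : g * h * x * (g * h)⁻¹ = g * (h * x * h⁻¹) * g⁻¹ := by group
        rw [e, hg, hh]
      one_mem' := by
        intro x
        rw [one_mul, inv_one, mul_one]
      inv_mem' := by
        intro g hg x
        have h1 := hg (g⁻¹ * x * g⁻¹⁻¹)
        have e : g * (g⁻¹ * x * g⁻¹⁻¹) * g⁻¹ = x := by group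
        rw [e] at h1
        exact h1.symm }
  have hle : N ≤ S := by
    rw [← hd.sup]
    refine iSup_le fun j g hg => ?_
    by_cases hji : j = i
    · subst hji
      exact (mem_fixAlg.1 hf).2 g hg
    · exact inv_of_supp hd hji (mem_fixAlg.1 hf).1 g hg
  exact fun g hg => hle hg

theorem lp_mem_fix {P : Fin n → Subgroup A} (hd : Jj.Dec p Z N P)
    {f : Fin n → MonoidAlgebra k A} (hf : ∀ i, f i ∈ fixAlg k (P i) (P i)) :
    lp f ∈ fixAlg k N N :=
  lp_mem (fixAlg k N N) fun i =>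
    mem_fixAlg.2 ⟨(mem_fixAlg.1 (hf i)).1.mono (hd.le' i), inv_factor hd (hf i)⟩

theorem lp_idem {P : Fin n → Subgroup A} (hd : Jj.Dec p Z N P)
    {f : Fin n → MonoidAlgebra k A} (hf : ∀ i, SuppIn (P i) (f i)) (hff : ∀ i, f i * f i = f i) :
    lp f * lp f = lp f := by
  rw [← lp_mul (fun i j hij => commute_factor hd hij (hf i) (hf j))]
  simp only [hff]

theorem mul_lp {P : Fin n → Subgroup A} (hd : Jj.Dec p Z N P)
    {f : Fin n → MonoidAlgebra k A} (hf : ∀ i, SuppIn (P i) (f i)) (hff : ∀ i, f i * f i = f i)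
    (i : Fin n) : f i * lp f = lp f := by
  have h := lp_front (fun i j hij => commute_factor hd hij (hf i) (hf j)) i
  rw [h, ← mul_assoc, hff i]

end Pool.Agent.Lib.P0c8ca5.Hh
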