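import Mathlib
import Pool.Agent.Lib.P0c8ca5H.DecLp

/-!
# Module Coef: coefficients of products of elements of the factors

PROOF of `coeff_lp`.  Induction on `n`.  `n = 0`: `lp a = a 0 * 1`.  Step: `(lp a).coeff (lp g) = ∑ y, a₀(y) * a'(y⁻¹ g₀ g')` with `a' = lp (a ∘ succ)`, `g' = lp (g ∘ succ)`
(`coeff_mul_fin`).  If the term is not zero then `y ∈ P 0`, `y⁻¹ g₀ g' ∈ N' := ⨆ i, P i.succ` (`supp_lp`), `g' ∈ N'`, so `y⁻¹ g₀ ∈ P 0 ⊓ N' ≤ Z`
(`hd.indep 0`, with `⨆ (j ≠ 0) P j = N'`).  So the sum is over `y = g₀ z⁻¹`, `z ∈ Z` (central): `∑_{z ∈ Z} a₀(z⁻¹ g₀) * a'(z g')`.  From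
`single z 1 * a₀ = l z • a₀` : `a₀(z⁻¹ g₀) = l z * a₀(g₀)`.  The same for `a'` (as `n ≥ 1`, `single z 1 * a' = l z • a'`: multiply the first factor), at `x = z g'`:
`a'(g') = a'(z⁻¹ (z g')) = l z * a'(z g')`.  So each term is `a₀(g₀) * a'(g')`, there are `|Z|` of them, and `a'(g') = |Z|^n ∏` by induction
(the index of the power: the family `Fin (n + 1)` has the factor `|Z|^n`).
PROOF of `lp_ne_zero`.  `n = 0`: `lp = 1 ≠ 0`.  Otherwise choose `g i` with `(a i).coeff (g i) ≠ 0` (then `g i ∈ P i`) and use `coeff_lp`; `(Nat.card Z : k) ≠ 0` as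
`p` does not divide `|Z|` (`CharP.cast_eq_zero_iff`).
-/

set_option autoImplicit false

namespace Pool.Agent.Lib.P0c8ca5.Hh

open MonoidAlgebra

variable {p : ℕ} {k : Type*} [Field k] {A : Type*} [Group A] {Z N : Subgroup A} {n : ℕ}

namespace CoefAux

theorem coeff_of_single {a : MonoidAlgebra k A} {z : A} {c : k}
    (h : single z (1 : k) * a = c • a) (x : A) : a.coeff x = c * a.coeff (z * x) := by
  have h1 := congrArg (fun b => b.coeff (z * x)) h
  simp only [coeff_single_mul_apply, coeff_smul_apply, one_mul, smul_eq_mul,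
    inv_mul_cancel_left] at h1
  exact h1

theorem single_lp {a : Fin (n + 1) → MonoidAlgebra k A} {z : A} {c : k}
    (h : single z (1 : k) * a 0 = c • a 0) : single z (1 : k) * lp a = c • lp a := by
  rw [lp_succ, ← mul_assoc, h, smul_mul_assoc]

end CoefAux

open CoefAux

theorem coeff_lp [Fintype A] {P : Fin (n + 1) → Subgroup A} (hd : Jj.Dec p Z N P) {l : A → k}
    {a : Fin (n + 1) → MonoidAlgebra k A} (ha : ∀ i, SuppIn (P i) (a i))
    (hz : ∀ i, ∀ z ∈ Z, single z (1 : k) * a i = l z • a i) {g : Fin (n + 1) → A}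
    (hg : ∀ i, g i ∈ P i) :
    (lp a).coeff (lp g) = (Nat.card Z : k) ^ n * ∏ i, (a i).coeff (g i) := by
  classical
  haveI : Fintype ↥Z := Fintype.ofFinite _
  induction n generalizing N with
  | zero =>
    rw [lp_succ, lp_zero, mul_one, lp_succ, lp_zero, mul_one, pow_zero, one_mul,
      Fin.prod_univ_one]
  | succ n ih =>
    have hd' := dec_tail hd
    have ha' := fun i : Fin (n + 1) => ha i.succ
    have hg' := fun i : Fin (n + 1) => hg i.succ
    have hz' := fun i : Fin (n + 1) => hz i.succ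
    have h1 := ih hd' ha' hz' hg'
    have h2 := supp_lp hd' ha'
    have h3 := dec_lp_mem hd' hg'
    have hN : (⨆ i : Fin (n + 1), P i.succ) ≤ ⨆ (j) (_ : j ≠ 0), P j :=
      iSup_le fun i => le_iSup₂_of_le i.succ (Fin.succ_ne_zero i) le_rfl
    rw [lp_succ a, lp_succ g, coeff_mul_fin, Fin.prod_univ_succ]
    have h4 : ∀ z : Z, (a 0).coeff (g 0 * (z : A)) *
        (lp (fun i : Fin (n + 1) => a i.succ)).coeff
          ((g 0 * (z : A))⁻¹ * (g 0 * lp (fun i : Fin (n + 1) => g i.succ))) =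
        (a 0).coeff (g 0) * (lp (fun i : Fin (n + 1) => a i.succ)).coeff
          (lp (fun i : Fin (n + 1) => g i.succ)) := by
      intro z
      have e1 : (g 0 * (z : A))⁻¹ * (g 0 * lp (fun i : Fin (n + 1) => g i.succ)) =
          (z : A)⁻¹ * lp (fun i : Fin (n + 1) => g i.succ) := by group
      have e2 : (z : A) * g 0 = g 0 * z := ((Subgroup.mem_center_iff.1 (hd.cen z.2)) (g 0)).symm
      have e3 := coeff_of_single (hz 0 z z.2) (g 0)
      have e4 := coeff_of_single (single_lp (a := fun i : Fin (n + 1) => a i.succ)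
        (hz' 0 z z.2)) ((z : A)⁻¹ * lp (fun i : Fin (n + 1) => g i.succ))
      rw [mul_inv_cancel_left] at e4
      rw [e1, e4, e3, e2]
      ring
    have h5 : ∑ y : A, (a 0).coeff y * (lp (fun i : Fin (n + 1) => a i.succ)).coeff
          (y⁻¹ * (g 0 * lp (fun i : Fin (n + 1) => g i.succ))) =
        ∑ z : Z, (a 0).coeff (g 0 * (z : A)) *
        (lp (fun i : Fin (n + 1) => a i.succ)).coeff
          ((g 0 * (z : A))⁻¹ * (g 0 * lp (fun i : Fin (n + 1) => g i.succ))) := by
      symm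
      apply Fintype.sum_of_injective (fun z : Z => g 0 * (z : A))
        (fun z z' h => Subtype.ext (mul_left_cancel h))
      · intro y hy
        by_contra h6
        have h7 := ha 0 y (left_ne_zero_of_mul h6)
        have h8 := h2 _ (right_ne_zero_of_mul h6)
        have h9 := (⨆ i : Fin (n + 1), P i.succ).mul_mem h8
          ((⨆ i : Fin (n + 1), P i.succ).inv_mem h3)
        have e1 : y⁻¹ * (g 0 * lp (fun i : Fin (n + 1) => g i.succ)) *
            (lp (fun i : Fin (n + 1) => g i.succ))⁻¹ = y⁻¹ * g 0 := by group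
        rw [e1] at h9
        have h10 : y⁻¹ * g 0 ∈ Z := hd.indep 0 (Subgroup.mem_inf.2
          ⟨(P 0).mul_mem ((P 0).inv_mem h7) (hg 0), hN h9⟩)
        apply hy
        refine ⟨⟨(y⁻¹ * g 0)⁻¹, Z.inv_mem h10⟩, ?_⟩
        change g 0 * (y⁻¹ * g 0)⁻¹ = y
        group
      · intro z
        rfl
    rw [h5, Finset.sum_congr rfl fun z _ => h4 z, Finset.sum_const, Finset.card_univ,
      ← Nat.card_eq_fintype_card, nsmul_eq_mul, h1]
    ring


theorem lp_ne_zero [Fact p.Prime] [CharP k p] [Fintype A] {P : Fin n → Subgroup A}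
    (hd : Jj.Dec p Z N P) {l : A → k} {a : Fin n → MonoidAlgebra k A}
    (ha : ∀ i, SuppIn (P i) (a i))
    (hz : ∀ i, ∀ z ∈ Z, single z (1 : k) * a i = l z • a i) (h : ∀ i, a i ≠ 0) : lp a ≠ 0 := by
  rcases n with _ | n
  · rw [lp_zero]
    exact one_ne_zero
  · have hex : ∀ i, ∃ g : A, (a i).coeff g ≠ 0 := by
      intro i
      by_contra hcon
      push Not at hcon
      apply h i
      ext x
      exact hcon x
    choose g hg using hex
    intro h0
    have h1 := coeff_lp hd ha hz (fun i => ha i (g i) (hg i))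
    rw [h0] at h1
    have h2 : (Nat.card Z : k) ≠ 0 := fun h3 => hd.pr ((CharP.cast_eq_zero_iff k p _).1 h3)
    exact mul_ne_zero (pow_ne_zero _ h2) (Finset.prod_ne_zero_iff.2 fun i _ => hg i) h1.symm


end Pool.Agent.Lib.P0c8ca5.Hh
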