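import Mathlib
import Pool.Agent.Lib.P0c8ca5H.ShA
import Pool.Agent.Lib.P0c8ca5L.ChnD

/-!
# Module Exv: elements of the stabilizer of a chain in a coset

`u = lp a * x` permutes the factors, `t` is a chain of p-subgroups of `W 0` fixed by `u ^ q`, `s = sig q u t` the corresponding chain of `V`.  `M` is normal, all commutators are in `M`, and
`M ≤ V ⊔ (M ⊓ C(sup s))`.
PROOF of `exv`.  Put `v₀ = b₀ * y ∈ stab ⊤ t`.  For `i : Fin q` the element `u ^ i v₀ u ^ -i` normalizes the members `cg (u ^ i) Q` of `prj (W i) s` (`Ll.mem_prj_sig`).  It is `m * y` with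
`m = (u ^ i v₀ u ^ -i v₀⁻¹) b₀ ∈ M` (`hab`, `b₀ ∈ V ≤ M`).  By `hMC` `m = d * t'`, `d ∈ M ⊓ C(sup s)`, `t' ∈ V` (`V` is normal: `Subgroup.mem_sup_of_normal_left` or `_right`;
`Subgroup.mul_normal`).  `d` centralizes the members of `prj (W i) s` (they are contained in `sup s`: `Ll.sup_inf`, `Finset.le_sup`), so `t' * y = d⁻¹ (m y)` normalizes them.  Write `t' = lp c`,
`c j ∈ W j` (`Ll.mem_iSup_lp`, `hd.sup`); `lp c * y` acts on `W i` as `c i * y` (`Ll.lp_mul_conj`), so `c i * y` normalizes the members of `prj (W i) s`; put `b i = c i` for `i ≠ 0` and `b 0 = b₀`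
(`prj (W 0) s = t`, `Ll.prj_sig_zero`).  Then `lp b * y ∈ stab ⊤ s` by `Ll.lp_mul_mem_stab_top`.
-/

set_option autoImplicit false

namespace Pool.Agent.Lib.P0c8ca5.Hh

open MonoidAlgebra Ps Gg

variable {p : ℕ} {A : Type*} [Group A] {Z V M : Subgroup A} {q : ℕ}
  [NeZero q] {W : Fin q → Subgroup A} {a : Fin q → A} {x y : A}

theorem ExvAux.cg_lp {n : ℕ} {W : Fin n → Subgroup A} (hd : Jj.Dec p Z V W) {c : Fin n → A}
    (hc : ∀ i, c i ∈ W i) (hy : ∀ i, y ∈ Subgroup.normalizer (W i : Set A)) {i : Fin n}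
    {P : Subgroup A} (hP : P ≤ W i) : cg (lp c * y) P = cg (c i * y) P := by
  unfold cg
  apply le_antisymm
  · rintro _ ⟨z, hz, rfl⟩
    refine ⟨z, hz, ?_⟩
    exact (Ll.lp_mul_conj hd hc hy (hP hz)).symm
  · rintro _ ⟨z, hz, rfl⟩
    refine ⟨z, hz, ?_⟩
    exact Ll.lp_mul_conj hd hc hy (hP hz)

theorem exv [Fact p.Prime] [Fintype A] (hd : Jj.Dec p Z V W) (hV : V.Normal)
    (hx : ∀ i, cg x (W i) = W (i + 1)) (ha : ∀ i, a i ∈ W i)
    (hy : ∀ i, y ∈ Subgroup.normalizer (W i : Set A)) (hVM : V ≤ M)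
    (hab : ∀ g h : A, h * g * h⁻¹ * g⁻¹ ∈ M) {t : Finset (Subgroup A)}
    (ht : t ∈ Ch (famAll p (W 0))) (hut : (lp a * x) ^ q ∈ stab ⊤ t)
    (hMC : M ≤ V ⊔ (M ⊓ Subgroup.centralizer
      (((Ll.sig q (lp a * x) t).sup id : Subgroup A) : Set A)))
    {b₀ : A} (hb₀ : b₀ ∈ W 0) (hb : b₀ * y ∈ stab ⊤ t) :
    ∃ b : Fin q → A, (∀ i, b i ∈ W i) ∧ b 0 = b₀ ∧
      lp b * y ∈ stab ⊤ (Ll.sig q (lp a * x) t) := by
  classical
  have huW : ∀ i, cg (lp a * x) (W i) = W (i + 1) := sh_u hd hx ha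
  generalize lp a * x = u at huW hMC hut ⊢
  have hs : Ll.sig q u t ∈ Ch (Hh.PD p V W) := Ll.sig_mem hd huW ht
  have key : ∀ i : Fin q, ∃ c ∈ W i, c * y ∈ stab ⊤ (prj (W i) (Ll.sig q u t)) := by
    intro i
    have hm : u ^ i.val * (b₀ * y) * (u ^ i.val)⁻¹ * (b₀ * y)⁻¹ * b₀ ∈ M :=
      M.mul_mem (hab (b₀ * y) (u ^ i.val)) (hVM (hd.le' 0 hb₀))
    have h1 := hMC hm
    rw [sup_comm, Subgroup.mem_sup_of_normal_right] at h1
    obtain ⟨d, hdM, t', ht', hdt⟩ := h1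
    rw [← hd.sup] at ht'
    obtain ⟨c, hc, hct⟩ := (Ll.mem_iSup_lp hd.comm).1 ht'
    refine ⟨c i, hc i, ?_⟩
    rw [Ll.mem_stab_iff]
    refine ⟨Subgroup.mem_top _, fun P hP => ?_⟩
    have hPs : P ≤ (Ll.sig q u t).sup id := by
      have h2 : P ≤ (prj (W i) (Ll.sig q u t)).sup id := Finset.le_sup (f := id) hP
      rw [← Ll.sup_inf hs i] at h2
      exact h2.trans inf_le_left
    obtain ⟨Q, hQ, rfl⟩ := (Ll.mem_prj_sig hd huW ht i).1 hP
    have hPW : cg (u ^ i.val) Q ≤ W i :=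
      Ll.cg_le_W hd huW (mem_famAll.1 ((InvAux.mem_Ch.1 ht).1 hQ)).1 i
    have hd1 : d ∈ Subgroup.normalizer ((cg (u ^ i.val) Q : Subgroup A) : Set A) := by
      apply Ll.mem_norm_of_comm
      intro z hz
      exact (Subgroup.mem_centralizer_iff.1 hdM.2 z (hPs hz)).symm
    have hv : cg (b₀ * y) Q = Q := cg_eq_self_iff.2 ((Ll.mem_stab_iff.1 hb).2 Q hQ)
    have e1 : lp c * y = d⁻¹ * (u ^ i.val * (b₀ * y) * (u ^ i.val)⁻¹) := by
      have e2 : d * lp c = u ^ i.val * (b₀ * y) * (u ^ i.val)⁻¹ * (b₀ * y)⁻¹ * b₀ := by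
        rw [hct]
        exact hdt
      have e3 : lp c = d⁻¹ * (u ^ i.val * (b₀ * y) * (u ^ i.val)⁻¹ * (b₀ * y)⁻¹ * b₀) := by
        rw [← e2]
        group
      rw [e3]
      group
    rw [← cg_eq_self_iff, ← ExvAux.cg_lp hd hc hy hPW, e1, cg_eq_self_iff]
    refine Subgroup.mul_mem _ (Subgroup.inv_mem _ hd1) ?_
    rw [← cg_eq_self_iff, cg_cg]
    have e4 : u ^ i.val * (b₀ * y) * (u ^ i.val)⁻¹ * u ^ i.val = u ^ i.val * (b₀ * y) := by
      group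
    rw [e4, ← cg_cg, hv]
  choose c hc hcs using key
  have hbW : ∀ i, Function.update c 0 b₀ i ∈ W i := by
    intro i
    by_cases hi : i = 0
    · subst hi
      rw [Function.update_self]
      exact hb₀
    · rw [Function.update_of_ne hi]
      exact hc i
  refine ⟨Function.update c 0 b₀, hbW, Function.update_self _ _ _, ?_⟩
  rw [Ll.lp_mul_mem_stab_top hd hs hbW hy]
  intro i
  by_cases hi : i = 0
  · subst hi
    rw [Function.update_self, Ll.prj_sig_zero hd huW ht]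
    exact hb
  · rw [Function.update_of_ne hi]
    exact hcs i

end Pool.Agent.Lib.P0c8ca5.Hh
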