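import Mathlib
import Pool.Agent.Lib.P0c8ca5H.LP
import Pool.Agent.Lib.P0c8ca5G.OmB
import Pool.Agent.Lib.P0c8ca5U.CmF

/-!
# Module Om: the symbol relative to an element of `kN`

`Imp N f g e`: `e` in `kN` implements the conjugation with `g` on `N` and is invertible in `kNf`.

All representations are irreducible, `x`, `y` normalize `N`.  Use `Un8.itS_unique` / `Gg.Itw.unique`, `Gg.Itw.mul`, `Gg.Itw.inv`, `Gg.itw_of_mem`, `Un8.scal_uniq`, `Un8.omw_eq`.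

PROOF of `Imp.inj`.  `act ρ e * act ρ e' = act ρ f = 1` and `act ρ e' * act ρ e = 1` (`act_mul`).
PROOF of `Imp.act_conj`.  `act ρ` of `he.comm`: `act ρ (single z 1) = ρ z` (for `z ∈ N`: `Un8.act_single`-like or `act_apply` and `Finset.sum_eq_single`).
PROOF of `exists_omw`.  `Y X` is an intertwiner for `y x`; `E := act ρ e` satisfies `E (ρ g v) = ρ ([y, x] g [y, x]⁻¹) (E v)` (`Imp.act_conj`), bijective (`Imp.inj` and
finite dimension, or the inverse), so `E X Y` is an intertwiner for `[y, x] x y = y x`.  Uniqueness up to a scalar gives `Y X = t E X Y`, `t ≠ 0` since `Y X ≠ 0`.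
PROOF of `omw_spec`.  If `omw ≠ 0` then the `if` in the definition is true: `Exists.choose_spec`.
PROOF of `omw_ne_zero_iff`.  (⇒) `omw_spec`.  (⇐) `exists_omw` and `Un8.omw_eq`.
PROOF of `omw_iso`.  The sets of the `t` with `Omw` are the same: conjugate `X`, `Y` by the isomorphism `P`, `P (act ρ e v) = act ρ' e (P v)` (`Un8.act_hom`, `Cy.EpsAux.act_conj`);
as in `Un8.om_iso'`.
PROOF of `itw_congr`.  `x g x⁻¹ = x' g x'⁻¹`.   PROOF of `omw_congr`.  The sets of the `t` are the same by `itw_congr`.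
PROOF of `omw_mul_left`.  If `omw N ρ x y e ≠ 0` choose `X`, `Y` (`omw_spec`).  `X' = ρ h X` is an intertwiner of `h x`, and `Y (ρ h (X v)) = ρ (y h y⁻¹) (Y (X v)) =
t ρ (y h y⁻¹) (act ρ e (X (Y v))) = t act ρ e' (ρ h (X (Y v)))` with `e' = single (y h y⁻¹) 1 * e * single h⁻¹ 1`.  `act ρ e'` is injective; `Un8.omw_eq`.
Conversely (if `omw N ρ x y e = 0` the other side is zero as well): apply the same to `h⁻¹`, `h x`, `e'`.  Or show: the sets of the `t` with `Omw` are equal.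
PROOF of `omw_mul_right`.  The same with `Y' = ρ h Y`: `ρ h (Y (X v)) = t ρ h (act ρ e (X (Y v))) = t act ρ e'' (X (ρ h (Y v)))` with
`e'' = single h 1 * e * single (x h⁻¹ x⁻¹) 1`, as `X (ρ h w) = ρ (x h x⁻¹) (X w)`.
PROOF of `omwX_mk`.  `Quotient.out ⟦γ⟧ ≈ γ`, `omw_iso`.
-/

set_option autoImplicit false

namespace Pool.Agent.Lib.P0c8ca5.Hh

open MonoidAlgebra Gg Un8

variable {p : ℕ} {k : Type*} [Field k] {A : Type*} [Group A] {N : Subgroup A} {n m : ℕ}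

/-- `e` in `kN` acts on `N` as the conjugation with `g` and is invertible in `kNf` -/
structure Imp (N : Subgroup A) (f : MonoidAlgebra k A) (g : A) (e : MonoidAlgebra k A) :
    Prop where
  supp : SuppIn N e
  comm : ∀ z ∈ N, e * single z 1 = single (g * z * g⁻¹) 1 * e
  inv : ∃ e', SuppIn N e' ∧ e * e' = f ∧ e' * e = f

theorem act_sg [Finite A] {ρ : Rp k N n} {z : A} (hz : z ∈ N) :
    act ρ (single z (1 : k)) = ρ ⟨z, hz⟩ := by
  classical
  have : Fintype N := Fintype.ofFinite _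
  apply LinearMap.ext
  intro v
  rw [act_apply, Finset.sum_eq_single (⟨z, hz⟩ : N)]
  · rw [coeff_single, Finsupp.single_eq_same, one_smul]
  · intro x _ hx
    rw [coeff_single, Finsupp.single_eq_of_ne, zero_smul]
    intro h
    exact hx (Subtype.ext h)
  · intro h
    exact absurd (Finset.mem_univ _) h

namespace OmAux

theorem supp_sg' {z : A} (hz : z ∈ N) : SuppIn N (single z (1 : k)) := by
  intro x hx
  rw [coeff_single] at hx
  have h : z = x := by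
    by_contra hne
    rw [Finsupp.single_eq_of_ne (Ne.symm hne)] at hx
    exact hx rfl
  exact h ▸ hz

theorem rep_inv (ρ : Rp k N n) {h : A} (hh : h ∈ N) (h' : h⁻¹ ∈ N) (v : Fin n → k) :
    ρ ⟨h⁻¹, h'⟩ (ρ ⟨h, hh⟩ v) = v := by
  have e : (⟨h⁻¹, h'⟩ : N) * ⟨h, hh⟩ = 1 := Subtype.ext (inv_mul_cancel h)
  rw [← Module.End.mul_apply, ← map_mul, e, map_one, Module.End.one_apply]

theorem rep_inv' (ρ : Rp k N n) {a b : A} (ha : a ∈ N) (hb : b ∈ N) (hab : a * b = 1)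
    (v : Fin n → k) : ρ ⟨a, ha⟩ (ρ ⟨b, hb⟩ v) = v := by
  have e : (⟨a, ha⟩ : N) * ⟨b, hb⟩ = 1 := Subtype.ext hab
  rw [← Module.End.mul_apply, ← map_mul, e, map_one, Module.End.one_apply]

/-- the action of a product with three factors -/
theorem act_three [Finite A] (ρ : Rp k N n) {a b : A} (ha : a ∈ N) (hb : b ∈ N)
    {e : MonoidAlgebra k A} (he : SuppIn N e) (v : Fin n → k) :
    act ρ (single a 1 * e * single b 1) v = ρ ⟨a, ha⟩ (act ρ e (ρ ⟨b, hb⟩ v)) := by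
  rw [act_mul ρ ((supp_sg' ha).mul he), act_mul ρ (supp_sg' ha), act_sg ha, act_sg hb]
  rfl

theorem omw_of_iff {V V' : Type*} [AddCommGroup V] [Module k V] [AddCommGroup V'] [Module k V']
    {ρ : Representation k N V} {ρ' : Representation k N V'} {x y x' y' : A}
    {e e' : MonoidAlgebra k A} (h : ∀ t, Omw N ρ x y e t ↔ Omw N ρ' x' y' e' t) :
    omw N ρ x y e = omw N ρ' x' y' e' := by
  unfold omw
  exact OmBAux.dite_choose h

theorem iso_key {V V' : Type*} [AddCommGroup V] [Module k V] [AddCommGroup V'] [Module k V']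
    {ρ : Representation k N V} {ρ' : Representation k N V'} {P : V ≃ₗ[k] V'}
    (hP : ∀ (x : N) (v : V), P (ρ x v) = ρ' x (P v)) {a : A} {X : V ≃ₗ[k] V}
    (hX : Itw N ρ a X) : Itw N ρ' a ((P.symm.trans X).trans P) := by
  have hP' : ∀ (g : N) (v : V'), P.symm (ρ' g v) = ρ g (P.symm v) := by
    intro g v
    apply P.injective
    rw [hP, LinearEquiv.apply_symm_apply, LinearEquiv.apply_symm_apply]
  intro g g' hg v
  simp only [LinearEquiv.trans_apply]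
  rw [hP', hX g g' hg, hP]

theorem omw_iso1 [Finite A] {ρ : Rp k N n} {ρ' : Rp k N m} (h : Iso ρ ρ') {x y : A}
    {e : MonoidAlgebra k A} {t : k} (H : Omw N ρ x y e t) : Omw N ρ' x y e t := by
  obtain ⟨P, hP⟩ := h
  obtain ⟨X, Y, hX, hY, h⟩ := H
  refine ⟨_, _, iso_key hP hX, iso_key hP hY, fun v => ?_⟩
  simp only [LinearEquiv.trans_apply, LinearEquiv.symm_apply_apply]
  rw [h, map_smul, Cy.EpsAux.act_conj P hP e]

/-- the intertwiner `ρ h X` -/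
theorem itw_mul_mem {ρ : Rp k N n} {h a b : A} (hh : h ∈ N) (ha : h * a = b)
    {X : (Fin n → k) ≃ₗ[k] (Fin n → k)} (hX : Itw N ρ a X)
    (han : a ∈ Subgroup.normalizer (N : Set A)) :
    ∃ X', Itw N ρ b X' ∧ ∀ v, X' v = ρ ⟨h, hh⟩ (X v) := by
  obtain ⟨Z, hZ, hZv⟩ := itw_of_mem (ρ := ρ) hh
  subst ha
  exact ⟨X.trans Z, hZ.mul (Subgroup.le_normalizer hh) han hX, fun v => hZv _⟩

end OmAux

open OmAux

theorem Imp.inj [Finite A] {f e : MonoidAlgebra k A} {g : A} (he : Imp N f g e)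
    {ρ : Rp k N n} (hf : act ρ f = 1) : Function.Bijective (act ρ e) := by
  obtain ⟨e', he', h1, h2⟩ := he.inv
  have i1 : act ρ e * act ρ e' = 1 := by rw [← act_mul ρ he.supp, h1, hf]
  have i2 : act ρ e' * act ρ e = 1 := by rw [← act_mul ρ he', h2, hf]
  constructor
  · intro a b hab
    have h3 := congrArg (act ρ e') hab
    rw [← Module.End.mul_apply, ← Module.End.mul_apply, i2] at h3
    exact h3
  · intro v
    refine ⟨act ρ e' v, ?_⟩
    rw [← Module.End.mul_apply, i1]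
    rfl

theorem Imp.act_conj [Finite A] {f e : MonoidAlgebra k A} {g : A} (he : Imp N f g e)
    {ρ : Rp k N n} (z z' : N) (hz : (z' : A) = g * z * g⁻¹) (v : Fin n → k) :
    act ρ e (ρ z v) = ρ z' (act ρ e v) := by
  have h1 := he.comm z z.2
  rw [← hz] at h1
  have h2 : act ρ (e * single (z : A) 1) v = act ρ (single (z' : A) 1 * e) v := by rw [h1]
  rw [act_mul ρ he.supp, act_mul ρ (supp_sg' z'.2), act_sg z.2, act_sg z'.2] at h2
  exact h2

theorem exists_omw [IsAlgClosed k] [Finite A] {ρ : Rp k N n} (hρ : Irr' ρ) {x y : A}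
    (hx : x ∈ Subgroup.normalizer (N : Set A)) (hy : y ∈ Subgroup.normalizer (N : Set A))
    {f e : MonoidAlgebra k A} (he : Imp N f (y * x * y⁻¹ * x⁻¹) e) (hf : act ρ f = 1)
    {X Y : (Fin n → k) ≃ₗ[k] (Fin n → k)} (hX : Itw N ρ x X) (hY : Itw N ρ y Y) :
    ∃ t : k, t ≠ 0 ∧ ∀ v, Y (X v) = t • act ρ e (X (Y v)) := by
  have h1 : Itw N ρ (y * x) (X.trans Y) := Itw.mul hy hx hY hX
  have h2 : Itw N ρ (x * y) (Y.trans X) := Itw.mul hx hy hX hY
  let a : (Fin n → k) ≃ₗ[k] (Fin n → k) := LinearEquiv.ofBijective (act ρ e) (he.inj hf)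
  have ha : ∀ v, a v = act ρ e v := fun v => rfl
  have hxy := (Subgroup.normalizer (N : Set A)).mul_mem hx hy
  have h3 : Itw N ρ (y * x) ((Y.trans X).trans a) := by
    intro g g' hg v
    have h4 : x * y * g * (x * y)⁻¹ ∈ N := (Subgroup.mem_normalizer_iff.1 hxy _).1 g.2
    have h5 : X (Y (ρ g v)) = ρ ⟨_, h4⟩ (X (Y v)) := h2 g ⟨_, h4⟩ rfl v
    change a (X (Y (ρ g v))) = ρ g' (a (X (Y v)))
    rw [h5, ha, ha]
    apply he.act_conj
    rw [hg]
    group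
  obtain ⟨c, hc, h4⟩ := Itw.unique hρ ((Subgroup.normalizer (N : Set A)).mul_mem hy hx) h3 h1
  exact ⟨c, hc, h4⟩

theorem omw_spec {ρ : Rp k N n} {x y : A} {e : MonoidAlgebra k A}
    (h : omw N ρ x y e ≠ 0) : Omw N ρ x y e (omw N ρ x y e) := by
  by_cases h1 : ∃ t : k, Omw N ρ x y e t
  · have h2 : omw N ρ x y e = h1.choose := by
      unfold omw
      rw [dif_pos h1]
    rw [h2]
    exact h1.choose_spec
  · exfalso
    apply h
    unfold omw
    rw [dif_neg h1]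

theorem omw_ne_zero_iff [IsAlgClosed k] [Finite A] {ρ : Rp k N n} (hρ : Irr' ρ) {x y : A}
    (hx : x ∈ Subgroup.normalizer (N : Set A)) (hy : y ∈ Subgroup.normalizer (N : Set A))
    {f e : MonoidAlgebra k A} (he : Imp N f (y * x * y⁻¹ * x⁻¹) e) (hf : act ρ f = 1) :
    omw N ρ x y e ≠ 0 ↔ (∃ X, Itw N ρ x X) ∧ ∃ Y, Itw N ρ y Y := by
  constructor
  · intro h
    obtain ⟨X, Y, hX, hY, -⟩ := omw_spec h
    exact ⟨⟨X, hX⟩, ⟨Y, hY⟩⟩
  · rintro ⟨⟨X, hX⟩, ⟨Y, hY⟩⟩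
    obtain ⟨t, ht, h⟩ := exists_omw hρ hx hy he hf hX hY
    rw [omw_eq hρ hx hy (he.inj hf).1 ⟨X, Y, hX, hY, h⟩]
    exact ht

theorem omw_iso [Finite A] {ρ : Rp k N n} {ρ' : Rp k N m} (h : Iso ρ ρ') (x y : A)
    (e : MonoidAlgebra k A) : omw N ρ x y e = omw N ρ' x y e :=
  omw_of_iff fun _ => ⟨fun H => omw_iso1 h H, fun H => omw_iso1 h.symm H⟩

theorem itw_iso {ρ : Rp k N n} {ρ' : Rp k N m} (h : Iso ρ ρ') {x : A}
    (hX : ∃ X, Itw N ρ x X) : ∃ X, Itw N ρ' x X := by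
  obtain ⟨P, hP⟩ := h
  obtain ⟨X, hX⟩ := hX
  exact ⟨_, iso_key hP hX⟩

theorem itw_congr {ρ : Rp k N n} {x x' : A} (hx : ∀ z ∈ N, x * z * x⁻¹ = x' * z * x'⁻¹)
    {X : (Fin n → k) ≃ₗ[k] (Fin n → k)} : Itw N ρ x X ↔ Itw N ρ x' X := by
  constructor
  · intro h g g' hg v
    exact h g g' (by rw [hg, hx g g.2]) v
  · intro h g g' hg v
    exact h g g' (by rw [hg, hx g g.2]) v

theorem omw_congr {ρ : Rp k N n} {x x' y y' : A}
    (hx : ∀ z ∈ N, x * z * x⁻¹ = x' * z * x'⁻¹) (hy : ∀ z ∈ N, y * z * y⁻¹ = y' * z * y'⁻¹)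
    (e : MonoidAlgebra k A) : omw N ρ x y e = omw N ρ x' y' e := by
  refine omw_of_iff fun t => ⟨?_, ?_⟩
  · rintro ⟨X, Y, hX, hY, h⟩
    exact ⟨X, Y, (itw_congr hx).1 hX, (itw_congr hy).1 hY, h⟩
  · rintro ⟨X, Y, hX, hY, h⟩
    exact ⟨X, Y, (itw_congr hx).2 hX, (itw_congr hy).2 hY, h⟩

theorem omw_mul_left [IsAlgClosed k] [Finite A] {ρ : Rp k N n} (hρ : Irr' ρ) {x y h : A}
    (hx : x ∈ Subgroup.normalizer (N : Set A)) (hy : y ∈ Subgroup.normalizer (N : Set A))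
    (hh : h ∈ N) {f e : MonoidAlgebra k A} (he : Imp N f (y * x * y⁻¹ * x⁻¹) e)
    (hf : act ρ f = 1) :
    omw N ρ (h * x) y (single (y * h * y⁻¹) 1 * e * single h⁻¹ 1) = omw N ρ x y e := by
  have hi : h⁻¹ ∈ N := N.inv_mem hh
  have hc : y * h * y⁻¹ ∈ N := (Subgroup.mem_normalizer_iff.1 hy _).1 hh
  have hci : y * h⁻¹ * y⁻¹ ∈ N := (Subgroup.mem_normalizer_iff.1 hy _).1 hi
  refine omw_of_iff fun t => ⟨?_, ?_⟩
  · rintro ⟨X, Y, hX, hY, h1⟩
    obtain ⟨X', hX', hv⟩ := itw_mul_mem (b := x) hi (by group) hX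
      ((Subgroup.normalizer (N : Set A)).mul_mem (Subgroup.le_normalizer hh) hx)
    refine ⟨X', Y, hX', hY, fun v => ?_⟩
    rw [hv, hv, hY ⟨h⁻¹, hi⟩ ⟨y * h⁻¹ * y⁻¹, hci⟩ rfl, h1, act_three ρ hc hi he.supp, map_smul,
      rep_inv' ρ hci hc (by group)]
  · rintro ⟨X, Y, hX, hY, h1⟩
    obtain ⟨X', hX', hv⟩ := itw_mul_mem (b := h * x) hh rfl hX hx
    refine ⟨X', Y, hX', hY, fun v => ?_⟩
    rw [hv, hv, hY ⟨h, hh⟩ ⟨y * h * y⁻¹, hc⟩ rfl, h1, act_three ρ hc hi he.supp, map_smul,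
      rep_inv ρ hh hi]

theorem omw_mul_right [IsAlgClosed k] [Finite A] {ρ : Rp k N n} (hρ : Irr' ρ) {x y h : A}
    (hx : x ∈ Subgroup.normalizer (N : Set A)) (hy : y ∈ Subgroup.normalizer (N : Set A))
    (hh : h ∈ N) {f e : MonoidAlgebra k A} (he : Imp N f (y * x * y⁻¹ * x⁻¹) e)
    (hf : act ρ f = 1) :
    omw N ρ x (h * y) (single h 1 * e * single (x * h⁻¹ * x⁻¹) 1) = omw N ρ x y e := by
  have hi : h⁻¹ ∈ N := N.inv_mem hh
  have hc : x * h * x⁻¹ ∈ N := (Subgroup.mem_normalizer_iff.1 hx _).1 hh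
  have hci : x * h⁻¹ * x⁻¹ ∈ N := (Subgroup.mem_normalizer_iff.1 hx _).1 hi
  refine omw_of_iff fun t => ⟨?_, ?_⟩
  · rintro ⟨X, Y, hX, hY, h1⟩
    obtain ⟨Y', hY', hv⟩ := itw_mul_mem (b := y) hi (by group) hY
      ((Subgroup.normalizer (N : Set A)).mul_mem (Subgroup.le_normalizer hh) hy)
    refine ⟨X, Y', hX, hY', fun v => ?_⟩
    rw [hv, hv, h1, act_three ρ hh hci he.supp, map_smul, rep_inv ρ hh hi,
      hX ⟨h⁻¹, hi⟩ ⟨x * h⁻¹ * x⁻¹, hci⟩ rfl]
  · rintro ⟨X, Y, hX, hY, h1⟩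
    obtain ⟨Y', hY', hv⟩ := itw_mul_mem (b := h * y) hh rfl hY hy
    refine ⟨X, Y', hX, hY', fun v => ?_⟩
    rw [hv, hv, h1, act_three ρ hh hci he.supp, map_smul,
      hX ⟨h, hh⟩ ⟨x * h * x⁻¹, hc⟩ rfl, rep_inv' ρ hci hc (by group)]

theorem omwX_mk [Finite A] {f : MonoidAlgebra k A} (γ : IrrInv N ⊥ f) (x y : A)
    (e : MonoidAlgebra k A) : omwX N f ⟦γ⟧ x y e = omw N γ.ρ x y e := by
  have h : Nonempty ((Quotient.out (⟦γ⟧ : IrX N f)).ρ.Equiv γ.ρ) :=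
    Quotient.exact (Quotient.out_eq (⟦γ⟧ : IrX N f))
  exact omw_iso (iso_iff.2 h) x y e

end Pool.Agent.Lib.P0c8ca5.Hh
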