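import Mathlib
import Pool.Agent.Lib.P0c8ca5H.Om
import Pool.Agent.Lib.P0c8ca5U.CmH

/-!
# Module ImL: the unit on the level of a chain, and the sum over a coset

`UH N K c`, `QT p N Q T` (`Q ≤ N` a p-group, `C(Q) ≤ T ≤ N(Q)`), `UP N c g⁻¹ w w'`: `w` is a unit over `g⁻¹`.

PROOF of `imp_level`.  `supp`: if the coefficient of `single r 1 * cS Q w` at `z` is not zero then `r⁻¹ z ∈ C(Q) ≤ T` and `(r⁻¹ z) g ∈ N` (`UP.su` with `x = g⁻¹`), so
`z = r (r⁻¹ z) ∈ T` and `z = (r g⁻¹) (g ((r⁻¹ z) g) g⁻¹) ∈ N`.  `comm`: for `z ∈ N ⊓ T`: `cS Q w` commutes with `single z 1` (`cS_comm`: `w` is `N`-invariant), and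
`single r 1 * single z 1 = single (r z r⁻¹) 1 * single r 1`.  `inv`: `e' = cS Q w' * single r⁻¹ 1`; `cS Q w * cS Q w' = cS Q (w * w') = cS Q c` (`cS_mul`), so
`e * e' = single r 1 * cS Q c * single r⁻¹ 1 = cj r (cS Q c) = cS Q (cj r c) = cS Q c` (`cS_cj`, `h.inv`), `e' * e = cS Q w' * cS Q w = cS Q c`; the support of `e'` as for `e`
(`cS Q w'` at `z r`: `UP.sv`).
PROOF of `lvl_mul_right`.  For `t ∈ N ⊓ T`: `[t y, x] = t [y, x] (x t⁻¹ x⁻¹)`, and `cS Q w` commutes with `single (x t⁻¹ x⁻¹) 1` (`x t⁻¹ x⁻¹ ∈ N ⊓ T`), so the element of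
`(x, t y)` is `single t 1 * e * single (x t⁻¹ x⁻¹) 1` with `e` the element of `(x, y)`: `omw_mul_right` (the element `e` is an `Imp` for `[y, x]`: `imp_level`).
PROOF of `lvl_mul_left`.  The same: `[y, t x] = (y t y⁻¹) [y, x] t⁻¹`, `omw_mul_left`.
PROOF of `sum_lvl`.  The elements `y'` of `T` with `y' y⁻¹ ∈ N` are the `t y`, `t ∈ N ⊓ T`, if `y ∈ T`; each term is equal to the one of `y` (`lvl_mul_right`, for all classes `c`; `omwX`, with
`Quotient.out`, `act_iff` for `act ρ (cS Q c) = 1`), and there are `|N ⊓ T|` of them (bijection `t ↦ t y`).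
-/

set_option autoImplicit false

namespace Pool.Agent.Lib.P0c8ca5.Hh

open MonoidAlgebra Gg Un8

variable {p : ℕ} {k : Type*} [Field k] {A : Type*} [Group A] {N K Q T : Subgroup A}
  {c w w' : MonoidAlgebra k A} {g : A}

namespace ImLAux

theorem nrmT (h : UH N K c) {x : A} (hx : x ∈ K ⊓ T) :
    x ∈ Subgroup.normalizer ((N ⊓ T : Subgroup A) : Set A) := by
  have hN := Subgroup.mem_normalizer_iff.1 (h.nm hx.1)
  rw [Subgroup.mem_normalizer_iff]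
  intro z
  constructor
  · intro hz
    exact ⟨(hN z).1 hz.1, T.mul_mem (T.mul_mem hx.2 hz.2) (T.inv_mem hx.2)⟩
  · intro hz
    refine ⟨(hN z).2 hz.1, ?_⟩
    have h1 := T.mul_mem (T.mul_mem (T.inv_mem hx.2) hz.2) hx.2
    have e : x⁻¹ * (x * z * x⁻¹) * x = z := by group
    rwa [e] at h1

theorem conj_memT (h : UH N K c) {x z : A} (hx : x ∈ K ⊓ T) (hz : z ∈ N ⊓ T) :
    x * z * x⁻¹ ∈ N ⊓ T := (Subgroup.mem_normalizer_iff.1 (nrmT h hx) z).1 hz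

theorem sgl_supp {X : Subgroup A} {z : A} (hz : z ∈ X) : SuppIn X (single z (1 : k)) := by
  classical
  intro x hx
  by_contra hxC
  apply hx
  change (Finsupp.single z (1 : k)) x = 0
  rw [Finsupp.single_eq_of_ne]
  rintro rfl
  exact hxC hz

theorem cm_mem (T : Subgroup A) {x y : A} (hx : x ∈ K ⊓ T) (hy : y ∈ K ⊓ T) :
    y * x * y⁻¹ * x⁻¹ ∈ K ⊓ T :=
  (K ⊓ T).mul_mem ((K ⊓ T).mul_mem ((K ⊓ T).mul_mem hy hx) ((K ⊓ T).inv_mem hy))
    ((K ⊓ T).inv_mem hx)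

end ImLAux

open ImLAux

theorem imp_level [Fact p.Prime] [CharP k p] [Fintype A] (h : UH N K c) (q : QT p N Q T)
    (hg : g ∈ K) (hw : UP N c g⁻¹ w w') {r : A} (hr : r ∈ K ⊓ T) (hrg : r * g⁻¹ ∈ N) :
    Imp (N ⊓ T) (cS Q c) r (single r 1 * cS Q w) := by
  have hgN := Subgroup.mem_normalizer_iff.1 (h.nm hg)
  have h1 : ∀ z, w.coeff z ≠ 0 → z * (r⁻¹)⁻¹ ∈ N := by
    intro z hz
    have h2 := hw.su z hz
    rw [inv_inv] at h2 ⊢
    have h3 : g⁻¹ * (r * g⁻¹) * g ∈ N := by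
      rw [hgN]
      have e : g * (g⁻¹ * (r * g⁻¹) * g) * g⁻¹ = r * g⁻¹ := by group
      rw [e]; exact hrg
    have h4 := N.mul_mem h2 h3
    have e : z * g * (g⁻¹ * (r * g⁻¹) * g) = z * r := by group
    rwa [e] at h4
  have h1' : ∀ z, w'.coeff z ≠ 0 → z * r⁻¹ ∈ N := by
    intro z hz
    have h2 := hw.sv z hz
    have h4 := N.mul_mem h2 (N.inv_mem hrg)
    have e : z * g⁻¹ * (r * g⁻¹)⁻¹ = z * r⁻¹ := by group
    rwa [e] at h4
  have hsg : single r⁻¹ (1 : k) * single r 1 = 1 := by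
    rw [single_mul_single, inv_mul_cancel, one_mul]; rfl
  refine ⟨?_, ?_, cS Q w' * single r⁻¹ 1, ?_, ?_, ?_⟩
  · intro z hz
    rw [coeff_single_mul_apply, one_mul] at hz
    have h2 := supp_cS_hom q (T.inv_mem hr.2) h1 _ hz
    rw [inv_inv] at h2
    have h3 := conj_memT h hr h2
    have e : r * (r⁻¹ * z * r) * r⁻¹ = z := by group
    rwa [e] at h3
  · intro z hz
    have h2 := cS_comm q hw.iu (sgl_supp (k := k) hz)
    rw [mul_assoc, ← h2, ← mul_assoc, ← mul_assoc, single_mul_single, single_mul_single]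
    congr 2
    group
  · intro z hz
    rw [coeff_mul_single_apply, mul_one, inv_inv] at hz
    have h2 := supp_cS_hom q hr.2 h1' _ hz
    rwa [mul_inv_cancel_right] at h2
  · have e : single r 1 * cS Q w * (cS Q w' * single r⁻¹ 1) = cj r (cS Q w * cS Q w') := by
      rw [cj]; simp only [mul_assoc]
    rw [e, ← cS_mul q hw.iu hw.iv, hw.uv, ← cS_cj q hr.2, invBy_iff_cj.1 h.inv r hr.1]
  · have e : cS Q w' * single r⁻¹ 1 * (single r 1 * cS Q w) =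
        cS Q w' * (single r⁻¹ 1 * single r 1) * cS Q w := by simp only [mul_assoc]
    rw [e, hsg, mul_one, ← cS_mul q hw.iv hw.iu, hw.vu]

theorem lvl_mul_right [Fact p.Prime] [CharP k p] [IsAlgClosed k] [Fintype A] (h : UH N K c)
    (q : QT p N Q T) (hg : g ∈ K) (hw : UP N c g⁻¹ w w') {x y t : A} (hx : x ∈ K ⊓ T)
    (hy : y ∈ K ⊓ T) (hxy : y * x * y⁻¹ * x⁻¹ * g⁻¹ ∈ N) (ht : t ∈ N ⊓ T)
    (a : IrX (N ⊓ T) (cS Q c)) :
    omwX (N ⊓ T) (cS Q c) a x (t * y) (single (t * y * x * (t * y)⁻¹ * x⁻¹) 1 * cS Q w) =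
      omwX (N ⊓ T) (cS Q c) a x y (single (y * x * y⁻¹ * x⁻¹) 1 * cS Q w) := by
  have he := imp_level h q hg hw (cm_mem T hx hy) hxy
  have h1 := omw_mul_right (irr_iff.1 (Quotient.out a).irr) (nrmT h hx) (nrmT h hy) ht he
    (act_iff.2 (Quotient.out a).blk)
  have ht' : x * t⁻¹ * x⁻¹ ∈ N ⊓ T := conj_memT h hx ((N ⊓ T).inv_mem ht)
  have h2 := cS_comm q hw.iu (sgl_supp (k := k) ht')
  have e : single t 1 * (single (y * x * y⁻¹ * x⁻¹) 1 * cS Q w) * single (x * t⁻¹ * x⁻¹) 1 =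
      single (t * y * x * (t * y)⁻¹ * x⁻¹) 1 * cS Q w := by
    rw [mul_assoc, mul_assoc, ← h2, ← mul_assoc, ← mul_assoc, single_mul_single,
      single_mul_single]
    congr 2
    · group
    · rw [one_mul, one_mul]
  rw [e] at h1
  exact h1

theorem lvl_mul_left [Fact p.Prime] [CharP k p] [IsAlgClosed k] [Fintype A] (h : UH N K c)
    (q : QT p N Q T) (hg : g ∈ K) (hw : UP N c g⁻¹ w w') {x y t : A} (hx : x ∈ K ⊓ T)
    (hy : y ∈ K ⊓ T) (hxy : y * x * y⁻¹ * x⁻¹ * g⁻¹ ∈ N) (ht : t ∈ N ⊓ T)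
    (a : IrX (N ⊓ T) (cS Q c)) :
    omwX (N ⊓ T) (cS Q c) a (t * x) y (single (y * (t * x) * y⁻¹ * (t * x)⁻¹) 1 * cS Q w) =
      omwX (N ⊓ T) (cS Q c) a x y (single (y * x * y⁻¹ * x⁻¹) 1 * cS Q w) := by
  have he := imp_level h q hg hw (cm_mem T hx hy) hxy
  have h1 := omw_mul_left (irr_iff.1 (Quotient.out a).irr) (nrmT h hx) (nrmT h hy) ht he
    (act_iff.2 (Quotient.out a).blk)
  have ht' : t⁻¹ ∈ N ⊓ T := (N ⊓ T).inv_mem ht
  have h2 := cS_comm q hw.iu (sgl_supp (k := k) ht')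
  have e : single (y * t * y⁻¹) 1 * (single (y * x * y⁻¹ * x⁻¹) 1 * cS Q w) * single t⁻¹ 1 =
      single (y * (t * x) * y⁻¹ * (t * x)⁻¹) 1 * cS Q w := by
    rw [mul_assoc (single (y * t * y⁻¹) (1 : k)),
      mul_assoc (single (y * x * y⁻¹ * x⁻¹) (1 : k)), ← h2, ← mul_assoc, ← mul_assoc,
      single_mul_single, single_mul_single]
    congr 2
    · group
    · rw [one_mul, one_mul]
  rw [e] at h1
  exact h1

open Classical in
theorem sum_lvl [Fact p.Prime] [CharP k p] [IsAlgClosed k] [Fintype A] (h : UH N K c)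
    (q : QT p N Q T) (hg : g ∈ K) (hw : UP N c g⁻¹ w w') {x y : A} (hx : x ∈ K ⊓ T)
    (hy : y ∈ K ⊓ T) (hxy : y * x * y⁻¹ * x⁻¹ * g⁻¹ ∈ N) :
    (∑ v ∈ (csF N y).filter (fun v => v ∈ T), ∑ᶠ a : IrX (N ⊓ T) (cS Q c),
        WittVector.teichmuller p (omwX (N ⊓ T) (cS Q c) a x v
          (single (v * x * v⁻¹ * x⁻¹) 1 * cS Q w))) =
      (Nat.card ↥(N ⊓ T) : WittVector p k) * ∑ᶠ a : IrX (N ⊓ T) (cS Q c),
        WittVector.teichmuller p (omwX (N ⊓ T) (cS Q c) a x y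
          (single (y * x * y⁻¹ * x⁻¹) 1 * cS Q w)) := by
  have h1 : ∀ v ∈ (csF N y).filter (fun v => v ∈ T), ∑ᶠ a : IrX (N ⊓ T) (cS Q c),
        WittVector.teichmuller p (omwX (N ⊓ T) (cS Q c) a x v
          (single (v * x * v⁻¹ * x⁻¹) 1 * cS Q w)) =
      ∑ᶠ a : IrX (N ⊓ T) (cS Q c), WittVector.teichmuller p (omwX (N ⊓ T) (cS Q c) a x y
          (single (y * x * y⁻¹ * x⁻¹) 1 * cS Q w)) := by
    intro v hv
    rw [Finset.mem_filter, mem_csF] at hv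
    have ht : v * y⁻¹ ∈ N ⊓ T := ⟨hv.1, T.mul_mem hv.2 (T.inv_mem hy.2)⟩
    have e : v * y⁻¹ * y = v := by group
    refine finsum_congr fun a => ?_
    have h2 := lvl_mul_right h q hg hw hx hy hxy ht a
    rw [e] at h2
    rw [h2]
  rw [Finset.sum_congr rfl h1, Finset.sum_const, nsmul_eq_mul]
  congr 2
  rw [Nat.card_eq_fintype_card, ← Finset.card_univ]
  symm
  refine Finset.card_bij (fun t _ => (t : A) * y) ?_ ?_ ?_
  · intro t _
    rw [Finset.mem_filter, mem_csF, mul_inv_cancel_right]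
    exact ⟨t.2.1, T.mul_mem t.2.2 hy.2⟩
  · intro t _ t' _ ht
    exact Subtype.ext (mul_right_cancel ht)
  · intro v hv
    rw [Finset.mem_filter, mem_csF] at hv
    exact ⟨⟨v * y⁻¹, hv.1, T.mul_mem hv.2 (T.inv_mem hy.2)⟩, Finset.mem_univ _, by
      change v * y⁻¹ * y = v
      group⟩

end Pool.Agent.Lib.P0c8ca5.Hh
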