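import Mathlib
import Pool.Agent.Lib.P0c8ca5H.LP
import Pool.Agent.Lib.P0c8ca5U.Kr
import Pool.Agent.Lib.P0c8ca5C.Eps

/-!
# Module Isot: subgroups on which the group acts by inner automorphisms

`Inn G N`: every element of `N` acts on `G` as an element of `G`.  Then a representation `ρ` of `N` restricts to `G` as a multiple of one irreducible
representation `σ`.  `Over hGN ρ σ` gives `π : V → S` nonzero with `π (ρ g v) = σ g (π v)`.

PROOF of `Inn.norm`.  `g x g⁻¹ = a x a⁻¹ ∈ G` for `x ∈ G`, and `g⁻¹ ∈ N` gives the converse (or use `Finite`).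
PROOF of `dec_inn`.  Let `S` be the set of the `g` with the property; it contains all `P j`: for `j ≠ i` take `a = 1` (`hd.comm`), for `j = i` take
`a = g`.  It is closed under products (`a b`, as `b x b⁻¹ ∈ P i`) and inverses (`g⁻¹`: from `g x' g⁻¹ = a x' a⁻¹` for `x' = a⁻¹ x a ∈ G` get
`g⁻¹ x g = a⁻¹ x a`), so it contains `N = ⨆ P j` (`hd.sup`; `Subgroup.iSup_induction` or define `S` as a subgroup and use `iSup_le`).
PROOF of `isot`.  (⇐, from `act ρ a = 0`): `π` is surjective (`Irr'.surjective` for `σ`), `σ(a) (π v) = π (ρ(a) v) = 0` (`act_over`).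
(⇒) Let `U` be the span of the `act ρ b v` with `SuppIn G b`, `act σ b = 0`, `v ∈ V`.  `U` is stable under `ρ g`, `g ∈ N`:
`ρ g (act ρ b v) = act ρ (cj g b) (ρ g v)` (compute with `act_mul` and `act ρ (single g 1) = ρ g`, or directly with sums), `SuppIn G (cj g b)` and
`act σ (cj g b) = 0`: with `a ∈ G` acting as `g` on `G` one has `cj g b = cj a b` (compare coefficients; `b` is supported in `G`) and
`act σ (cj a b) = σ a (act σ b) (σ a)⁻¹ = 0`.  `U ≤ ker π` as `π (act ρ b v) = act σ b (π v) = 0`, and `ker π ≠ ⊤`, so `U = ⊥` (`hρ.sub`); hence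
`act ρ a = 0`.
PROOF of `exists_phi`.  For `T` choose `b_T` with `SuppIn G b_T`, `act σ b_T = T` (`Un8.exists_act`) and put `φ T = act ρ b_T`.  If `SuppIn G b`,
`act σ b = T` then `act σ (b - b_T) = 0`, so `act ρ (b - b_T) = 0` by `isot`: `φ (act σ b) = act ρ b` for all `b` in `kG`.  Hence `φ` is additive,
multiplicative (`act_mul` for both; the inclusion `kG ⊂ kN`: `ha.mono hGN`), linear, and `φ 1 = 1` (`b = 1`, `Cy.EpsAux.act_one`).
PROOF of `under_unique`.  `under_conj hGN hn.norm` gives `n ∈ N` with `Iso (tw _ σ) σ'`; `n` acts on `G` as some `a ∈ G`, so `tw _ σ = tw (a) σ` (equality of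
functions: `tw_apply`, `cjN`), and `iso_tw_of_mem`.
PROOF of `over_of_eps`.  `exists_under hGN hρ` gives an irreducible `σ'` with `Over hGN ρ σ'`.  If `σ'` is not isomorphic to `σ` then `act σ' ε = 0`
(`hε.zero`), so `act ρ ε = 0` by `isot`, a contradiction.  So `Iso σ' σ` and `Over.congr_right`.
-/

set_option autoImplicit false

namespace Pool.Agent.Lib.P0c8ca5.Hh

open MonoidAlgebra

variable {p : ℕ} {k : Type*} [Field k] {A : Type*} [Group A] {G N : Subgroup A} {m l l' : ℕ}

/-- the elements of `N` act on `G` as elements of `G` -/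
def Inn (G N : Subgroup A) : Prop := ∀ g ∈ N, ∃ a ∈ G, ∀ x ∈ G, g * x * g⁻¹ = a * x * a⁻¹

namespace IsotAux

theorem act_cj [Finite A] {T : Subgroup A} {V : Type*} [AddCommGroup V] [Module k V]
    (ρ : Representation k T V) {g : A} (hg : g ∈ T) (a : MonoidAlgebra k A) (v : V) :
    act ρ (cj g a) (ρ ⟨g, hg⟩ v) = ρ ⟨g, hg⟩ (act ρ a v) := by
  have : Fintype T := Fintype.ofFinite T
  rw [act_apply, act_apply, map_sum]
  refine Fintype.sum_equiv (MulAut.conj (⟨g, hg⟩ : T)⁻¹).toEquiv _ _ (fun x => ?_)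
  change (cj g a).coeff (x : A) • ρ x (ρ ⟨g, hg⟩ v)
      = ρ ⟨g, hg⟩ (a.coeff (((⟨g, hg⟩ : T)⁻¹ * x * (⟨g, hg⟩ : T)⁻¹⁻¹ : T) : A)
        • ρ ((⟨g, hg⟩ : T)⁻¹ * x * (⟨g, hg⟩ : T)⁻¹⁻¹) v)
  rw [map_smul, coeff_cj, ← Module.End.mul_apply, ← Module.End.mul_apply, ← map_mul, ← map_mul]
  congr 1
  · congr 1
    simp
  · congr 2
    group

theorem act_smul [Finite A] {T : Subgroup A} {V : Type*} [AddCommGroup V] [Module k V]
    (ρ : Representation k T V) (c : k) (a : MonoidAlgebra k A) :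
    act ρ (c • a) = c • act ρ a := by
  have : Fintype T := Fintype.ofFinite T
  ext v
  rw [LinearMap.smul_apply, act_apply, act_apply, Finset.smul_sum]
  refine Finset.sum_congr rfl (fun x _ => ?_)
  rw [coeff_smul_apply, smul_eq_mul, mul_smul]

theorem act_zero [Finite A] {T : Subgroup A} {V : Type*} [AddCommGroup V] [Module k V]
    (ρ : Representation k T V) : act ρ (0 : MonoidAlgebra k A) = 0 := by
  rw [← zero_smul k (0 : MonoidAlgebra k A), act_smul, zero_smul]

theorem act_dif [Finite A] {T : Subgroup A} {V : Type*} [AddCommGroup V] [Module k V]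
    (ρ : Representation k T V) (a b : MonoidAlgebra k A) :
    act ρ (a + (-1 : k) • b) = 0 ↔ act ρ a = act ρ b := by
  rw [Un8.act_add', act_smul, neg_one_smul, add_neg_eq_zero]

theorem supp_smul {C : Subgroup A} {a : MonoidAlgebra k A} (c : k) (ha : SuppIn C a) :
    SuppIn C (c • a) := by
  intro x hx
  apply ha x
  intro h0
  apply hx
  rw [coeff_smul_apply, h0, smul_zero]

theorem supp_one {C : Subgroup A} : SuppIn C (1 : MonoidAlgebra k A) := by
  classical
  intro x hx
  rw [coeff_one'] at hx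
  by_cases h : x = 1
  · rw [h]
    exact C.one_mem
  · exact absurd (if_neg h) hx

/-- the elements that act on `G` as elements of `G` -/
def inS (G : Subgroup A) : Subgroup A where
  carrier := {g | ∃ a ∈ G, ∀ x ∈ G, g * x * g⁻¹ = a * x * a⁻¹}
  one_mem' := ⟨1, G.one_mem, fun x _ => rfl⟩
  mul_mem' := by
    rintro g h ⟨a, ha, ha'⟩ ⟨b, hb, hb'⟩
    refine ⟨a * b, G.mul_mem ha hb, fun x hx => ?_⟩
    have h1 : b * x * b⁻¹ ∈ G := G.mul_mem (G.mul_mem hb hx) (G.inv_mem hb)
    calc g * h * x * (g * h)⁻¹ = g * (h * x * h⁻¹) * g⁻¹ := by group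
      _ = g * (b * x * b⁻¹) * g⁻¹ := by rw [hb' x hx]
      _ = a * (b * x * b⁻¹) * a⁻¹ := ha' _ h1
      _ = a * b * x * (a * b)⁻¹ := by group
  inv_mem' := by
    rintro g ⟨a, ha, ha'⟩
    refine ⟨a⁻¹, G.inv_mem ha, fun x hx => ?_⟩
    have h1 := ha' (a⁻¹ * x * a) (G.mul_mem (G.mul_mem (G.inv_mem ha) hx) ha)
    have h2 : g * (a⁻¹ * x * a) * g⁻¹ = x := by
      rw [h1]
      group
    calc g⁻¹ * x * g⁻¹⁻¹ = g⁻¹ * (g * (a⁻¹ * x * a) * g⁻¹) * g := by rw [h2, inv_inv]
      _ = a⁻¹ * x * a⁻¹⁻¹ := by group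

end IsotAux

open IsotAux

theorem Inn.norm (h : Inn G N) : N ≤ Subgroup.normalizer (G : Set A) := by
  intro g hg
  rw [Subgroup.mem_normalizer_iff]
  intro x
  constructor
  · intro hx
    obtain ⟨a, ha, h1⟩ := h g hg
    rw [h1 x hx]
    exact G.mul_mem (G.mul_mem ha hx) (G.inv_mem ha)
  · intro hx
    obtain ⟨a, ha, h1⟩ := h g⁻¹ (N.inv_mem hg)
    have h2 := h1 _ hx
    have h3 : g⁻¹ * (g * x * g⁻¹) * g⁻¹⁻¹ = x := by group
    rw [h3] at h2
    rw [h2]
    exact G.mul_mem (G.mul_mem ha hx) (G.inv_mem ha)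

theorem dec_inn {Z N : Subgroup A} {ι : Type*} {P : ι → Subgroup A} (hd : Jj.Dec p Z N P)
    (i : ι) : Inn (P i) N := by
  have h1 : N ≤ inS (P i) := by
    rw [← hd.sup]
    refine iSup_le fun j g hg => ?_
    by_cases hij : j = i
    · subst hij
      exact ⟨g, hg, fun x _ => rfl⟩
    · refine ⟨1, (P i).one_mem, fun x hx => ?_⟩
      rw [hd.comm j i hij g hg x hx]
      group
  exact fun g hg => h1 hg

theorem isot [Finite A] (hGN : G ≤ N) (hn : Inn G N) {ρ : Rp k N m} {σ : Rp k G l}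
    (hρ : Irr' ρ) (hσ : Irr' σ) (ho : Over hGN ρ σ) {a : MonoidAlgebra k A} (ha : SuppIn G a) :
    act σ a = 0 ↔ act ρ a = 0 := by
  obtain ⟨π, h0, hπ⟩ := ho
  constructor
  · intro h1
    let U : Submodule k (Fin m → k) := Submodule.span k
      {w | ∃ b : MonoidAlgebra k A, SuppIn G b ∧ act σ b = 0 ∧ ∃ v, act ρ b v = w}
    have hU : ∀ g, ∀ w ∈ U, ρ g w ∈ U := by
      intro g w hw
      induction hw using Submodule.span_induction with
      | mem w hw =>
        obtain ⟨b, hb, hb0, v, rfl⟩ := hw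
        obtain ⟨c, hc, hcg⟩ := hn g g.2
        apply Submodule.subset_span
        refine ⟨cj (g : A) b, hb.cj (hn.norm g.2), ?_, ρ g v, act_cj ρ g.2 b v⟩
        have e : cj (g : A) b = cj c b := by
          ext x
          rw [coeff_cj, coeff_cj]
          by_cases hx : x ∈ G
          · have hy : c⁻¹ * x * c ∈ G := G.mul_mem (G.mul_mem (G.inv_mem hc) hx) hc
            have h2 := hcg _ hy
            congr 1
            calc (g : A)⁻¹ * x * g = (g : A)⁻¹ * (c * (c⁻¹ * x * c) * c⁻¹) * g := by group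
              _ = (g : A)⁻¹ * (g * (c⁻¹ * x * c) * (g : A)⁻¹) * g := by rw [h2]
              _ = c⁻¹ * x * c := by group
          · have h2 : b.coeff ((g : A)⁻¹ * x * g) = 0 := by
              by_contra h3
              apply hx
              have h4 := (Subgroup.mem_normalizer_iff.1 (hn.norm g.2) _).1 (hb _ h3)
              have h5 : (g : A) * ((g : A)⁻¹ * x * g) * (g : A)⁻¹ = x := by group
              rwa [h5] at h4
            have h3 : b.coeff (c⁻¹ * x * c) = 0 := by
              by_contra h3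
              apply hx
              have h4 := G.mul_mem (G.mul_mem hc (hb _ h3)) (G.inv_mem hc)
              have h5 : c * (c⁻¹ * x * c) * c⁻¹ = x := by group
              rwa [h5] at h4
            rw [h2, h3]
        rw [e]
        apply LinearMap.ext
        intro v
        have h2 : v = σ ⟨c, hc⟩ (σ (⟨c, hc⟩ : G)⁻¹ v) := by
          rw [← Module.End.mul_apply, ← map_mul, mul_inv_cancel, map_one]
          rfl
        rw [h2, act_cj σ hc, hb0, LinearMap.zero_apply, LinearMap.zero_apply, map_zero]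
      | zero => rw [map_zero]; exact U.zero_mem
      | add x y _ _ hx hy => rw [map_add]; exact U.add_mem hx hy
      | smul c x _ hx => rw [map_smul]; exact U.smul_mem c hx
    rcases hρ.sub U hU with h2 | h2
    · apply LinearMap.ext
      intro v
      have h3 : act ρ a v ∈ U := Submodule.subset_span ⟨a, ha, h1, v, rfl⟩
      rw [h2, Submodule.mem_bot] at h3
      exact h3
    · exfalso
      apply h0
      have h3 : U ≤ LinearMap.ker π := by
        apply Submodule.span_le.2
        rintro _ ⟨b, hb, hb0, v, rfl⟩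
        change π (act ρ b v) = 0
        rw [act_over hGN π hπ hb, hb0]
        rfl
      rw [h2, top_le_iff] at h3
      exact LinearMap.ker_eq_top.1 h3
  · intro h1
    have hsurj : Function.Surjective π := hσ.surjective π h0 (fun g v => ⟨_, hπ g v⟩)
    apply LinearMap.ext
    intro s
    obtain ⟨v, rfl⟩ := hsurj s
    rw [← act_over hGN π hπ ha, h1, LinearMap.zero_apply, LinearMap.zero_apply, map_zero]

/-- `ρ` restricted to `kG` factors through `σ` -/
theorem exists_phi [IsAlgClosed k] [Finite A] (hGN : G ≤ N) (hn : Inn G N) {ρ : Rp k N m}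
    {σ : Rp k G l} (hρ : Irr' ρ) (hσ : Irr' σ) (ho : Over hGN ρ σ) :
    ∃ φ : Module.End k (Fin l → k) →ₐ[k] Module.End k (Fin m → k),
      ∀ a : MonoidAlgebra k A, SuppIn G a → φ (act σ a) = act ρ a := by
  choose b hb1 hb2 using fun T : Module.End k (Fin l → k) => Un8.exists_act (A := A) hσ T
  have key : ∀ a a' : MonoidAlgebra k A, SuppIn G a → SuppIn G a' → act σ a = act σ a' →
      act ρ a = act ρ a' := by
    intro a a' ha ha' h
    have h1 : SuppIn G (a + (-1 : k) • a') := ha.add (supp_smul _ ha')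
    have h2 : act σ (a + (-1 : k) • a') = 0 := (act_dif σ a a').2 h
    exact (act_dif ρ a a').1 ((isot hGN hn hρ hσ ho h1).1 h2)
  have hfa : ∀ a : MonoidAlgebra k A, SuppIn G a → act ρ (b (act σ a)) = act ρ a :=
    fun a ha => key _ _ (hb1 _) ha (hb2 _)
  refine ⟨{ toFun := fun T => act ρ (b T), map_one' := ?_, map_mul' := ?_, map_zero' := ?_,
            map_add' := ?_, commutes' := ?_ }, hfa⟩
  · have h1 := hfa 1 supp_one
    rw [Cy.EpsAux.act_one, Cy.EpsAux.act_one] at h1
    exact h1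
  · intro S T
    have h1 : act σ (b S * b T) = S * T := by
      rw [act_mul σ (hb1 S)]
      exact congrArg₂ (· * ·) (hb2 S) (hb2 T)
    rw [← h1, hfa _ ((hb1 S).mul (hb1 T)), act_mul ρ ((hb1 S).mono hGN)]
  · have h1 := hfa 0 suppIn_zero
    rw [act_zero, act_zero] at h1
    exact h1
  · intro S T
    have h1 : act σ (b S + b T) = S + T := by
      rw [Un8.act_add']
      exact congrArg₂ (· + ·) (hb2 S) (hb2 T)
    rw [← h1, hfa _ ((hb1 S).add (hb1 T)), Un8.act_add']
  · intro c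
    have h1 := hfa (c • 1) (supp_smul c supp_one)
    rw [act_smul, act_smul, Cy.EpsAux.act_one, Cy.EpsAux.act_one] at h1
    exact h1

theorem under_unique [IsAlgClosed k] [Finite A] (hGN : G ≤ N) (hn : Inn G N) {ρ : Rp k N m}
    {σ : Rp k G l} {σ' : Rp k G l'} (hρ : Irr' ρ) (hσ : Irr' σ) (hσ' : Irr' σ')
    (ho : Over hGN ρ σ) (ho' : Over hGN ρ σ') : Iso σ σ' := by
  obtain ⟨n, hnN, h1⟩ := under_conj hGN hn.norm hρ hσ hσ' ho ho'
  obtain ⟨c, hc, hcn⟩ := hn n hnN
  have hc' : c ∈ Subgroup.normalizer (G : Set A) := Subgroup.le_normalizer hc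
  have e : tw (hn.norm hnN) σ = tw hc' σ := by
    apply MonoidHom.ext
    intro x
    rw [tw_apply, tw_apply]
    refine congrArg σ (Subtype.ext ?_)
    rw [coe_cjN, coe_cjN]
    have hy : c⁻¹ * (x : A) * c ∈ G := G.mul_mem (G.mul_mem (G.inv_mem hc) x.2) hc
    have h2 := hcn _ hy
    calc n⁻¹ * (x : A) * n = n⁻¹ * (c * (c⁻¹ * x * c) * c⁻¹) * n := by group
      _ = n⁻¹ * (n * (c⁻¹ * x * c) * n⁻¹) * n := by rw [h2]
      _ = c⁻¹ * x * c := by group
  rw [e] at h1
  exact (iso_tw_of_mem hc' hc σ).symm.trans h1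

theorem over_of_eps [IsAlgClosed k] [Finite A] (hGN : G ≤ N) (hn : Inn G N) {ρ : Rp k N m}
    {σ : Rp k G l} (hρ : Irr' ρ) (hσ : Irr' σ) {ε : MonoidAlgebra k A} (hε : Cy.IsEps G σ ε)
    (h : act ρ ε ≠ 0) : Over hGN ρ σ := by
  obtain ⟨n, σ', hσ', ho'⟩ := exists_under hGN hρ
  by_cases hi : Iso σ' σ
  · exact ho'.congr_right hi
  · exact absurd ((isot hGN hn hρ hσ' ho' hε.supp).1 (hε.zero σ' hσ' hi)) h

end Pool.Agent.Lib.P0c8ca5.Hh
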