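import Mathlib
import Pool.Agent.Lib.P0c8ca5H.Isot
import Pool.Agent.Lib.P0c8ca5H.Om

/-!
# Module TwS: twists between different subgroups, intertwiners of the factors

`twS u h σ` for `cg u P = Q`: the representation `z ↦ σ (u⁻¹ z u)` of `Q`.

PROOF of `irr_twS`, `iso_twS`.  The map `z ↦ u⁻¹ z u` from `Q` to `P` is surjective (as in `Irr'.tw`, `Iso.tw`).
PROOF of `twS_twS`.  Equality of homomorphisms: `u⁻¹ (u'⁻¹ z u') u = (u' u)⁻¹ z (u' u)`.  (If the equality of subgroups in the statement is inconvenient use `subst`.)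
PROOF of `act_twS`.  `act (twS u h σ) a = act σ (cj u⁻¹ a)`: reindex the sum over `Q` by `P` (`z = u w u⁻¹`), `(cj u⁻¹ a).coeff w = a.coeff (u w u⁻¹)` (`coeff_cj`).
PROOF of `over_twS_of_itw`.  `π' = π ∘ X⁻¹`: `X⁻¹ (ρ z v) = ρ (u⁻¹ z u) (X⁻¹ v)` for `z ∈ Q ≤ N`; `π' ≠ 0` as `X` is bijective.
PROOF of `over_tw_twS`.  The same `π`: `π (tw hN ρ z v) = π (ρ (u⁻¹ z u) v) = σ (u⁻¹ z u) (π v)`.
PROOF of `itw_of_iso_twS`.  `P : Iso (twS u h σ) σ` with `Q = P`: `P (σ (u⁻¹ z u) v) = σ z (P v)`; this is `Itw G σ u P` (replace `z` by `u g u⁻¹`).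
PROOF of `iso_twS_of_itw`.  Conversely, the same formula.
PROOF of `itw_under`.  `X` for `ρ`: `Over ρ (twS u h σ)` (`over_twS_of_itw`, `h : cg u G = G` from `hu`), so `Iso (twS u h σ) σ` (`under_unique`), `itw_of_iso_twS`.
PROOF of `Itw.pow`.  `X ^ j` (as `LinearEquiv`, or by recursion with `trans`) by induction, `Itw.mul` (G.OmA).
-/

set_option autoImplicit false

namespace Pool.Agent.Lib.P0c8ca5.Hh

open MonoidAlgebra Gg

variable {p : ℕ} {k : Type*} [Field k] {A : Type*} [Group A] {P Q R N G : Subgroup A} {d m : ℕ}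

/-- the homomorphism `z ↦ u⁻¹ z u` -/
def cjS {u : A} (h : cg u P = Q) : Q →* P where
  toFun z := ⟨u⁻¹ * z * u, by
    have h1 : (z : A) ∈ cg u P := h ▸ z.2
    rw [Jj.mem_cj] at h1
    exact h1⟩
  map_one' := Subtype.ext (by change u⁻¹ * 1 * u = 1; group)
  map_mul' x y := Subtype.ext (by
    change u⁻¹ * (x * y) * u = u⁻¹ * x * u * (u⁻¹ * y * u); group)

/-- the twist -/
def twS {u : A} (h : cg u P = Q) (σ : Rp k P d) : Rp k Q d := σ.comp (cjS h)

theorem twS_apply {u : A} (h : cg u P = Q) (σ : Rp k P d) (z : Q) :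
    twS h σ z = σ (cjS h z) := rfl

theorem coe_cjS {u : A} (h : cg u P = Q) (z : Q) : (cjS h z : A) = u⁻¹ * z * u := rfl

namespace TwSAux

theorem cjS_surj {u : A} (h : cg u P = Q) (x : P) : ∃ y, cjS h y = x := by
  have h1 : u * x * u⁻¹ ∈ Q := by
    rw [← h, Jj.mem_cj]
    have e : u⁻¹ * (u * x * u⁻¹) * u = x := by group
    rw [e]
    exact x.2
  refine ⟨⟨u * x * u⁻¹, h1⟩, ?_⟩
  apply Subtype.ext
  rw [coe_cjS]
  group

theorem cjS_inj {u : A} (h : cg u P = Q) : Function.Injective (cjS h) := by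
  intro x y hxy
  have h1 := congrArg (Subtype.val) hxy
  rw [coe_cjS, coe_cjS] at h1
  apply Subtype.ext
  exact mul_left_cancel (mul_right_cancel h1)

theorem cg_of_norm {u : A} (h : u ∈ Subgroup.normalizer (G : Set A)) : cg u G = G := by
  ext x
  rw [Jj.mem_cj]
  exact (Subgroup.mem_normalizer_iff''.1 h x).symm

end TwSAux

open TwSAux

theorem irr_twS {u : A} (h : cg u P = Q) {σ : Rp k P d} (hσ : Irr' σ) : Irr' (twS h σ) where
  nontriv := hσ.nontriv
  sub := fun W hW => hσ.sub W (fun g w hw => by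
    obtain ⟨y, rfl⟩ := cjS_surj h g
    exact hW y w hw)

theorem iso_twS {u : A} (h : cg u P = Q) {d' : ℕ} {σ : Rp k P d} {σ' : Rp k P d'}
    (hi : Iso σ σ') : Iso (twS h σ) (twS h σ') := by
  obtain ⟨T, hT⟩ := hi
  exact ⟨T, fun z v => hT (cjS h z) v⟩

theorem twS_twS {u u' : A} (h : cg u P = Q) (h' : cg u' Q = R) (h'' : cg (u' * u) P = R)
    (σ : Rp k P d) : twS h' (twS h σ) = twS h'' σ := by
  refine MonoidHom.ext fun z => ?_
  have e : cjS h (cjS h' z) = cjS h'' z := by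
    apply Subtype.ext
    rw [coe_cjS, coe_cjS, coe_cjS]
    group
  rw [twS_apply, twS_apply, twS_apply, e]

theorem act_twS [Finite A] {u : A} (h : cg u P = Q) (σ : Rp k P d) (a : MonoidAlgebra k A) :
    act (twS h σ) a = act σ (P0c8ca5.cj u⁻¹ a) := by
  classical
  have : Fintype P := Fintype.ofFinite P
  have : Fintype Q := Fintype.ofFinite Q
  apply LinearMap.ext
  intro v
  rw [act_apply, act_apply]
  refine Fintype.sum_bijective (cjS h) ⟨cjS_inj h, cjS_surj h⟩ _ _ fun z => ?_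
  rw [coeff_cj, coe_cjS, twS_apply]
  have e : u⁻¹⁻¹ * (u⁻¹ * z * u) * u⁻¹ = z := by group
  rw [e]

theorem over_twS_of_itw (hP : P ≤ N) (hQ : Q ≤ N) {u : A} (h : cg u P = Q) {ρ : Rp k N m}
    {σ : Rp k P d} (ho : Over hP ρ σ) {X : (Fin m → k) ≃ₗ[k] (Fin m → k)}
    (hu : u ∈ Subgroup.normalizer (N : Set A)) (hX : Itw N ρ u X) :
    Over hQ ρ (twS h σ) := by
  have _ := hu
  obtain ⟨π, h0, hπ⟩ := ho
  refine ⟨π ∘ₗ X.symm.toLinearMap, ?_, ?_⟩
  · intro h1
    apply h0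
    apply LinearMap.ext
    intro v
    have h2 := LinearMap.congr_fun h1 (X v)
    rw [LinearMap.comp_apply, LinearMap.zero_apply] at h2
    rw [LinearMap.zero_apply, ← h2]
    exact congrArg π (X.symm_apply_apply v).symm
  · intro z v
    show π (X.symm (ρ (Subgroup.inclusion hQ z) v)) = σ (cjS h z) (π (X.symm v))
    rw [← hπ]
    congr 1
    apply X.injective
    rw [LinearEquiv.apply_symm_apply, hX (Subgroup.inclusion hP (cjS h z))
      (Subgroup.inclusion hQ z), LinearEquiv.apply_symm_apply]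
    show (z : A) = u * (cjS h z : A) * u⁻¹
    rw [coe_cjS]
    group

theorem over_tw_twS (hP : P ≤ N) (hQ : Q ≤ N) {u : A} (h : cg u P = Q) {ρ : Rp k N m}
    {σ : Rp k P d} (ho : Over hP ρ σ) (hu : u ∈ Subgroup.normalizer (N : Set A)) :
    Over hQ (tw hu ρ) (twS h σ) := by
  obtain ⟨π, h0, hπ⟩ := ho
  refine ⟨π, h0, fun z v => ?_⟩
  have e : cjN hu (Subgroup.inclusion hQ z) = Subgroup.inclusion hP (cjS h z) := by
    apply Subtype.ext
    rw [coe_cjN]
    rfl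
  rw [tw_apply, e, hπ, twS_apply]

theorem itw_of_iso_twS {u : A} (h : cg u G = G) {σ : Rp k G d} (hi : Iso (twS h σ) σ) :
    ∃ X, Itw G σ u X := by
  obtain ⟨X, hX⟩ := hi
  refine ⟨X, fun g g' hg v => ?_⟩
  have e : cjS h g' = g := by
    apply Subtype.ext
    rw [coe_cjS, hg]
    group
  rw [← hX, twS_apply, e]

theorem iso_twS_of_itw {u : A} (h : cg u G = G) {σ : Rp k G d} (hX : ∃ X, Itw G σ u X) :
    Iso (twS h σ) σ := by
  obtain ⟨X, hX⟩ := hX
  refine ⟨X, fun z v => ?_⟩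
  rw [twS_apply]
  apply hX
  rw [coe_cjS]
  group

theorem itw_under [IsAlgClosed k] [Finite A] (hGN : G ≤ N) (hn : Inn G N) {ρ : Rp k N m}
    {σ : Rp k G d} (hρ : Irr' ρ) (hσ : Irr' σ) (ho : Over hGN ρ σ) {u : A}
    (hu : u ∈ Subgroup.normalizer (N : Set A)) (huG : u ∈ Subgroup.normalizer (G : Set A))
    (hX : ∃ X, Itw N ρ u X) : ∃ X, Itw G σ u X := by
  obtain ⟨X, hX⟩ := hX
  have h : cg u G = G := cg_of_norm huG
  have h1 := over_twS_of_itw hGN hGN h ho hu hX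
  exact itw_of_iso_twS h (under_unique hGN hn hρ (irr_twS h hσ) hσ h1 ho)

theorem itw_pow {ρ : Rp k N m} {u : A} (hu : u ∈ Subgroup.normalizer (N : Set A))
    (hX : ∃ X, Itw N ρ u X) (j : ℕ) : ∃ X, Itw N ρ (u ^ j) X := by
  obtain ⟨X, hX⟩ := hX
  induction j with
  | zero =>
    obtain ⟨Y, hY, _⟩ := itw_of_mem (ρ := ρ) N.one_mem
    rw [pow_zero]
    exact ⟨Y, hY⟩
  | succ j ih =>
    obtain ⟨Y, hY⟩ := ih
    rw [pow_succ]
    exact ⟨_, Itw.mul (Subgroup.pow_mem _ hu j) hu hY hX⟩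

end Pool.Agent.Lib.P0c8ca5.Hh
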