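import Mathlib
import Pool.Agent.Lib.P0c8ca5H.TwS
import Pool.Agent.Lib.P0c8ca5H.DecLp

/-!
# Module CoreN: the symbol of a product of representations

PROOF of `phi_commute`.  `φ i S = act ρ a`, `φ j T = act ρ b` with `SuppIn (P i) a`, `SuppIn (P j) b` (`Un8.exists_act` for `σ i`, `σ j`), `commute_factor`, `act_mul`.
PROOF of `exists_prod_itw`.  `L := lp (fun i => φ i (X i))`.  It is bijective: `lp (fun i => φ i (X i).symm)` is the inverse (`lp_mul` with `phi_commute`, `map_mul`, `lp_one`):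
`LinearEquiv.ofLinearMap`.  Intertwining: let `S` be the set of the `z ∈ N` with `L * ρ z = ρ (u z u⁻¹) * L`.  For `z ∈ P i`: `φ i (X i) * ρ z = φ i (X i * σ i z) =
φ i (σ i (u z u⁻¹) * X i) = ρ (u z u⁻¹) * φ i (X i)` (`ρ z = act ρ (single z 1) = φ i (act (σ i) (single z 1)) = φ i (σ i z)`), and the other factors commute with
`ρ z` and with `ρ (u z u⁻¹)`, which are in the image of `φ i`: use `lp_front` for `L = φ i (X i) * L'` (`L'` commutes with `φ i T`, `lp_commute`).
`S` is closed under products (and inverses, `Finite`), so it is `N = ⨆ P i`; or use `dec_exists_lp`: `z = lp g`, `ρ z = lp (ρ (g i)) = lp (φ i (σ i (g i)))`,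
`L * ρ z = lp (φ i (X i * σ i (g i)))` (`lp_mul`) `= lp (φ i (σ i (u (g i) u⁻¹) * X i)) = ρ (u z u⁻¹) * L` (`lp_conj`).
PROOF of `omw_lp`.  Case 1: all `σ i` have intertwiners `X i` of `u` and `Y i` of `v`.  `exists_omw` gives `t i` with `Y i (X i v) = t i • act (σ i) (e' i) (X i (Y i v))`.
Take `X`, `Y` from `exists_prod_itw`: as linear maps `Y * X = lp (φ i (Y i * X i)) = lp (t i • (φ i (act (σ i) (e' i)) * φ i (X i * Y i))) =
(∏ t i) • (lp (act ρ (e' i)) * lp (φ i (X i * Y i))) = (∏ t i) • act ρ (lp e') * (X * Y) = (s⁻¹ ∏ t i) • act ρ e * (X * Y)` (`lp_mul`, `lp_smul`; `lp (act ρ (e' i)) = act ρ (lp e')`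
by induction with `act_mul`, `supp (P i) ≤ N`).  So `Omw N ρ u v e (s⁻¹ ∏ t i)`; `act ρ e` is injective (it is `s • lp` of bijective maps), `Un8.omw_eq`; and `Un8.omw_eq` for the
factors (`Imp.inj`).
Case 2: some `σ i` has no intertwiner of `u` or of `v`.  Then `omw (P i) (σ i) u v (e' i) = 0` (`omw_spec`: otherwise there are intertwiners), so the product is `0`; and if
`omw N ρ u v e ≠ 0` then `ρ` has intertwiners of `u` and `v` (`omw_spec`), so by `itw_under` (`dec_inn`) `σ i` has them, a contradiction.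
-/

set_option autoImplicit false

namespace Pool.Agent.Lib.P0c8ca5.Hh

open MonoidAlgebra Gg Un8

variable {p : ℕ} {k : Type*} [Field k] {A : Type*} [Group A] {Z N : Subgroup A} {n m : ℕ}

namespace CoreNAux

theorem act_lp' [Finite A] (ρ : Rp k N m) {n : ℕ} {a : Fin n → MonoidAlgebra k A}
    (ha : ∀ i, SuppIn N (a i)) : act ρ (lp a) = lp (fun i => act ρ (a i)) := by
  induction n with
  | zero =>
    rw [lp_zero, lp_zero]
    exact Cy.DzAAux.act_one' ρ
  | succ n ih =>
    rw [lp_succ, lp_succ, act_mul ρ (ha 0), ih fun i => ha i.succ]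

theorem conj_mem {H : Subgroup A} {u : A} (hu : u ∈ Subgroup.normalizer (H : Set A)) {x : A}
    (hx : x ∈ H) : u * x * u⁻¹ ∈ H :=
  (Subgroup.mem_normalizer_iff.1 hu x).1 hx

end CoreNAux

open CoreNAux

theorem act_lp [Finite A] {P : Fin n → Subgroup A} (hd : Jj.Dec p Z N P) (ρ : Rp k N m)
    {a : Fin n → MonoidAlgebra k A} (ha : ∀ i, SuppIn (P i) (a i)) :
    act ρ (lp a) = lp (fun i => act ρ (a i)) :=
  act_lp' ρ fun i => (ha i).mono (hd.le' i)

theorem norm_of_factors [Finite A] {P : Fin n → Subgroup A} (hd : Jj.Dec p Z N P) {u : A}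
    (hu : ∀ i, u ∈ Subgroup.normalizer (P i : Set A)) :
    u ∈ Subgroup.normalizer (N : Set A) := by
  have key : ∀ w : A, (∀ i, w ∈ Subgroup.normalizer (P i : Set A)) → ∀ x ∈ N,
      w * x * w⁻¹ ∈ N := by
    intro w hw
    have h1 : N ≤ N.comap (MulAut.conj w).toMonoidHom := by
      conv_lhs => rw [← hd.sup]
      refine iSup_le fun i x hx => ?_
      rw [Subgroup.mem_comap]
      exact hd.le' i (conj_mem (hw i) hx)
    intro x hx
    exact h1 hx
  rw [Subgroup.mem_normalizer_iff]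
  intro x
  refine ⟨fun hx => key u hu x hx, fun hx => ?_⟩
  have h2 := key u⁻¹ (fun i => Subgroup.inv_mem _ (hu i)) _ hx
  have e : u⁻¹ * (u * x * u⁻¹) * u⁻¹⁻¹ = x := by group
  rwa [e] at h2

theorem phi_commute [IsAlgClosed k] [Finite A] {P : Fin n → Subgroup A} (hd : Jj.Dec p Z N P)
    {ρ : Rp k N m} {d : Fin n → ℕ} {σ : ∀ i, Rp k (P i) (d i)} (hσ : ∀ i, Irr' (σ i))
    {φ : ∀ i, Module.End k (Fin (d i) → k) →ₐ[k] Module.End k (Fin m → k)}
    (hφ : ∀ i a, SuppIn (P i) a → φ i (act (σ i) a) = act ρ a) (i j : Fin n) (hij : i ≠ j)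
    (S : Module.End k (Fin (d i) → k)) (T : Module.End k (Fin (d j) → k)) :
    Commute (φ i S) (φ j T) := by
  obtain ⟨a, ha, rfl⟩ := exists_act (hσ i) S
  obtain ⟨b, hb, rfl⟩ := exists_act (hσ j) T
  rw [hφ i a ha, hφ j b hb]
  change act ρ a * act ρ b = act ρ b * act ρ a
  rw [← act_mul ρ (ha.mono (hd.le' i)), ← act_mul ρ (hb.mono (hd.le' j)),
    (commute_factor hd hij ha hb).eq]

namespace CoreNAux

theorem rho_lp [IsAlgClosed k] [Finite A] {P : Fin n → Subgroup A}
    (hd : Jj.Dec p Z N P) {ρ : Rp k N m} {d : Fin n → ℕ} {σ : ∀ i, Rp k (P i) (d i)}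
    {φ : ∀ i, Module.End k (Fin (d i) → k) →ₐ[k] Module.End k (Fin m → k)}
    (hφ : ∀ i a, SuppIn (P i) a → φ i (act (σ i) a) = act ρ a) {γ : Fin n → A}
    (hγ : ∀ i, γ i ∈ P i) {g : N} (hg : (g : A) = lp γ) :
    ρ g = lp (fun i => φ i (σ i ⟨γ i, hγ i⟩)) := by
  have h1 : ρ g = act ρ (single (g : A) (1 : k)) := (act_sg (ρ := ρ) g.2).symm
  have h2 : single (g : A) (1 : k) = lp (fun i => single (γ i) (1 : k)) := by
    rw [hg]
    exact lp_map (MonoidAlgebra.of k A) γ
  have hs : ∀ i, SuppIn (P i) (single (γ i) (1 : k)) := by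
    intro i x hx
    have h3 : x = γ i := by
      by_contra h
      apply hx
      rw [coeff_single]
      exact Finsupp.single_eq_of_ne h
    rw [h3]
    exact hγ i
  rw [h1, h2, act_lp hd ρ hs]
  congr 1
  funext i
  rw [← hφ i _ (hs i), act_sg (hγ i)]

end CoreNAux

theorem exists_prod_itw [IsAlgClosed k] [Finite A] {P : Fin n → Subgroup A}
    (hd : Jj.Dec p Z N P) {ρ : Rp k N m} {d : Fin n → ℕ} {σ : ∀ i, Rp k (P i) (d i)}
    (hσ : ∀ i, Irr' (σ i))
    {φ : ∀ i, Module.End k (Fin (d i) → k) →ₐ[k] Module.End k (Fin m → k)}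
    (hφ : ∀ i a, SuppIn (P i) a → φ i (act (σ i) a) = act ρ a) {u : A}
    (hu : ∀ i, u ∈ Subgroup.normalizer (P i : Set A))
    {X : ∀ i, (Fin (d i) → k) ≃ₗ[k] (Fin (d i) → k)} (hX : ∀ i, Itw (P i) (σ i) u (X i)) :
    ∃ X' : (Fin m → k) ≃ₗ[k] (Fin m → k), Itw N ρ u X' ∧
      (X'.toLinearMap : Module.End k (Fin m → k)) =
        lp (fun i => φ i (X i).toLinearMap) := by
  have hc := phi_commute hd (ρ := ρ) hσ hφ
  set L : Module.End k (Fin m → k) := lp (fun i => φ i (X i).toLinearMap) with hL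
  set L' : Module.End k (Fin m → k) := lp (fun i => φ i (X i).symm.toLinearMap) with hL'
  have h1 : L * L' = 1 := by
    rw [hL, hL', ← lp_mul (fun i j hij => hc i j hij _ _)]
    have e : (fun i => φ i (X i).toLinearMap * φ i (X i).symm.toLinearMap) = fun _ => 1 := by
      funext i
      have e1 : ((X i).toLinearMap : Module.End k (Fin (d i) → k)) * (X i).symm.toLinearMap = 1 := by
        exact LinearMap.ext fun v => (X i).apply_symm_apply v
      rw [← map_mul, e1, map_one]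
    rw [e]
    exact lp_one
  have h2 : L' * L = 1 := by
    rw [hL, hL', ← lp_mul (fun i j hij => hc i j hij _ _)]
    have e : (fun i => φ i (X i).symm.toLinearMap * φ i (X i).toLinearMap) = fun _ => 1 := by
      funext i
      have e1 : ((X i).symm.toLinearMap : Module.End k (Fin (d i) → k)) * (X i).toLinearMap = 1 := by
        exact LinearMap.ext fun v => (X i).symm_apply_apply v
      rw [← map_mul, e1, map_one]
    rw [e]
    exact lp_one
  refine ⟨LinearEquiv.ofLinearMap L L' h1 h2, ?_, rfl⟩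
  intro g g' hg v
  obtain ⟨γ, hγ, hγg⟩ := dec_exists_lp hd g.2
  have hγ' : ∀ i, u * γ i * u⁻¹ ∈ P i := fun i => conj_mem (hu i) (hγ i)
  have hg' : (g' : A) = lp (fun i => u * γ i * u⁻¹) := by
    rw [hg, ← hγg, lp_conj]
  have e1 := rho_lp hd (ρ := ρ) hφ hγ hγg.symm
  have e2 := rho_lp hd (ρ := ρ) hφ hγ' hg'
  have e3 : L * ρ g = ρ g' * L := by
    rw [e1, e2, hL, ← lp_mul (fun i j hij => hc i j hij _ _),
      ← lp_mul (fun i j hij => hc i j hij _ _)]
    congr 1
    funext i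
    rw [← map_mul, ← map_mul]
    congr 1
    exact LinearMap.ext fun w => hX i ⟨γ i, hγ i⟩ ⟨u * γ i * u⁻¹, hγ' i⟩ rfl w
  exact congrArg (fun T : Module.End k (Fin m → k) => T v) e3

theorem omw_lp [Fact p.Prime] [CharP k p] [IsAlgClosed k] [Fintype A]
    {P : Fin n → Subgroup A} (hd : Jj.Dec p Z N P) {ρ : Rp k N m} (hρ : Irr' ρ)
    {d : Fin n → ℕ} {σ : ∀ i, Rp k (P i) (d i)} (hσ : ∀ i, Irr' (σ i))
    (ho : ∀ i, Over (hd.le' i) ρ (σ i)) {u v : A}
    (hu : ∀ i, u ∈ Subgroup.normalizer (P i : Set A))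
    (hv : ∀ i, v ∈ Subgroup.normalizer (P i : Set A)) {f : Fin n → MonoidAlgebra k A}
    (hf : ∀ i, act (σ i) (f i) = 1) {e : MonoidAlgebra k A} {e' : Fin n → MonoidAlgebra k A}
    (he : ∀ i, Imp (P i) (f i) (v * u * v⁻¹ * u⁻¹) (e' i)) {s : k} (hs : s ≠ 0)
    (hact : act ρ e = s • act ρ (lp e')) :
    omw N ρ u v e = s⁻¹ * ∏ i, omw (P i) (σ i) u v (e' i) := by
  have hun := norm_of_factors hd hu
  have hvn := norm_of_factors hd hv
  by_cases hall : ∀ i, (∃ X, Itw (P i) (σ i) u X) ∧ ∃ Y, Itw (P i) (σ i) v Y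
  · choose hXe hYe using hall
    choose X hX using hXe
    choose Y hY using hYe
    have ht := fun i => exists_omw (hσ i) (hu i) (hv i) (he i) (hf i) (hX i) (hY i)
    choose t ht0 ht1 using ht
    have hom : ∀ i, omw (P i) (σ i) u v (e' i) = t i := fun i =>
      Un8.omw_eq (hσ i) (hu i) (hv i) ((he i).inj (hf i)).1 ⟨X i, Y i, hX i, hY i, ht1 i⟩
    have hφe := fun i => exists_phi (hd.le' i) (dec_inn hd i) hρ (hσ i) (ho i)
    choose φ hφ using hφe
    have hc := phi_commute hd (ρ := ρ) hσ hφ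
    obtain ⟨X', hX', eX⟩ := exists_prod_itw hd (ρ := ρ) hσ hφ hu hX
    obtain ⟨Y', hY', eY⟩ := exists_prod_itw hd (ρ := ρ) hσ hφ hv hY
    have e1 : (Y'.toLinearMap : Module.End k (Fin m → k)) * X'.toLinearMap =
        (s⁻¹ * ∏ i, t i) • (act ρ e * (X'.toLinearMap * Y'.toLinearMap)) := by
      have e2 : act ρ e = s • lp (fun i => φ i (act (σ i) (e' i))) := by
        rw [hact, act_lp hd ρ fun i => (he i).supp]
        congr 2
        funext i
        rw [hφ i _ (he i).supp]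
      have e3 : lp (fun i => φ i (Y i).toLinearMap * φ i (X i).toLinearMap) =
          (∏ i, t i) • (lp (fun i => φ i (act (σ i) (e' i))) *
            lp (fun i => φ i (X i).toLinearMap * φ i (Y i).toLinearMap)) := by
        rw [← lp_mul (fun i j hij => (hc i j hij _ _).mul_right (hc i j hij _ _)), ← lp_smul]
        congr 1
        funext i
        rw [← map_mul, ← map_mul, ← map_mul, ← map_smul]
        congr 1
        exact LinearMap.ext fun w => ht1 i w
      rw [eX, eY, ← lp_mul (fun i j hij => hc i j hij _ _), e3, e2,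
        ← lp_mul (fun i j hij => hc i j hij _ _), smul_mul_assoc, smul_smul]
      congr 1
      field_simp
    have e4 : ∀ w, Y' (X' w) = (s⁻¹ * ∏ i, t i) • act ρ e (X' (Y' w)) := fun w =>
      congrArg (fun T : Module.End k (Fin m → k) => T w) e1
    have hinj : Function.Injective (act ρ e) := by
      intro a b hab
      have e5 : X' (Y' (Y'.symm (X'.symm a))) = a := by
        rw [Y'.apply_symm_apply, X'.apply_symm_apply]
      have e6 : X' (Y' (Y'.symm (X'.symm b))) = b := by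
        rw [Y'.apply_symm_apply, X'.apply_symm_apply]
      have h1 := e4 (Y'.symm (X'.symm a))
      have h2 := e4 (Y'.symm (X'.symm b))
      rw [e5] at h1
      rw [e6] at h2
      rw [hab, ← h2] at h1
      have h3 := X'.injective (Y'.injective h1)
      rw [← e5, h3, e6]
    rw [Un8.omw_eq hρ hun hvn hinj ⟨X', Y', hX', hY', e4⟩]
    simp only [hom]
  · push Not at hall
    obtain ⟨i, hi⟩ := hall
    have h0 : omw (P i) (σ i) u v (e' i) = 0 := by
      by_contra h
      obtain ⟨X, Y, hX, hY, -⟩ := omw_spec h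
      exact hi ⟨X, hX⟩ Y hY
    have h1 : omw N ρ u v e = 0 := by
      by_contra h
      obtain ⟨X, Y, hX, hY, -⟩ := omw_spec h
      have h2 := itw_under (hd.le' i) (dec_inn hd i) hρ (hσ i) (ho i) hun (hu i) ⟨X, hX⟩
      obtain ⟨Y2, hY2⟩ := itw_under (hd.le' i) (dec_inn hd i) hρ (hσ i) (ho i) hvn (hv i) ⟨Y, hY⟩
      exact hi h2 Y2 hY2
    rw [h1, Finset.prod_eq_zero (Finset.mem_univ i) h0, mul_zero]

end Pool.Agent.Lib.P0c8ca5.Hh
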