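import Mathlib
import Pool.Agent.Lib.P0c8ca5H.CoreN

/-!
# Module CoreS: the symbol of a representation of a product whose factors are permuted cyclically

`cg u (P i) = P (i + 1)` for `i : Fin q` (addition modulo `q`).

PROOF of `act_cj`.  If `X` is an intertwiner of `u` for `ρ` and `SuppIn N a` then `act ρ (cj u a) (X v) = X (act ρ a v)`: expand `act_apply`, reindex
(`(cj u a).coeff (u g u⁻¹) = a.coeff g`, `coeff_cj`).
PROOF of `cg_pow`.  Induction on `j`.

PROOF of `omw_shift`.  `u` normalizes `N` (`N = ⨆ P i`, the `P i` are permuted) and `u ^ q` normalizes `P 0` (`cg_pow`).  Put `et := lp (fun i => cj (u ^ i) (e' (-i)))`; it is in `k P 0`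
(the `i`-th factor is in `k (cg (u ^ i) (P (-i))) = k P 0`), and `Imp (P 0) f₀ ([v, u ^ q]) et` holds with a suitable idempotent; we only need: `act σ et` is bijective, and
`act σ et` implements `[v, u ^ q]` on `P 0`: both by induction from `he` (each `cj (u ^ i) (e' (-i))` implements the conjugation with `u^i [v, u] u^{-i}` on `P 0`, and
`[v, u] · u [v, u] u⁻¹ ⋯ u^{q-1} [v, u] u^{-(q-1)} = [v, u^q]`), as `act ρ (f i) = 1` gives `act ρ (e' i)` bijective, and `act σ a = 0 ↔ act ρ a = 0` on `k P 0` (`isot`).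
Let `X` be an intertwiner of `u` for `ρ`.  Then `σ` has an intertwiner `X₀` of `u ^ q` (`itw_pow`, `itw_under`).
Case 1: `σ` has an intertwiner `Y₀` of `v`.  By `exists_omw`-type uniqueness there is `t ≠ 0` with `Y₀ X₀ = t • act σ et * X₀ Y₀` (both sides are intertwiners of `v u ^ q = [v, u ^ q] u ^ q v`; `Gg.Itw.mul`,
`Gg.Itw.unique`).  Choose `y₀` with `SuppIn (P 0) y₀`, `act σ y₀ = Y₀` (`Un8.exists_act`), and define `y : ℕ → kA`, `y 0 = y₀`, `y (j + 1) = e' (j + 1) * cj u (y j)` (cast of `j + 1` to `Fin q`).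
 (a) `SuppIn (P j) (y j)` for `j < q`.  (b) `act ρ (y j)` is bijective.  (c) `act ρ (y j) * ρ z = ρ (v z v⁻¹) * act ρ (y j)` for `z ∈ P j`: for `j = 0` transport from `σ` with `φ` (`exists_phi`);
 step: `act ρ (cj u a) = X * act ρ a * X⁻¹` (`act_cj`), and `e' (j + 1)` implements `[v, u]` on `P (j + 1)`; `[v, u] u v u⁻¹ = v`.
 (d) `e' 0 * cj u (y (q - 1)) = et * cj (u ^ q) y₀` (unfold the recursion: `y j = e' j * cj u (e' (j - 1)) * ⋯ * cj (u ^ (j - 1)) (e' 1) * cj (u ^ j) y₀`, by induction as an `lp`), and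
 `act ρ y₀ = t • act ρ (et * cj (u ^ q) y₀)`: by `isot` it is enough to have this for `σ`: `Y₀ = t • act σ et * (X₀ Y₀ X₀⁻¹)`, `act σ (cj (u ^ q) y₀) = X₀ Y₀ X₀⁻¹` (`act_cj` for `σ`).
 (e) So for all `j : Fin q`: `act ρ (y j) = τ j • (act ρ (e' j) * act ρ (cj u (y (j - 1))))` with `τ 0 = t`, `τ j = 1` for `j ≠ 0` (`j - 1` in `Fin q`, `y (j - 1)` with the value).
Let `Y := act ρ (lp (fun j : Fin q => y j))`.  It is bijective and intertwines `v` (as in `exists_prod_itw`: by (c) and commutation on the `P j`, and `dec_exists_lp`).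
`Y = lp (act ρ (y j))` (`act_lp`) `= (∏ τ j) • lp (act ρ (e' j)) * lp (act ρ (cj u (y (j - 1))))` (`lp_mul`, `lp_smul`, the factors for different indices commute) and the last product is
`lp (act ρ (cj u (y j)))` by `lp_perm` (the terms commute), `= act ρ (cj u (lp y)) = X Y X⁻¹` (`lp_map`-like for `cj u`, `act_cj`).  So `Y X = t • act ρ (lp e') * X Y = (t s⁻¹) • act ρ e * X Y`:
`Omw N ρ u v e (s⁻¹ * t)`; `Un8.omw_eq` on both sides (`act ρ e = s • act ρ (lp e')` is injective).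
Case 2: `σ` has no intertwiner of `v`: `omw (P 0) σ .. = 0`; if `omw N ρ u v e ≠ 0` then `ρ` has one (`omw_spec`), so `σ` has one (`itw_under`), a contradiction.
You may split this into lemmas in the same file.
-/

set_option autoImplicit false

set_option linter.unusedSectionVars false

namespace Pool.Agent.Lib.P0c8ca5.Hh

open MonoidAlgebra Gg Un8

variable {p : ℕ} {k : Type*} [Field k] {A : Type*} [Group A] {Z N : Subgroup A} {m d q : ℕ}
  [NeZero q]

namespace CoreSAux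

theorem ofNat_succ' (j : ℕ) : Fin.ofNat q (j + 1) = Fin.ofNat q j + 1 := by
  apply Fin.ext
  rw [Fin.val_add, Fin.val_ofNat, Fin.val_ofNat, Fin.val_one']
  rw [Nat.mod_add_mod, Nat.add_mod_mod]

theorem ofNat_val' (i : Fin q) : Fin.ofNat q (i : ℕ) = i := by
  apply Fin.ext
  rw [Fin.val_ofNat]
  exact Nat.mod_eq_of_lt i.2

theorem ofNat_self' : Fin.ofNat q q = 0 := by
  apply Fin.ext
  rw [Fin.val_ofNat, Nat.mod_self, Fin.val_zero]

theorem ofNat_zero' : Fin.ofNat q 0 = 0 := by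
  apply Fin.ext
  rw [Fin.val_ofNat, Nat.zero_mod, Fin.val_zero]

theorem ofNat_add' (a b : ℕ) : Fin.ofNat q (a + b) = Fin.ofNat q a + Fin.ofNat q b := by
  apply Fin.ext
  rw [Fin.val_add, Fin.val_ofNat, Fin.val_ofNat, Fin.val_ofNat]
  rw [Nat.add_mod]

theorem ofNat_sub' {i : ℕ} (hi : i ≤ q) : Fin.ofNat q (q - i) = -Fin.ofNat q i := by
  have h := ofNat_add' (q := q) (q - i) i
  rw [Nat.sub_add_cancel hi, ofNat_self'] at h
  exact eq_neg_of_add_eq_zero_left h.symm

theorem mem_of_cg {u : A} {S T : Subgroup A} (h : cg u S = T) {z : A} (hz : z ∈ S) :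
    u * z * u⁻¹ ∈ T := by
  rw [← h, Jj.mem_cj]
  have e : u⁻¹ * (u * z * u⁻¹) * u = z := by group
  rwa [e]

theorem mem_of_cg' {u : A} {S T : Subgroup A} (h : cg u S = T) {z : A} (hz : z ∈ T) :
    u⁻¹ * z * u ∈ S := by
  rw [← h, Jj.mem_cj] at hz
  exact hz

theorem norm_of_cg {u : A} {S : Subgroup A} (h : cg u S = S) :
    u ∈ Subgroup.normalizer (S : Set A) := by
  rw [Subgroup.mem_normalizer_iff]
  intro z
  constructor
  · exact fun hz => mem_of_cg h hz
  · intro hz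
    have h1 := mem_of_cg' h hz
    have e : u⁻¹ * (u * z * u⁻¹) * u = z := by group
    rwa [e] at h1

theorem supp_cj {u : A} {S T : Subgroup A} (h : cg u S = T) {a : MonoidAlgebra k A}
    (ha : SuppIn S a) : SuppIn T (P0c8ca5.cj u a) := by
  intro x hx
  rw [coeff_cj] at hx
  have h1 := mem_of_cg h (ha _ hx)
  have e : u * (u⁻¹ * x * u) * u⁻¹ = x := by group
  rwa [e] at h1

theorem supp_sub {S : Subgroup A} {a b : MonoidAlgebra k A} (ha : SuppIn S a)
    (hb : SuppIn S b) : SuppIn S (a - b) := by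
  intro x hx
  by_contra hS
  apply hx
  have h1 : a.coeff x = 0 := by by_contra h; exact hS (ha x h)
  have h2 : b.coeff x = 0 := by by_contra h; exact hS (hb x h)
  rw [coeff_sub, Finsupp.sub_apply, h1, h2, sub_zero]

theorem supp_sg {S : Subgroup A} {z : A} (hz : z ∈ S) : SuppIn S (single z (1 : k)) := by
  classical
  intro x hx
  rw [coeff_single, Finsupp.single_apply] at hx
  by_cases h : z = x
  · rwa [← h]
  · rw [if_neg h] at hx
    exact absurd rfl hx

theorem supp_one' {S : Subgroup A} : SuppIn S (1 : MonoidAlgebra k A) :=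
  supp_sg S.one_mem

theorem supp_lp' {S : Subgroup A} {n : ℕ} {a : Fin n → MonoidAlgebra k A}
    (ha : ∀ i, SuppIn S (a i)) : SuppIn S (lp a) := by
  induction n with
  | zero => rw [lp_zero]; exact supp_one'
  | succ n ih => rw [lp_succ]; exact (ha 0).mul (ih fun i => ha i.succ)

theorem supp_smul {S : Subgroup A} {a : MonoidAlgebra k A} (ha : SuppIn S a) (c : k) :
    SuppIn S (c • a) := by
  intro x hx
  apply ha
  intro h
  apply hx
  rw [coeff_smul, Finsupp.smul_apply, h, smul_zero]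

theorem act_sub [Finite A] {S : Subgroup A} (ρ : Rp k S m) (a b : MonoidAlgebra k A) :
    act ρ (a - b) = act ρ a - act ρ b := by
  have h := act_add' ρ (a - b) b
  rw [sub_add_cancel] at h
  rw [h, add_sub_cancel_right]

theorem act_smul_k [Finite A] {S : Subgroup A} (ρ : Rp k S m) (c : k) (a : MonoidAlgebra k A) :
    act ρ (c • a) = c • act ρ a := by
  have : Fintype S := Fintype.ofFinite S
  apply LinearMap.ext
  intro v
  rw [LinearMap.smul_apply, act_apply, act_apply, Finset.smul_sum]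
  refine Finset.sum_congr rfl fun x _ => ?_
  rw [coeff_smul, Finsupp.smul_apply, smul_eq_mul, mul_smul]

theorem act_one1 [Finite A] {S : Subgroup A} (ρ : Rp k S m) :
    act ρ (1 : MonoidAlgebra k A) = 1 := Cy.EpsAux.act_one ρ

theorem cj_sg (u z : A) : P0c8ca5.cj u (single z (1 : k)) = single (u * z * u⁻¹) 1 := by
  rw [P0c8ca5.cj, single_mul_single, single_mul_single, one_mul, one_mul]

theorem cj_lp (u : A) {n : ℕ} (a : Fin n → MonoidAlgebra k A) :
    P0c8ca5.cj u (lp a) = lp (fun i => P0c8ca5.cj u (a i)) := by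
  induction n with
  | zero => rw [lp_zero, lp_zero, cj_one]
  | succ n ih => rw [lp_succ, lp_succ (fun i => P0c8ca5.cj u (a i)), cj_mul, ih]

theorem lp_unit {M : Type*} [Monoid M] {n : ℕ} {a : Fin n → M} (h : ∀ i, IsUnit (a i)) :
    IsUnit (lp a) := by
  induction n with
  | zero => rw [lp_zero]; exact isUnit_one
  | succ n ih => rw [lp_succ]; exact (h 0).mul (ih fun i => h i.succ)

theorem lp_cj' {M : Type*} [Monoid M] {x x' : M} (h : x * x' = 1) (h' : x' * x = 1) {n : ℕ}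
    (a : Fin n → M) : lp (fun i => x * a i * x') = x * lp a * x' := by
  induction n with
  | zero => rw [lp_zero, lp_zero, mul_one, h]
  | succ n ih =>
    rw [lp_succ, lp_succ a, ih]
    calc x * a 0 * x' * (x * lp (fun i : Fin n => a i.succ) * x')
        = x * a 0 * (x' * x) * lp (fun i : Fin n => a i.succ) * x' := by simp only [mul_assoc]
      _ = x * (a 0 * lp (fun i : Fin n => a i.succ)) * x' := by
          rw [h', mul_one]; simp only [mul_assoc]

end CoreSAux

open CoreSAux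

theorem act_cj [Finite A] {ρ : Rp k N m} {u : A} (hu : u ∈ Subgroup.normalizer (N : Set A))
    {X : (Fin m → k) ≃ₗ[k] (Fin m → k)} (hX : Itw N ρ u X) {a : MonoidAlgebra k A}
    (ha : SuppIn N a) (v : Fin m → k) : act ρ (P0c8ca5.cj u a) (X v) = X (act ρ a v) := by
  have _ := ha
  have : Fintype N := Fintype.ofFinite N
  rw [act_apply, act_apply, map_sum]
  have hbij : Function.Bijective (cjN hu) := by
    rw [Nat.bijective_iff_surjective_and_card]
    exact ⟨fun x => cjN_surj hu x, rfl⟩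
  refine Fintype.sum_bijective (cjN hu) hbij _ _ (fun x => ?_)
  rw [coeff_cj, coe_cjN, map_smul, hX (cjN hu x) x (by rw [coe_cjN]; group)]

theorem cg_pow {P : Fin q → Subgroup A} {u : A} (hsh : ∀ i, cg u (P i) = P (i + 1)) (j : ℕ)
    (i : Fin q) : cg (u ^ j) (P i) = P (i + Fin.ofNat q j) := by
  induction j with
  | zero => rw [pow_zero, Jj.cj_one, ofNat_zero', add_zero]
  | succ j ih => rw [pow_succ', Jj.cj_mul, ih, hsh, ofNat_succ', add_assoc]

theorem norm_of_shift {P : Fin q → Subgroup A} (hd : Jj.Dec p Z N P) {u : A}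
    (hsh : ∀ i, cg u (P i) = P (i + 1)) : u ∈ Subgroup.normalizer (N : Set A) := by
  apply norm_of_cg
  rw [← hd.sup]
  show Subgroup.map _ (⨆ i, P i) = _
  rw [Subgroup.map_iSup]
  have h1 : (⨆ i, Subgroup.map (MulAut.conj u).toMonoidHom (P i)) = ⨆ i, P (i + 1) :=
    iSup_congr hsh
  rw [h1]
  exact (Equiv.addRight (1 : Fin q)).iSup_comp (g := P)

namespace CoreSAux

section

variable [IsAlgClosed k] [Fintype A] {P : Fin q → Subgroup A}

/-- transport between `ρ` and `σ` -/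
theorem transp (hd : Jj.Dec p Z N P) {ρ : Rp k N m} (hρ : Irr' ρ) {σ : Rp k (P 0) d}
    (hσ : Irr' σ) (ho : Over (hd.le' 0) ρ σ) {a b : MonoidAlgebra k A} (ha : SuppIn (P 0) a)
    (hb : SuppIn (P 0) b) : act σ a = act σ b ↔ act ρ a = act ρ b := by
  have h := isot (hd.le' 0) (dec_inn hd 0) hρ hσ ho (supp_sub ha hb)
  rw [act_sub, act_sub, sub_eq_zero, sub_eq_zero] at h
  exact h

theorem comm_act (hd : Jj.Dec p Z N P) (ρ : Rp k N m) {i j : Fin q} (hij : i ≠ j)
    {a b : MonoidAlgebra k A} (ha : SuppIn (P i) a) (hb : SuppIn (P j) b) :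
    Commute (act ρ a) (act ρ b) := by
  show act ρ a * act ρ b = act ρ b * act ρ a
  rw [← act_mul ρ (ha.mono (hd.le' i)), ← act_mul ρ (hb.mono (hd.le' j)),
    (commute_factor hd hij ha hb).eq]

/-- `cj u` on the level of `ρ` -/
theorem act_cj_eq {N : Subgroup A} {ρ : Rp k N m} {u : A} (hu : u ∈ Subgroup.normalizer (N : Set A))
    {X : (Fin m → k) ≃ₗ[k] (Fin m → k)} (hX : Itw N ρ u X) {a : MonoidAlgebra k A}
    (ha : SuppIn N a) :
    act ρ (P0c8ca5.cj u a) =
      (X.toLinearMap : Module.End k (Fin m → k)) * act ρ a *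
        (X.symm.toLinearMap : Module.End k (Fin m → k)) := by
  apply LinearMap.ext
  intro v
  have h := act_cj hu hX ha (X.symm v)
  rw [LinearEquiv.apply_symm_apply] at h
  exact h

theorem x_mul_x' (X : (Fin m → k) ≃ₗ[k] (Fin m → k)) :
    (X.toLinearMap : Module.End k (Fin m → k)) *
      (X.symm.toLinearMap : Module.End k (Fin m → k)) = 1 :=
  LinearMap.ext fun v => X.apply_symm_apply v

theorem x'_mul_x (X : (Fin m → k) ≃ₗ[k] (Fin m → k)) :
    (X.symm.toLinearMap : Module.End k (Fin m → k)) *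
      (X.toLinearMap : Module.End k (Fin m → k)) = 1 :=
  LinearMap.ext fun v => X.symm_apply_apply v

end

end CoreSAux

namespace CoreSAux

section part2

variable {P : Fin q → Subgroup A}

/-- the partial products -/
noncomputable def pp (u : A) (e' : Fin q → MonoidAlgebra k A) (j : ℕ) : MonoidAlgebra k A :=
  lp (fun i : Fin j => P0c8ca5.cj (u ^ (i : ℕ)) (e' (-Fin.ofNat q i)))

theorem pp_q (u : A) (e' : Fin q → MonoidAlgebra k A) :
    lp (fun i : Fin q => P0c8ca5.cj (u ^ (i : ℕ)) (e' (-i))) = pp u e' q := by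
  rw [pp]
  congr 1
  funext i
  rw [ofNat_val']

theorem cg_pow0 {u : A} (hsh : ∀ i, cg u (P i) = P (i + 1)) (j : ℕ) :
    cg (u ^ j) (P (-Fin.ofNat q j)) = P 0 := by
  rw [cg_pow hsh, neg_add_cancel]

theorem norm_conj {S : Subgroup A} {v : A} (hv : v ∈ Subgroup.normalizer (S : Set A)) {z : A}
    (hz : z ∈ S) : v * z * v⁻¹ ∈ S := (Subgroup.mem_normalizer_iff.1 hv z).1 hz

theorem norm_conj' {S : Subgroup A} {v : A} (hv : v ∈ Subgroup.normalizer (S : Set A)) {z : A}
    (hz : z ∈ S) : v⁻¹ * z * v ∈ S := by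
  have h := norm_conj (Subgroup.inv_mem _ hv) hz
  rwa [inv_inv] at h

theorem comm_norm {u v : A} (hsh : ∀ i, cg u (P i) = P (i + 1))
    (hv : ∀ i, v ∈ Subgroup.normalizer (P i : Set A)) (i : Fin q) {z : A} (hz : z ∈ P i) :
    v * u * v⁻¹ * u⁻¹ * z * (v * u * v⁻¹ * u⁻¹)⁻¹ ∈ P i := by
  have h0 : cg u (P (i - 1)) = P i := by rw [hsh, sub_add_cancel]
  have h1 := mem_of_cg' h0 hz
  have h2 := norm_conj' (hv _) h1
  have h3 := mem_of_cg h0 h2
  have h4 := norm_conj (hv _) h3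
  have e : v * (u * (v⁻¹ * (u⁻¹ * z * u) * v) * u⁻¹) * v⁻¹
      = v * u * v⁻¹ * u⁻¹ * z * (v * u * v⁻¹ * u⁻¹)⁻¹ := by group
  rwa [e] at h4

theorem pp_comm {u v : A} (hsh : ∀ i, cg u (P i) = P (i + 1))
    (hv : ∀ i, v ∈ Subgroup.normalizer (P i : Set A)) {e' : Fin q → MonoidAlgebra k A}
    (hc : ∀ i, ∀ z ∈ P i, e' i * single z 1 =
      single (v * u * v⁻¹ * u⁻¹ * z * (v * u * v⁻¹ * u⁻¹)⁻¹) 1 * e' i) (j : ℕ) {z : A}
    (hz : z ∈ P 0) : pp u e' j * single z 1 =
      single (v * u ^ j * v⁻¹ * (u ^ j)⁻¹ * z * (v * u ^ j * v⁻¹ * (u ^ j)⁻¹)⁻¹) 1 *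
        pp u e' j := by
  induction j generalizing z with
  | zero =>
    rw [pp, lp_zero, one_mul, mul_one]
    congr 1
    rw [pow_zero]
    group
  | succ j ih =>
    have h1 : pp u e' (j + 1) = pp u e' j * P0c8ca5.cj (u ^ j) (e' (-Fin.ofNat q j)) := by
      rw [pp, lp_succ', pp]
      rfl
    have h2 : (u ^ j)⁻¹ * z * u ^ j ∈ P (-Fin.ofNat q j) := mem_of_cg' (cg_pow0 hsh j) hz
    have h3 := comm_norm hsh hv _ h2
    have h4 := mem_of_cg (cg_pow0 hsh j) h3
    have h5 : P0c8ca5.cj (u ^ j) (e' (-Fin.ofNat q j)) * single z 1 =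
        single (u ^ j * (v * u * v⁻¹ * u⁻¹ * ((u ^ j)⁻¹ * z * u ^ j) *
          (v * u * v⁻¹ * u⁻¹)⁻¹) * (u ^ j)⁻¹) 1 *
          P0c8ca5.cj (u ^ j) (e' (-Fin.ofNat q j)) := by
      have e0 : single z (1 : k) = P0c8ca5.cj (u ^ j) (single ((u ^ j)⁻¹ * z * u ^ j) 1) := by
        rw [cj_sg]
        congr 1
        group
      rw [e0, ← cj_mul, hc _ _ h2, cj_mul, cj_sg]
    rw [h1, mul_assoc, h5, ← mul_assoc, ih h4, mul_assoc]
    congr 2
    rw [pow_succ]
    group

theorem pp_supp {u : A} (hsh : ∀ i, cg u (P i) = P (i + 1)) {e' : Fin q → MonoidAlgebra k A}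
    (hs : ∀ i, SuppIn (P i) (e' i)) (j : ℕ) : SuppIn (P 0) (pp u e' j) :=
  supp_lp' fun i => supp_cj (cg_pow0 hsh i) (hs _)

/-- the sequence `y` -/
noncomputable def yy (u : A) (e' : Fin q → MonoidAlgebra k A) (y₀ : MonoidAlgebra k A) :
    ℕ → MonoidAlgebra k A
  | 0 => y₀
  | j + 1 => e' (Fin.ofNat q (j + 1)) * P0c8ca5.cj u (yy u e' y₀ j)

theorem yy_succ (u : A) (e' : Fin q → MonoidAlgebra k A) (y₀ : MonoidAlgebra k A) (j : ℕ) :
    yy u e' y₀ (j + 1) = e' (Fin.ofNat q (j + 1)) * P0c8ca5.cj u (yy u e' y₀ j) := rfl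

theorem yy_supp {u : A} (hsh : ∀ i, cg u (P i) = P (i + 1)) {e' : Fin q → MonoidAlgebra k A}
    (hs : ∀ i, SuppIn (P i) (e' i)) {y₀ : MonoidAlgebra k A} (h0 : SuppIn (P 0) y₀) (j : ℕ) :
    SuppIn (P (Fin.ofNat q j)) (yy u e' y₀ j) := by
  induction j with
  | zero => rw [ofNat_zero']; exact h0
  | succ j ih =>
    rw [yy_succ]
    refine (hs _).mul (supp_cj ?_ ih)
    rw [hsh, ofNat_succ']

theorem yy_eq (u : A) (e' : Fin q → MonoidAlgebra k A) (y₀ : MonoidAlgebra k A) (j : ℕ) :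
    yy u e' y₀ j = lp (fun i : Fin j => P0c8ca5.cj (u ^ (i : ℕ)) (e' (Fin.ofNat q (j - i)))) *
      P0c8ca5.cj (u ^ j) y₀ := by
  induction j with
  | zero => rw [lp_zero, pow_zero, P0c8ca5.cj_one_left, one_mul]; rfl
  | succ j ih =>
    rw [yy_succ, ih, lp_succ, cj_mul, cj_lp]
    have e1 : P0c8ca5.cj (u ^ ((0 : Fin (j + 1)) : ℕ))
        (e' (Fin.ofNat q (j + 1 - ((0 : Fin (j + 1)) : ℕ)))) = e' (Fin.ofNat q (j + 1)) := by
      rw [Fin.val_zero, pow_zero, P0c8ca5.cj_one_left, Nat.sub_zero]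
    have e2 : (fun i : Fin j => P0c8ca5.cj u
          (P0c8ca5.cj (u ^ (i : ℕ)) (e' (Fin.ofNat q (j - i))))) =
        fun i : Fin j => P0c8ca5.cj (u ^ ((i.succ : Fin (j + 1)) : ℕ))
          (e' (Fin.ofNat q (j + 1 - ((i.succ : Fin (j + 1)) : ℕ)))) := by
      funext i
      rw [P0c8ca5.cj_cj, Fin.val_succ, pow_succ', Nat.add_sub_add_right]
    rw [e1, e2, P0c8ca5.cj_cj, ← pow_succ', mul_assoc]

theorem yy_q (u : A) (e' : Fin q → MonoidAlgebra k A) (y₀ : MonoidAlgebra k A) :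
    yy u e' y₀ q = pp u e' q * P0c8ca5.cj (u ^ q) y₀ := by
  rw [yy_eq, pp]
  congr 2
  funext i
  rw [ofNat_sub' i.2.le]

end part2

section part3

variable [IsAlgClosed k] [Fintype A] {P : Fin q → Subgroup A}

theorem isUnit_sigma (hd : Jj.Dec p Z N P) {ρ : Rp k N m} (hρ : Irr' ρ) {σ : Rp k (P 0) d}
    (hσ : Irr' σ) (ho : Over (hd.le' 0) ρ σ) {a b : MonoidAlgebra k A} (ha : SuppIn (P 0) a)
    (hb : SuppIn (P 0) b) (h1 : act ρ (a * b) = 1) (h2 : act ρ (b * a) = 1) :
    IsUnit (act σ a) := by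
  refine ⟨⟨act σ a, act σ b, ?_, ?_⟩, rfl⟩
  · rw [← act_mul σ ha, ← act_one1 σ, transp hd hρ hσ ho (ha.mul hb) supp_one', act_one1]
    exact h1
  · rw [← act_mul σ hb, ← act_one1 σ, transp hd hρ hσ ho (hb.mul ha) supp_one', act_one1]
    exact h2

theorem isUnit_rho (hd : Jj.Dec p Z N P) {ρ : Rp k N m} (hρ : Irr' ρ) {σ : Rp k (P 0) d}
    (hσ : Irr' σ) (ho : Over (hd.le' 0) ρ σ) {a b : MonoidAlgebra k A} (ha : SuppIn (P 0) a)
    (hb : SuppIn (P 0) b) (h1 : act σ (a * b) = 1) (h2 : act σ (b * a) = 1) :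
    IsUnit (act ρ a) := by
  refine ⟨⟨act ρ a, act ρ b, ?_, ?_⟩, rfl⟩
  · rw [← act_mul ρ (ha.mono (hd.le' 0)), ← act_one1 ρ,
      ← transp hd hρ hσ ho (ha.mul hb) supp_one', act_one1]
    exact h1
  · rw [← act_mul ρ (hb.mono (hd.le' 0)), ← act_one1 ρ,
      ← transp hd hρ hσ ho (hb.mul ha) supp_one', act_one1]
    exact h2

theorem pp_unit (hd : Jj.Dec p Z N P) {u v : A} (hsh : ∀ i, cg u (P i) = P (i + 1))
    {ρ : Rp k N m} (hρ : Irr' ρ) (hX : ∃ X, Itw N ρ u X) {σ : Rp k (P 0) d} (hσ : Irr' σ)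
    (ho : Over (hd.le' 0) ρ σ) {f : Fin q → MonoidAlgebra k A} (hf : ∀ i, act ρ (f i) = 1)
    {e' : Fin q → MonoidAlgebra k A}
    (he : ∀ i, Imp (P i) (f i) (v * u * v⁻¹ * u⁻¹) (e' i)) (j : ℕ) :
    IsUnit (act σ (pp u e' j)) := by
  have hu : u ∈ Subgroup.normalizer (N : Set A) := norm_of_shift hd hsh
  induction j with
  | zero => rw [pp, lp_zero, act_one1]; exact isUnit_one
  | succ j ih =>
    have h1 : pp u e' (j + 1) = pp u e' j * P0c8ca5.cj (u ^ j) (e' (-Fin.ofNat q j)) := by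
      rw [pp, lp_succ', pp]
      rfl
    have hs := fun i => (he i).supp
    rw [h1, act_mul σ (pp_supp hsh hs j)]
    refine ih.mul ?_
    obtain ⟨e'', hs'', h2, h3⟩ := (he (-Fin.ofNat q j)).inv
    obtain ⟨Y, hY⟩ := itw_pow hu hX j
    have huj : u ^ j ∈ Subgroup.normalizer (N : Set A) := Subgroup.pow_mem _ hu j
    have hfs : SuppIn (P (-Fin.ofNat q j)) (f (-Fin.ofNat q j)) := by
      rw [← h2]
      exact (hs _).mul hs''
    have h4 : act ρ (P0c8ca5.cj (u ^ j) (f (-Fin.ofNat q j))) = 1 := by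
      rw [act_cj_eq huj hY (hfs.mono (hd.le' _)), hf, mul_one, x_mul_x']
    refine isUnit_sigma hd hρ hσ ho (supp_cj (cg_pow0 hsh j) (hs _))
      (supp_cj (cg_pow0 hsh j) hs'') ?_ ?_
    · rw [← cj_mul, h2, h4]
    · rw [← cj_mul, h3, h4]

end part3

end CoreSAux

theorem omw_shift [Fact p.Prime] [CharP k p] [IsAlgClosed k] [Fintype A]
    {P : Fin q → Subgroup A} (hd : Jj.Dec p Z N P) {u v : A}
    (hsh : ∀ i, cg u (P i) = P (i + 1)) (hv : ∀ i, v ∈ Subgroup.normalizer (P i : Set A))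
    {ρ : Rp k N m} (hρ : Irr' ρ) (hX : ∃ X, Itw N ρ u X) {σ : Rp k (P 0) d} (hσ : Irr' σ)
    (ho : Over (hd.le' 0) ρ σ) {f : Fin q → MonoidAlgebra k A} (hf : ∀ i, act ρ (f i) = 1)
    {e : MonoidAlgebra k A} {e' : Fin q → MonoidAlgebra k A}
    (he : ∀ i, Imp (P i) (f i) (v * u * v⁻¹ * u⁻¹) (e' i)) {s : k} (hs : s ≠ 0)
    (hact : act ρ e = s • act ρ (lp e')) :
    omw N ρ u v e = s⁻¹ * omw (P 0) σ (u ^ q) v
      (lp (fun i : Fin q => P0c8ca5.cj (u ^ (i : ℕ)) (e' (-i)))) := by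
  have hu : u ∈ Subgroup.normalizer (N : Set A) := norm_of_shift hd hsh
  have hvN : v ∈ Subgroup.normalizer (N : Set A) := norm_of_factors hd hv
  have hcg : cg (u ^ q) (P 0) = P 0 := by rw [cg_pow hsh, ofNat_self', add_zero]
  have hu0 : u ^ q ∈ Subgroup.normalizer (P 0 : Set A) := norm_of_cg hcg
  have huq : u ^ q ∈ Subgroup.normalizer (N : Set A) := Subgroup.pow_mem _ hu q
  rw [pp_q]
  by_cases hY : ∃ Y, Itw (P 0) σ v Y
  swap
  · -- no intertwiner of `v`
    have h1 : omw (P 0) σ (u ^ q) v (pp u e' q) = 0 := by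
      by_contra h
      obtain ⟨_, Y, _, hY', _⟩ := omw_spec h
      exact hY ⟨Y, hY'⟩
    have h2 : omw N ρ u v e = 0 := by
      by_contra h
      obtain ⟨_, Y, _, hY', _⟩ := omw_spec h
      exact hY (itw_under (hd.le' 0) (dec_inn hd 0) hρ hσ ho hvN (hv 0) ⟨Y, hY'⟩)
    rw [h1, h2, mul_zero]
  obtain ⟨Y₀, hY₀⟩ := hY
  obtain ⟨X₀, hX₀⟩ := itw_under (hd.le' 0) (dec_inn hd 0) hρ hσ ho huq hu0 (itw_pow hu hX q)
  have hsup := fun i => (he i).supp
  have hunit := pp_unit hd hsh hρ hX hσ ho hf he q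
  obtain ⟨X, hX⟩ := hX
  -- the scalar `t`
  have hbij : Function.Bijective (act σ (pp u e' q)) := (Module.End.isUnit_iff _).1 hunit
  obtain ⟨t, ht0, ht⟩ : ∃ t : k, t ≠ 0 ∧
      ∀ w, Y₀ (X₀ w) = t • act σ (pp u e' q) (X₀ (Y₀ w)) := by
    let S : (Fin d → k) ≃ₗ[k] (Fin d → k) := LinearEquiv.ofBijective (act σ (pp u e' q)) hbij
    have hSn : v * u ^ q * v⁻¹ * (u ^ q)⁻¹ ∈ Subgroup.normalizer (P 0 : Set A) :=
      Subgroup.mul_mem _ (Subgroup.mul_mem _ (Subgroup.mul_mem _ (hv 0) hu0)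
        (Subgroup.inv_mem _ (hv 0))) (Subgroup.inv_mem _ hu0)
    have hS : Itw (P 0) σ (v * u ^ q * v⁻¹ * (u ^ q)⁻¹) S := by
      intro g g' hg w
      show act σ (pp u e' q) (σ g w) = σ g' (act σ (pp u e' q) w)
      have h1 := pp_comm hsh hv (fun i => (he i).comm) q g.2
      rw [← hg] at h1
      have h2 := congrArg (act σ) h1
      rw [act_mul σ (pp_supp hsh hsup q), act_mul σ (supp_sg g'.2), act_sg g.2, act_sg g'.2] at h2
      exact LinearMap.congr_fun h2 w
    have h1 := Itw.mul hSn (Subgroup.mul_mem _ hu0 (hv 0)) hS (Itw.mul hu0 (hv 0) hX₀ hY₀)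
    have h2 := Itw.mul (hv 0) hu0 hY₀ hX₀
    have e1 : v * u ^ q * v⁻¹ * (u ^ q)⁻¹ * (u ^ q * v) = v * u ^ q := by group
    rw [e1] at h1
    obtain ⟨c, hc, h3⟩ := Itw.unique hσ (Subgroup.mul_mem _ (hv 0) hu0) h1 h2
    exact ⟨c, hc, h3⟩
  have hright : omw (P 0) σ (u ^ q) v (pp u e' q) = t :=
    omw_eq hσ hu0 (hv 0) hbij.1 ⟨X₀, Y₀, hX₀, hY₀, ht⟩
  rw [hright]
  obtain ⟨y₀, hy₀s, hy₀⟩ := exists_act hσ (Y₀.toLinearMap)
  obtain ⟨y₀', hy₀s', hy₀'⟩ := exists_act hσ (Y₀.symm.toLinearMap)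
  obtain ⟨x, hxdef⟩ : ∃ x : Module.End k (Fin m → k), x = X.toLinearMap := ⟨_, rfl⟩
  obtain ⟨x', hx'def⟩ : ∃ x' : Module.End k (Fin m → k), x' = X.symm.toLinearMap := ⟨_, rfl⟩
  have hxx' : x * x' = 1 := by rw [hxdef, hx'def]; exact x_mul_x' X
  have hx'x : x' * x = 1 := by rw [hxdef, hx'def]; exact x'_mul_x X
  have hcjx : ∀ a : MonoidAlgebra k A, SuppIn N a →
      act ρ (P0c8ca5.cj u a) = x * act ρ a * x' := by
    intro a ha
    rw [hxdef, hx'def]
    exact act_cj_eq hu hX ha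
  obtain ⟨T, hT⟩ : ∃ T : ℕ → Module.End k (Fin m → k), ∀ j, T j = act ρ (yy u e' y₀ j) :=
    ⟨_, fun _ => rfl⟩
  have hTs : ∀ j, SuppIn (P (Fin.ofNat q j)) (yy u e' y₀ j) := yy_supp hsh hsup hy₀s
  have hTN : ∀ j, SuppIn N (yy u e' y₀ j) := fun j => (hTs j).mono (hd.le' _)
  have hTsucc : ∀ j, T (j + 1) = act ρ (e' (Fin.ofNat q (j + 1))) * (x * T j * x') := by
    intro j
    rw [hT, hT, yy_succ, act_mul ρ ((hsup _).mono (hd.le' _)), hcjx _ (hTN j)]
  have hEu : ∀ i, IsUnit (act ρ (e' i)) := by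
    intro i
    obtain ⟨e'', hs'', h2, h3⟩ := (he i).inv
    refine ⟨⟨act ρ (e' i), act ρ e'', ?_, ?_⟩, rfl⟩
    · rw [← act_mul ρ ((hsup i).mono (hd.le' i)), h2, hf]
    · rw [← act_mul ρ (hs''.mono (hd.le' i)), h3, hf]
  have hTu : ∀ j, IsUnit (T j) := by
    intro j
    induction j with
    | zero =>
      rw [hT]
      show IsUnit (act ρ y₀)
      refine isUnit_rho hd hρ hσ ho hy₀s hy₀s' ?_ ?_
      · rw [act_mul σ hy₀s, hy₀, hy₀']
        exact x_mul_x' Y₀
      · rw [act_mul σ hy₀s', hy₀, hy₀']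
        exact x'_mul_x Y₀
    | succ j ih =>
      rw [hTsucc]
      refine (hEu _).mul ((IsUnit.mul ?_ ih).mul ?_)
      · exact ⟨⟨x, x', hxx', hx'x⟩, rfl⟩
      · exact ⟨⟨x', x, hx'x, hxx'⟩, rfl⟩
  -- conjugation by `u`
  have hxz : ∀ z ∈ N, x * act ρ (single z 1) = act ρ (single (u * z * u⁻¹) 1) * x := by
    intro z hz
    rw [← CoreSAux.cj_sg, hcjx _ (supp_sg hz), mul_assoc, hx'x, mul_one]
  have hEz : ∀ i, ∀ z ∈ P i, act ρ (e' i) * act ρ (single z 1) =
      act ρ (single (v * u * v⁻¹ * u⁻¹ * z * (v * u * v⁻¹ * u⁻¹)⁻¹) 1) * act ρ (e' i) := by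
    intro i z hz
    rw [← act_mul ρ ((hsup i).mono (hd.le' i)), (he i).comm z hz,
      act_mul ρ (supp_sg (hd.le' i (comm_norm hsh hv i hz)))]
  -- conjugation by `v`
  have hTc : ∀ j, ∀ z ∈ P (Fin.ofNat q j),
      T j * act ρ (single z 1) = act ρ (single (v * z * v⁻¹) 1) * T j := by
    intro j
    induction j with
    | zero =>
      intro z hz
      rw [ofNat_zero'] at hz
      have hz' := norm_conj (hv 0) hz
      rw [hT]
      show act ρ y₀ * _ = _ * act ρ y₀
      rw [← act_mul ρ (hy₀s.mono (hd.le' 0)), ← act_mul ρ (supp_sg (hd.le' 0 hz')),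
        ← transp hd hρ hσ ho (hy₀s.mul (supp_sg hz)) ((supp_sg hz').mul hy₀s), act_mul σ hy₀s,
        act_mul σ (supp_sg hz'), hy₀, act_sg hz, act_sg hz']
      exact LinearMap.ext fun w => hY₀ ⟨z, hz⟩ ⟨_, hz'⟩ rfl w
    | succ j ih =>
      intro z hz
      have hcgj : cg u (P (Fin.ofNat q j)) = P (Fin.ofNat q (j + 1)) := by
        rw [hsh, ofNat_succ']
      have h1 : u⁻¹ * z * u ∈ P (Fin.ofNat q j) := mem_of_cg' hcgj hz
      have h2 := norm_conj (hv _) h1
      have h3 := mem_of_cg hcgj h2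
      have e1 : u * (u⁻¹ * z * u) * u⁻¹ = z := by group
      have h4 : act ρ (single z 1) * x = x * act ρ (single (u⁻¹ * z * u) 1) := by
        rw [hxz _ (hd.le' _ h1), e1]
      have h5 := hxz _ (hd.le' _ h2)
      have h6 := hEz _ _ h3
      have e2 : v * u * v⁻¹ * u⁻¹ * (u * (v * (u⁻¹ * z * u) * v⁻¹) * u⁻¹) *
          (v * u * v⁻¹ * u⁻¹)⁻¹ = v * z * v⁻¹ := by group
      rw [e2] at h6
      rw [hTsucc]
      calc act ρ (e' (Fin.ofNat q (j + 1))) * (x * T j * x') * act ρ (single z 1)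
          = act ρ (e' (Fin.ofNat q (j + 1))) * (x * T j * x') *
              (act ρ (single z 1) * (x * x')) := by rw [hxx', mul_one]
        _ = act ρ (e' (Fin.ofNat q (j + 1))) * (x * T j * x') *
              ((act ρ (single z 1) * x) * x') := by rw [mul_assoc (act ρ (single z 1))]
        _ = act ρ (e' (Fin.ofNat q (j + 1))) * (x * T j * (x' * x) *
              act ρ (single (u⁻¹ * z * u) 1) * x') := by
            rw [h4]; simp only [mul_assoc]
        _ = act ρ (e' (Fin.ofNat q (j + 1))) * (x *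
              (T j * act ρ (single (u⁻¹ * z * u) 1)) * x') := by
            rw [hx'x, mul_one]; simp only [mul_assoc]
        _ = act ρ (e' (Fin.ofNat q (j + 1))) *
              ((x * act ρ (single (v * (u⁻¹ * z * u) * v⁻¹) 1)) * T j * x') := by
            rw [ih _ h1]; simp only [mul_assoc]
        _ = (act ρ (e' (Fin.ofNat q (j + 1))) *
              act ρ (single (u * (v * (u⁻¹ * z * u) * v⁻¹) * u⁻¹) 1)) * (x * T j * x') := by
            rw [h5]; simp only [mul_assoc]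
        _ = act ρ (single (v * z * v⁻¹) 1) *
              (act ρ (e' (Fin.ofNat q (j + 1))) * (x * T j * x')) := by
            rw [h6]; simp only [mul_assoc]
  -- the closing relation
  have h0q : T 0 = t • T q := by
    rw [hT, hT, yy_q]
    show act ρ y₀ = _
    have hcs : SuppIn (P 0) (pp u e' q * P0c8ca5.cj (u ^ q) y₀) :=
      (pp_supp hsh hsup q).mul (supp_cj hcg hy₀s)
    rw [← act_smul_k, ← transp hd hρ hσ ho hy₀s (supp_smul hcs t), act_smul_k,
      act_mul σ (pp_supp hsh hsup q), act_cj_eq hu0 hX₀ hy₀s, hy₀]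
    apply LinearMap.ext
    intro w
    show Y₀ w = t • act σ (pp u e' q) (X₀ (Y₀ (X₀.symm w)))
    rw [← ht, LinearEquiv.apply_symm_apply]
  have hTf : ∀ j : Fin q, T j = (if j = 0 then t else 1) •
      (act ρ (e' j) * (x * T ((j - 1 : Fin q) : ℕ) * x')) := by
    intro j
    have h1 : Fin.ofNat q (((j - 1 : Fin q) : ℕ) + 1) = j := by
      rw [ofNat_succ', ofNat_val', sub_add_cancel]
    have h2 := hTsucc ((j - 1 : Fin q) : ℕ)
    rw [h1] at h2
    rw [← h2]
    rcases Nat.lt_or_ge (((j - 1 : Fin q) : ℕ) + 1) q with h3 | h3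
    · have h4 : (j : ℕ) = ((j - 1 : Fin q) : ℕ) + 1 := by
        have h5 := congrArg Fin.val h1
        rw [Fin.val_ofNat, Nat.mod_eq_of_lt h3] at h5
        exact h5.symm
      have h5 : j ≠ 0 := by
        intro h
        have h6 := congrArg Fin.val h
        rw [Fin.val_zero, h4] at h6
        omega
      rw [if_neg h5, one_smul, ← h4]
    · have h4 : ((j - 1 : Fin q) : ℕ) + 1 = q := le_antisymm (j - 1).2 h3
      have h5 : j = 0 := by
        rw [← h1, h4, ofNat_self']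
      rw [h4, if_pos h5, h5, Fin.val_zero]
      exact h0q
  have hTs' : ∀ j : Fin q, SuppIn (P j) (yy u e' y₀ j) := by
    intro j
    have h := hTs j
    rwa [ofNat_val'] at h
  have hTcomm : ∀ i j : Fin q, i ≠ j → Commute (T i) (T j) := by
    intro i j hij
    rw [hT, hT]
    exact comm_act hd ρ hij (hTs' i) (hTs' j)
  obtain ⟨Y, hYdef⟩ : ∃ Y : Module.End k (Fin m → k), Y = lp (fun j : Fin q => T j) := ⟨_, rfl⟩
  have hYu : IsUnit Y := by
    rw [hYdef]
    exact lp_unit fun j => hTu j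
  have hYz : ∀ z ∈ N, Y * act ρ (single z 1) = act ρ (single (v * z * v⁻¹) 1) * Y := by
    have key : ∀ z ∈ ⨆ i, P i, z ∈ N ∧
        Y * act ρ (single z 1) = act ρ (single (v * z * v⁻¹) 1) * Y := by
      intro z hz
      refine Subgroup.iSup_induction P (C := fun z => z ∈ N ∧
        Y * act ρ (single z 1) = act ρ (single (v * z * v⁻¹) 1) * Y) hz ?_ ?_ ?_
      · intro i z hz
        refine ⟨hd.le' i hz, ?_⟩
        have hz' := norm_conj (hv i) hz
        have h1 : Y = T i * lp (fun j : Fin q => if j = i then 1 else T j) := by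
          rw [hYdef]
          exact lp_front hTcomm i
        have h2 : Commute (act ρ (single z 1))
            (lp (fun j : Fin q => if j = i then 1 else T j)) := by
          refine lp_commute fun j => ?_
          by_cases hj : j = i
          · rw [if_pos hj]; exact Commute.one_right _
          · rw [if_neg hj, hT]
            exact comm_act hd ρ (Ne.symm hj) (supp_sg hz) (hTs' j)
        have h3 := hTc i z (by rw [ofNat_val']; exact hz)
        rw [h1, mul_assoc, ← h2.eq, ← mul_assoc, h3, mul_assoc]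
      · refine ⟨N.one_mem, ?_⟩
        have e1 : v * 1 * v⁻¹ = 1 := by group
        have e2 : act ρ (single (1 : A) (1 : k)) = 1 := act_one1 ρ
        rw [e1, e2, one_mul, mul_one]
      · rintro a b ⟨ha, ha'⟩ ⟨hb, hb'⟩
        refine ⟨N.mul_mem ha hb, ?_⟩
        have e1 : single (a * b) (1 : k) = single a 1 * single b 1 := by
          rw [single_mul_single, one_mul]
        have e2 : single (v * (a * b) * v⁻¹) (1 : k) =
            single (v * a * v⁻¹) 1 * single (v * b * v⁻¹) 1 := by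
          rw [single_mul_single, one_mul]
          congr 1
          group
        have e3 : act ρ (single (a * b) (1 : k)) = act ρ (single a 1) * act ρ (single b 1) := by
          rw [e1, act_mul ρ (supp_sg ha)]
        have e4 : act ρ (single (v * (a * b) * v⁻¹) (1 : k)) =
            act ρ (single (v * a * v⁻¹) 1) * act ρ (single (v * b * v⁻¹) 1) := by
          rw [e2, act_mul ρ (supp_sg (norm_conj hvN ha))]
        rw [e3, e4, ← mul_assoc, ha', mul_assoc _ Y, hb', ← mul_assoc]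
    intro z hz
    rw [← hd.sup] at hz
    exact (key z hz).2
  have hYitw : Itw N ρ v (LinearEquiv.ofBijective Y ((Module.End.isUnit_iff _).1 hYu)) := by
    intro g g' hg w
    show Y (ρ g w) = ρ g' (Y w)
    have h1 := hYz g g.2
    rw [← hg, act_sg g.2, act_sg g'.2] at h1
    exact LinearMap.congr_fun h1 w
  -- the main identity
  have hlp : act ρ (lp e') = lp (fun i => act ρ (e' i)) := act_lp hd ρ hsup
  have hmain : Y = t • (act ρ (lp e') * (x * Y * x')) := by
    have h1 : Y = lp (fun j : Fin q => (if j = 0 then t else 1) •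
        (act ρ (e' j) * (x * T ((j - 1 : Fin q) : ℕ) * x'))) := by
      rw [hYdef]
      congr 1
      funext j
      exact hTf j
    have h2 : ∏ j : Fin q, (if j = 0 then t else 1) = t := by
      rw [Finset.prod_ite_eq' Finset.univ (0 : Fin q) (fun _ => t), if_pos (Finset.mem_univ _)]
    have h3 : lp (fun j : Fin q => act ρ (e' j) * (x * T ((j - 1 : Fin q) : ℕ) * x')) =
        lp (fun j => act ρ (e' j)) *
          lp (fun j : Fin q => x * T ((j - 1 : Fin q) : ℕ) * x') := by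
      refine lp_mul fun i j hij => ?_
      rw [hT, ← hcjx _ (hTN _)]
      refine comm_act hd ρ hij (hsup i) (supp_cj ?_ (hTs' _))
      rw [hsh, sub_add_cancel]
    have h4 : lp (fun j : Fin q => T ((j - 1 : Fin q) : ℕ)) = Y := by
      rw [hYdef]
      exact lp_perm hTcomm (Equiv.subRight (1 : Fin q))
    rw [lp_smul, h2, h3, lp_cj' hxx' hx'x (fun j : Fin q => T ((j - 1 : Fin q) : ℕ)), h4,
      ← hlp] at h1
    exact h1
  have hlpu : IsUnit (act ρ (lp e')) := by
    rw [hlp]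
    exact lp_unit hEu
  have hinj : Function.Injective (act ρ e) := by
    rw [hact]
    intro a b hab
    apply ((Module.End.isUnit_iff _).1 hlpu).1
    have h1 : s • act ρ (lp e') a = s • act ρ (lp e') b := hab
    exact smul_right_injective _ hs h1
  refine omw_eq hρ hu hvN hinj ⟨X, _, hX, hYitw, fun w => ?_⟩
  show Y (X w) = (s⁻¹ * t) • act ρ e (X (Y w))
  have h1 : Y * x = t • (act ρ (lp e') * (x * Y)) := by
    calc Y * x = t • (act ρ (lp e') * (x * Y * x')) * x := by rw [← hmain]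
      _ = t • (act ρ (lp e') * (x * Y * (x' * x))) := by
          rw [smul_mul_assoc]; simp only [mul_assoc]
      _ = t • (act ρ (lp e') * (x * Y)) := by rw [hx'x, mul_one]
  have h2 := LinearMap.congr_fun h1 w
  rw [hxdef] at h2
  have h3 : Y (X w) = t • act ρ (lp e') (X (Y w)) := h2
  rw [h3, hact, LinearMap.smul_apply, smul_smul, mul_assoc, mul_comm t s, ← mul_assoc,
    inv_mul_cancel₀ hs, one_mul]

end Pool.Agent.Lib.P0c8ca5.Hh
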