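import Mathlib
import Pool.Agent.Lib.P0c8ca5H.Defs
import Pool.Agent.Lib.P0c8ca5C.Eps

/-!
# Module NilA: an element that is not nilpotent acts nontrivially on some irreducible representation

PROOF of `exists_act_ne`.  Suppose that `act ρ a = 0` for all irreducible `ρ : Rp k N m`.
Claim: for every finite dimensional representation `T` of `N` (`T : Representation k N V`, `V : Type*` in the universe of `k` or of `A`: take the submodules of
the regular representation, see below) there is `n` with `act T a ^ n = 0`.
Strong induction on `finrank k V`.  If `V` is trivial take `n = 0` or `1`.  Otherwise `exists_irr_quot T` (P0c8ca5.Rep) gives a stable submodule `W` with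
`quotRep T W hW` irreducible; by `EpsAux.exists_coord` it is isomorphic to some `τ : Rp k N m`, `act τ a = 0`, so `act (quotRep T W hW) a = 0`
(`EpsAux.act_zero_iso`), so `act T a v ∈ W` for all `v` (the quotient map is equivariant: `Un8.act_hom` or `act_over` with `G = N`, or a direct sum
computation).  `W ≠ ⊤`, so `finrank W < finrank V`, and by induction `act (subRep T W hW) a ^ n = 0`, so `act T a ^ (n + 1) = 0`
(`act (subRep T W hW) a w = act T a w` for `w ∈ W`: the inclusion is equivariant).
Apply this to the regular representation: `V = MonoidAlgebra k N` or `V = (N → k)` or the space of the elements of `kA` supported in `N`, with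
`T g u = single g 1 * u`; there `act T a u = a * u` (for `a` supported in `N`), so `a ^ n = (act T a ^ n) 1 = 0`.
To stay in one universe it is enough to do the induction for submodules `W` of the regular representation that are stable: claim(W): exists `n` with
`a ^ n * w = 0` for all `w ∈ W`.
-/

set_option autoImplicit false

namespace Pool.Agent.Lib.P0c8ca5.Hh

open MonoidAlgebra

variable {k : Type*} [Field k] {A : Type*} [Group A] {N : Subgroup A}

namespace NilAAux

/-- a map that commutes with the group commutes with the group algebra -/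
theorem act_hom [Finite A] {V V' : Type*} [AddCommGroup V] [Module k V]
    [AddCommGroup V'] [Module k V'] {ρ : Representation k N V} {ρ' : Representation k N V'}
    {T : V →ₗ[k] V'} (hT : ∀ g v, T (ρ g v) = ρ' g (T v)) (u : MonoidAlgebra k A) (v : V) :
    T (act ρ u v) = act ρ' u (T v) := by
  have : Fintype N := Fintype.ofFinite N
  rw [act_apply, act_apply, map_sum]
  refine Finset.sum_congr rfl fun x _ => ?_
  rw [map_smul, hT]

/-- the restriction of a power of the action to a stable submodule -/
theorem sub_pow [Finite A] {V : Type*} [AddCommGroup V] [Module k V]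
    (T : Representation k N V) (W : Submodule k V) (hW : ∀ g, ∀ w ∈ W, T g w ∈ W)
    (a : MonoidAlgebra k A) (r : ℕ) (w : W) :
    W.subtype ((act (subRep T W hW) a ^ r) w) = (act T a ^ r) (w : V) := by
  induction r with
  | zero => rfl
  | succ r ih =>
    rw [pow_succ', pow_succ', Module.End.mul_apply, Module.End.mul_apply, ← ih]
    exact act_hom (ρ := subRep T W hW) (ρ' := T) (T := W.subtype) (fun g v => rfl) a _

theorem nil_rep.{u} [Finite A] {a : MonoidAlgebra k A}
    (h : ∀ (m : ℕ) (ρ : Rp k N m), Irr' ρ → act ρ a = 0) (n : ℕ) :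
    ∀ (V : Type u) [AddCommGroup V] [Module k V] [Module.Finite k V]
      (T : Representation k N V), Module.finrank k V ≤ n → ∃ r, act T a ^ r = 0 := by
  induction n with
  | zero =>
    intro V _ _ _ T hV
    have h1 : Module.finrank k V = 0 := Nat.le_zero.1 hV
    have h2 : Subsingleton V := Module.finrank_zero_iff.1 h1
    exact ⟨0, LinearMap.ext fun v => Subsingleton.elim _ _⟩
  | succ n ih =>
    intro V _ _ _ T hV
    rcases subsingleton_or_nontrivial V with h2 | h2
    · exact ⟨0, LinearMap.ext fun v => Subsingleton.elim _ _⟩
    · obtain ⟨W, hW, hirr⟩ := exists_irr_quot T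
      obtain ⟨m, τ, hτ, hiso⟩ := Cy.EpsAux.exists_coord hirr
      have h3 : act (quotRep T W hW) a = 0 := Cy.EpsAux.act_zero_iso hiso (h m τ hτ)
      have h4 : ∀ v, act T a v ∈ W := by
        intro v
        have h5 : W.mkQ (act T a v) = act (quotRep T W hW) a (W.mkQ v) :=
          act_hom (ρ := T) (ρ' := quotRep T W hW) (T := W.mkQ) (fun g v => rfl) a v
        rw [h3, LinearMap.zero_apply] at h5
        exact (Submodule.Quotient.mk_eq_zero W).1 h5
      have h5 : W ≠ ⊤ := by
        intro h6
        exact Submodule.Quotient.nontrivial_iff.1 hirr.nontriv h6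
      have h6 : Module.finrank k W < Module.finrank k V := Submodule.finrank_lt h5
      obtain ⟨r, hr⟩ := ih W (subRep T W hW) (by omega)
      refine ⟨r + 1, LinearMap.ext fun v => ?_⟩
      rw [pow_succ, Module.End.mul_apply, LinearMap.zero_apply]
      have h7 := sub_pow T W hW a r ⟨act T a v, h4 v⟩
      rw [hr, LinearMap.zero_apply, map_zero] at h7
      exact h7.symm

end NilAAux

open NilAAux

theorem exists_act_ne [Finite A] {a : MonoidAlgebra k A} (ha : SuppIn N a)
    (hn : ¬ IsNilpotent a) : ∃ (m : ℕ) (ρ : Rp k N m), Irr' ρ ∧ act ρ a ≠ 0 := by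
  classical
  have : Fintype A := Fintype.ofFinite A
  have : Fintype N := Fintype.ofFinite N
  by_contra hcon
  apply hn
  have h : ∀ (m : ℕ) (ρ : Rp k N m), Irr' ρ → act ρ a = 0 := by
    intro m ρ hρ
    by_contra h0
    exact hcon ⟨m, ρ, hρ, h0⟩
  obtain ⟨r, hr⟩ := nil_rep h (Module.finrank k (MonoidAlgebra k A)) (MonoidAlgebra k A)
    (Rk.CardDZAux.lreg (k := k) N) le_rfl
  have h1 : ∀ v : MonoidAlgebra k A, act (Rk.CardDZAux.lreg (k := k) N) a v = a * v := by
    intro v
    rw [act_apply]
    exact Rk.CardDZAux.sum_lreg N ha v
  have h2 : ∀ (j : ℕ) (v : MonoidAlgebra k A),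
      (act (Rk.CardDZAux.lreg (k := k) N) a ^ j) v = a ^ j * v := by
    intro j
    induction j with
    | zero =>
      intro v
      rw [pow_zero, pow_zero, one_mul]
      rfl
    | succ j ih =>
      intro v
      rw [pow_succ, pow_succ, Module.End.mul_apply, ih, h1, mul_assoc]
  refine ⟨r, ?_⟩
  have h3 := h2 r 1
  rw [hr, LinearMap.zero_apply, mul_one] at h3
  exact h3.symm

end Pool.Agent.Lib.P0c8ca5.Hh
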