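import Mathlib
import Pool.Agent.Lib.P0c8ca5H.Isot
import Pool.Agent.Lib.P0c8ca5H.NilA
import Pool.Agent.Lib.P0c8ca5H.Coef

/-!
# Module Exist: there is a representation over given representations of the factors

PROOF of `exists_eigen`.  `κ := (Nat.card Z : k)⁻¹ • ∑ z ∈ Z, l z⁻¹ • single z 1` where `l` is multiplicative on `Z` because `σ z = l z • 1` (and `σ` acts on a nontrivial
space, so `l (z z') = l z * l z'`, `l 1 = 1`, `l z ≠ 0`).  Then `single z 1 * κ = l z • κ` (reindex), `act σ κ = 1` (each term acts as `l z⁻¹ * l z = 1`;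
`(Nat.card Z : k) ≠ 0` by `hd.pr`), `SuppIn Z κ`.  `Cy.exists_eps` gives `ε` with `IsEps (P i) σ ε`; put `ε' = κ * ε`: `SuppIn (P i) ε'`,
`single z 1 * ε' = l z • ε'`, `act σ ε' = act σ κ * act σ ε = 1`, and for irreducible `σ'` not isomorphic to `σ`: `act σ' ε' = act σ' κ * 0 = 0`.
PROOF of `exists_over_all`.  Take `ε i` from `exists_eigen` for `σ i`.  `a := lp ε` is in `kN` (`supp_lp`) and `a ^ r = lp (fun i => ε i ^ r)` (`lp_pow`, `commute_factor`).
For `r ≥ 1` `ε i ^ r ≠ 0` (it acts as `1` on `σ i`, a nontrivial space), `SuppIn (P i)` and `single z 1 * ε i ^ r = l z • ε i ^ r`, so `a ^ r ≠ 0` by `lp_ne_zero`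
(for `r = 0`: `1 ≠ 0`).  So `a` is not nilpotent, and `exists_act_ne` gives `ρ` irreducible with `act ρ a ≠ 0`.
For each `i`: `act ρ (ε i) ≠ 0`: by `lp_front` `a = ε i * a'` with `a' = lp (..)` in `kN`, so `act ρ a = act ρ (ε i) * act ρ a'` (`act_mul`).
`over_of_eps` (only the properties `one`, `zero`, `supp` of `IsEps (P i) (σ i) (ε i)` are used; `exists_eigen` returns `IsEps`).
-/

set_option autoImplicit false

namespace Pool.Agent.Lib.P0c8ca5.Hh

open MonoidAlgebra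

variable {p : ℕ} {k : Type*} [Field k] {A : Type*} [Group A] {Z N : Subgroup A} {n : ℕ}

namespace ExistAux

section
variable {G : Subgroup A} {d : ℕ} {l : A → k}

open Classical in
/-- the idempotent of a linear character of `Z` -/
noncomputable def kap [Finite A] (Z : Subgroup A) (l : A → k) : MonoidAlgebra k A :=
  MonoidAlgebra.ofCoeff (Finsupp.equivFunOnFinite.symm fun x =>
    if x ∈ Z then (Nat.card Z : k)⁻¹ * l x⁻¹ else 0)

open Classical in
theorem coeff_kap [Finite A] (x : A) :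
    (kap Z l).coeff x = if x ∈ Z then (Nat.card Z : k)⁻¹ * l x⁻¹ else 0 := by
  simp only [kap, Finsupp.equivFunOnFinite_symm_apply_apply]

theorem supp_kap [Finite A] : SuppIn Z (kap Z l) := by
  intro x hx
  by_contra h
  apply hx
  rw [coeff_kap, if_neg h]

/-- properties of the linear character -/
theorem l_mul (hZG : Z ≤ G) {σ : Rp k G d} (hσ : Irr' σ)
    (hl : ∀ z (hz : z ∈ Z), ∀ v, σ ⟨z, hZG hz⟩ v = l z • v) {z w : A} (hz : z ∈ Z)
    (hw : w ∈ Z) : l (z * w) = l z * l w := by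
  have := hσ.nontriv
  obtain ⟨v, hv⟩ := exists_ne (0 : Fin d → k)
  have h1 := hl _ (Z.mul_mem hz hw) v
  have h2 : σ ⟨z * w, hZG (Z.mul_mem hz hw)⟩ v = σ ⟨z, hZG hz⟩ (σ ⟨w, hZG hw⟩ v) := by
    rw [← Module.End.mul_apply, ← map_mul]
    rfl
  rw [h1, hl w hw, map_smul, hl z hz, smul_smul] at h2
  rw [mul_comm (l z)]
  exact smul_left_injective k hv h2

theorem l_one (hZG : Z ≤ G) {σ : Rp k G d} (hσ : Irr' σ)
    (hl : ∀ z (hz : z ∈ Z), ∀ v, σ ⟨z, hZG hz⟩ v = l z • v) : l 1 = 1 := by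
  have := hσ.nontriv
  obtain ⟨v, hv⟩ := exists_ne (0 : Fin d → k)
  have h1 := hl _ Z.one_mem v
  have h2 : σ ⟨1, hZG Z.one_mem⟩ v = v := by
    have e : (⟨1, hZG Z.one_mem⟩ : G) = 1 := rfl
    rw [e, map_one]
    rfl
  rw [h2] at h1
  have h3 : l 1 • v = (1 : k) • v := by rw [one_smul]; exact h1.symm
  exact smul_left_injective k hv h3

theorem kap_eigen [Finite A] (hZG : Z ≤ G) {σ : Rp k G d} (hσ : Irr' σ)
    (hl : ∀ z (hz : z ∈ Z), ∀ v, σ ⟨z, hZG hz⟩ v = l z • v) {z : A} (hz : z ∈ Z)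
    (hc : Z ≤ Subgroup.center A) :
    single z (1 : k) * kap Z l = l z • kap Z l := by
  ext x
  rw [coeff_single_mul_apply, one_mul, coeff_smul_apply, coeff_kap, coeff_kap]
  by_cases h : x ∈ Z
  · rw [if_pos h, if_pos (Z.mul_mem (Z.inv_mem hz) h)]
    have e : (z⁻¹ * x)⁻¹ = z * x⁻¹ := by
      rw [mul_inv_rev, inv_inv]
      exact Subgroup.mem_center_iff.1 (hc hz) x⁻¹
    rw [e, l_mul hZG hσ hl hz (Z.inv_mem h), smul_eq_mul]
    ring
  · have h' : z⁻¹ * x ∉ Z := by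
      intro h1
      apply h
      have h2 := Z.mul_mem hz h1
      rwa [mul_inv_cancel_left] at h2
    rw [if_neg h, if_neg h', smul_zero]

theorem act_kap [Fact p.Prime] [CharP k p] [Finite A] (hZG : Z ≤ G)
    (hp : ¬ p ∣ Nat.card Z) {σ : Rp k G d} (hσ : Irr' σ)
    (hl : ∀ z (hz : z ∈ Z), ∀ v, σ ⟨z, hZG hz⟩ v = l z • v) : act σ (kap Z l) = 1 := by
  classical
  have : Fintype G := Fintype.ofFinite G
  have : Fintype Z := Fintype.ofFinite Z
  have hc : (Nat.card Z : k) ≠ 0 := fun h => hp ((CharP.cast_eq_zero_iff k p _).1 h)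
  apply LinearMap.ext
  intro v
  rw [act_apply, Module.End.one_apply]
  have h1 : ∑ z : Z, (Nat.card Z : k)⁻¹ • v = ∑ x : G, (kap Z l).coeff (x : A) • σ x v := by
    apply Fintype.sum_of_injective (fun z : Z => Subgroup.inclusion hZG z)
      (Subgroup.inclusion_injective hZG)
    · intro x hx
      have h2 : (kap Z l).coeff (x : A) = 0 := by
        rw [coeff_kap, if_neg]
        intro h3
        exact hx ⟨⟨x, h3⟩, rfl⟩
      rw [h2, zero_smul]
    · intro z
      have h2 : σ (Subgroup.inclusion hZG z) v = l (z : A) • v := hl z z.2 v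
      have h3 : ((Subgroup.inclusion hZG z : G) : A) = z := rfl
      rw [h2, h3, coeff_kap, if_pos z.2, smul_smul, mul_assoc,
        ← l_mul hZG hσ hl (Z.inv_mem z.2) z.2, inv_mul_cancel, l_one hZG hσ hl, mul_one]
  rw [← h1, Finset.sum_const, Finset.card_univ, ← Nat.card_eq_fintype_card, ← Nat.cast_smul_eq_nsmul k,
    smul_smul, mul_inv_cancel₀ hc, one_smul]

theorem supp_pow {K : Subgroup A} {a : MonoidAlgebra k A} (ha : SuppIn K a) (r : ℕ) :
    SuppIn K (a ^ r) := by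
  induction r with
  | zero =>
    rw [pow_zero]
    exact (mem_fixAlg.1 (fixAlg k K K).one_mem).1
  | succ r ih =>
    rw [pow_succ]
    exact ih.mul ha

theorem act_pow [Finite A] {σ : Rp k G d} {a : MonoidAlgebra k A} (ha : SuppIn G a)
    (h : act σ a = 1) (r : ℕ) : act σ (a ^ r) = 1 := by
  induction r with
  | zero =>
    rw [pow_zero]
    exact Cy.EpsAux.act_one σ
  | succ r ih =>
    rw [pow_succ, act_mul σ (supp_pow ha r), ih, h, one_mul]

end

end ExistAux

open ExistAux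

theorem exists_eigen [Fact p.Prime] [CharP k p] [IsAlgClosed k] [Fintype A] {Z G : Subgroup A}
    (hZG : Z ≤ G) (hZ : Z ≤ Subgroup.center A) (hp : ¬ p ∣ Nat.card Z) {d : ℕ} {σ : Rp k G d}
    (hσ : Irr' σ) {l : A → k} (hl : ∀ z (hz : z ∈ Z), ∀ v, σ ⟨z, hZG hz⟩ v = l z • v) :
    ∃ ε : MonoidAlgebra k A, Cy.IsEps G σ ε ∧ ∀ z ∈ Z, single z (1 : k) * ε = l z • ε := by
  obtain ⟨ε, hε⟩ := Cy.exists_eps (k := k) hσ
  have hs : SuppIn G (kap Z l) := SuppIn.mono hZG supp_kap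
  refine ⟨kap Z l * ε, ⟨hs.mul hε.supp, ?_, ?_⟩, ?_⟩
  · intro m σ' hσ' hi
    obtain ⟨P, hP⟩ := hi
    have hl' : ∀ z (hz : z ∈ Z), ∀ v, σ' ⟨z, hZG hz⟩ v = l z • v := by
      intro z hz v
      apply P.injective
      rw [hP, hl z hz, map_smul]
    rw [act_mul σ' hs, hε.one σ' hσ' ⟨P, hP⟩, act_kap (p := p) hZG hp hσ' hl', one_mul]
  · intro m σ' hσ' hi
    rw [act_mul σ' hs, hε.zero σ' hσ' hi, mul_zero]
  · intro z hz
    rw [← mul_assoc, kap_eigen hZG hσ hl hz hZ, smul_mul_assoc]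

theorem exists_over_all [Fact p.Prime] [CharP k p] [IsAlgClosed k] [Fintype A]
    {P : Fin n → Subgroup A} (hd : Jj.Dec p Z N P) {d : Fin n → ℕ}
    {σ : ∀ i, Rp k (P i) (d i)} (hσ : ∀ i, Irr' (σ i)) {l : A → k}
    (hl : ∀ i, ∀ z (hz : z ∈ Z), ∀ v, σ i ⟨z, hd.le i hz⟩ v = l z • v) :
    ∃ (m : ℕ) (ρ : Rp k N m), Irr' ρ ∧ ∀ i, Over (hd.le' i) ρ (σ i) := by
  have hex : ∀ i, ∃ ε : MonoidAlgebra k A, Cy.IsEps (P i) (σ i) ε ∧
      ∀ z ∈ Z, single z (1 : k) * ε = l z • ε := fun i =>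
    exists_eigen (hd.le i) hd.cen hd.pr (hσ i) (hl i)
  choose ε hε hεz using hex
  have ha : SuppIn N (lp ε) := supp_lp hd fun i => (hε i).supp
  have hcom : ∀ i j, i ≠ j → Commute (ε i) (ε j) := fun i j hij =>
    commute_factor hd hij (hε i).supp (hε j).supp
  have hone : ∀ i, act (σ i) (ε i) = 1 := fun i => (hε i).one (σ i) (hσ i) (Iso.refl _)
  have hnil : ¬ IsNilpotent (lp ε) := by
    rintro ⟨r, hr⟩
    cases r with
    | zero =>
      rw [pow_zero] at hr
      exact one_ne_zero hr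
    | succ r =>
      rw [← lp_pow hcom] at hr
      refine lp_ne_zero hd (l := l) (a := fun i => ε i ^ (r + 1))
        (fun i => supp_pow (hε i).supp _) (fun i z hz => ?_) (fun i h0 => ?_) hr
      · rw [pow_succ', ← mul_assoc, hεz i z hz, smul_mul_assoc]
      · have h1 := act_pow (hε i).supp (hone i) (r + 1)
        rw [h0] at h1
        have := (hσ i).nontriv
        obtain ⟨v, hv⟩ := exists_ne (0 : Fin (d i) → k)
        apply hv
        have h2 : act (σ i) (0 : MonoidAlgebra k A) v = v := by rw [h1]; rfl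
        have h3 : act (σ i) (0 : MonoidAlgebra k A) v = 0 := by
          have : Fintype (P i) := Fintype.ofFinite _
          rw [act_apply]
          apply Finset.sum_eq_zero
          intro x _
          rw [coeff_zero, Finsupp.zero_apply, zero_smul]
        rw [← h2, h3]
  obtain ⟨m, ρ, hρ, hact⟩ := exists_act_ne ha hnil
  refine ⟨m, ρ, hρ, fun i => ?_⟩
  refine over_of_eps (hd.le' i) (dec_inn hd i) hρ (hσ i) (hε i) fun h0 => hact ?_
  rw [lp_front hcom i, act_mul ρ (SuppIn.mono (hd.le' i) (hε i).supp), h0, zero_mul]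

end Pool.Agent.Lib.P0c8ca5.Hh
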