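import Mathlib
import Pool.Agent.Lib.P0c8ca5H.LP
import Pool.Agent.Lib.P0c8ca5N.ChC

/-!
# Module FuncLp: trace forms on commuting matrix algebras

PROOF of `func_one`.  `T : Module.End k (Fin d → k) →ₗ[k] k` with `T (X * Y) = T (Y * X)` is a multiple of the trace: `trace_func` (P0c8ca5N.ChC, for
matrices, `NeZero d`) transported with `LinearMap.toMatrix'` / `Matrix.toLin'` (`LinearMap.trace_eq_matrix_trace`, `Matrix.toLin'_mul`), or the same
computation.
PROOF of `func_lp`.  Induction on `n`.  `n = 0`: `lp = 1`, take `C = L 1`.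
Step: for fixed `T₀` put `L' r = L (φ 0 T₀ * r)`.  It satisfies the hypothesis for the family `φ ∘ succ`: `L' (φ i S * r) = L (φ 0 T₀ * φ i S * r) =
L (φ i S * (φ 0 T₀ * r)) = L ((φ 0 T₀ * r) * φ i S) = L' (r * φ i S)`.  So `L (lp ..) = L' (lp tail) = C(T₀) * ∏ tr (T i.succ)`.
Choose `E i` with `tr (E i) = 1` (`ChBAux.exists_trace_one` has this for irreducible representations; for `d i ≠ 0` take the projection to a coordinate:
`(LinearMap.proj a).smulRight (Pi.single a 1)`, `LinearMap.trace_smulRight`); then `C(T₀) = L (φ 0 T₀ * lp (fun i => φ i.succ (E i)))` is linear in `T₀`, and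
`C(S T) = L (φ 0 S * (φ 0 T * r)) = L (φ 0 T * r * φ 0 S) = L (φ 0 T * φ 0 S * r) = C(T S)` with `r = lp ..`, which commutes with `φ 0 S`
(`lp_commute`, `hc`).  By `func_one` `C(T₀) = C * tr T₀`.  `Fin.prod_univ_succ`, `lp_succ`.
-/

set_option autoImplicit false

namespace Pool.Agent.Lib.P0c8ca5.Hh

variable {k : Type*} [Field k]

theorem func_one {d : ℕ} (hd : d ≠ 0) (T : Module.End k (Fin d → k) →ₗ[k] k)
    (hT : ∀ X Y, T (X * Y) = T (Y * X)) :
    ∃ C : k, ∀ X, T X = C * LinearMap.trace k (Fin d → k) X := by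
  have : NeZero d := ⟨hd⟩
  obtain ⟨c, hc⟩ := ChC.trace_func (T ∘ₗ (Matrix.toLin' : Matrix (Fin d) (Fin d) k ≃ₗ[k] _).toLinearMap)
    (by
      intro X Y
      simp only [LinearMap.comp_apply, LinearEquiv.coe_coe]
      rw [Matrix.toLin'_mul, Matrix.toLin'_mul]
      exact hT _ _)
  refine ⟨c, fun X => ?_⟩
  have h1 := hc (LinearMap.toMatrix' X)
  simp only [LinearMap.comp_apply, LinearEquiv.coe_coe, Matrix.toLin'_toMatrix'] at h1
  rw [h1, LinearMap.trace_eq_matrix_trace k (Pi.basisFun k (Fin d)) X,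
    ← LinearMap.toMatrix_eq_toMatrix']

theorem exists_trace_one {d : ℕ} (hd : d ≠ 0) :
    ∃ E : Module.End k (Fin d → k), LinearMap.trace k (Fin d → k) E = 1 := by
  have : NeZero d := ⟨hd⟩
  refine ⟨Matrix.toLin' (Matrix.single 0 0 (1 : k)), ?_⟩
  rw [Matrix.trace_toLin'_eq, Matrix.trace_single_eq_same]

theorem func_lp {R : Type*} [Ring R] [Algebra k R] {n : ℕ} {d : Fin n → ℕ}
    (hd : ∀ i, d i ≠ 0) (φ : ∀ i, Module.End k (Fin (d i) → k) →ₐ[k] R)
    (hc : ∀ i j, i ≠ j → ∀ S T, Commute (φ i S) (φ j T)) (L : R →ₗ[k] k)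
    (hL : ∀ i S r, L (φ i S * r) = L (r * φ i S)) :
    ∃ C : k, ∀ T : ∀ i, Module.End k (Fin (d i) → k),
      L (lp (fun i => φ i (T i))) = C * ∏ i, LinearMap.trace k (Fin (d i) → k) (T i) := by
  induction n generalizing L with
  | zero =>
    refine ⟨L 1, fun T => ?_⟩
    rw [lp_zero, Fin.prod_univ_zero, mul_one]
  | succ n ih =>
    have h1 : ∀ T0 : Module.End k (Fin (d 0) → k), ∃ C : k,
        ∀ T : ∀ i : Fin n, Module.End k (Fin (d i.succ) → k),
          L (φ 0 T0 * lp (fun i : Fin n => φ i.succ (T i))) =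
            C * ∏ i, LinearMap.trace k (Fin (d i.succ) → k) (T i) := by
      intro T0
      exact ih (d := fun i => d i.succ) (fun i => hd i.succ) (fun i => φ i.succ)
        (fun i j hij => hc i.succ j.succ fun h => hij (Fin.succ_inj.1 h))
        (L ∘ₗ LinearMap.mulLeft k (φ 0 T0)) (by
          intro i S r
          simp only [LinearMap.comp_apply, LinearMap.mulLeft_apply]
          have e := (hc 0 i.succ (Fin.succ_ne_zero i).symm T0 S).eq
          rw [← mul_assoc, e, mul_assoc, hL, mul_assoc])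
    choose C hC using h1
    choose E hE using fun i : Fin n => exists_trace_one (k := k) (hd i.succ)
    have hCE : ∀ T0, C T0 = L (φ 0 T0 * lp (fun i : Fin n => φ i.succ (E i))) := by
      intro T0
      rw [hC]
      simp only [hE, Finset.prod_const_one, mul_one]
    set r : R := lp (fun i : Fin n => φ i.succ (E i)) with hr
    have hcr : ∀ S, Commute (φ 0 S) r := fun S =>
      lp_commute fun i => hc 0 i.succ (Fin.succ_ne_zero i).symm S (E i)
    obtain ⟨c, hc1⟩ := func_one (hd 0)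
      (L ∘ₗ LinearMap.mulRight k r ∘ₗ (φ 0).toLinearMap) (by
        intro X Y
        simp only [LinearMap.comp_apply, LinearMap.mulRight_apply, AlgHom.toLinearMap_apply,
          map_mul]
        rw [mul_assoc, hL, mul_assoc, ← (hcr X).eq, ← mul_assoc])
    refine ⟨c, fun T => ?_⟩
    rw [lp_succ, hC, hCE, Fin.prod_univ_succ, ← mul_assoc]
    congr 1
    exact hc1 (T 0)

end Pool.Agent.Lib.P0c8ca5.Hh
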