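import Mathlib
import Pool.Agent.Lib.P0c8ca5H.Isot
import Pool.Agent.Lib.P0c8ca5H.NilA
import Pool.Agent.Lib.P0c8ca5H.FuncLp
import Pool.Agent.Lib.P0c8ca5H.DecLp
import Pool.Agent.Lib.P0c8ca5N.ChD

/-!
# Module Uniq: the representation over given representations of the factors is unique

PROOF of `trace_lp`.  Let `φ i` be the maps of `exists_phi` for `G = P i` (`dec_inn hd i`).  For `i ≠ j` the images commute: `φ i S = act ρ a`, `φ j T = act ρ b` with
`SuppIn (P i) a`, `SuppIn (P j) b` (`Un8.exists_act` for `σ i`), `commute_factor`, `act_mul`.  `L = LinearMap.trace k (Fin m → k)` satisfies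
`L (S R) = L (R S)` (`LinearMap.trace_mul_comm`).  `func_lp` gives `C` with `tr (lp (φ i (T i))) = C * ∏ tr (T i)`.  For `g i ∈ P i`:
`ρ (lp g) = lp (φ i (σ i (g i)))` (`φ i (σ i (g i)) = φ i (act (σ i) (single (g i) 1)) = act ρ (single (g i) 1) = ρ (g i)`; `lp_map` for `ρ` as a monoid hom on
`↥N`, the element `lp g` of `N`).  `d i ≠ 0` as `(hσ i).nontriv`.
PROOF of `iso_of_over`.  `trace_lp` for `ρ` and `ρ'`: constants `C`, `C'`.  By `dec_exists_lp` every element of `N` is an `lp g`, so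
`C' • chi ρ = C • chi ρ'` as functions (`chi_of_mem`, `chi_of_notMem`).  `C ≠ 0`: otherwise `chi ρ = 0`, against `ChDAux.chi_ne_zero`; the same for `C'`.
If `ρ`, `ρ'` are not isomorphic then `chi ρ ≠ chi ρ'` (`chi_inj`, `iso_iff`, `irr_iff`) and `chi ρ`, `chi ρ'` are linearly independent
(`chi_linearIndependent`, two distinct members of `IrrCh k N`), a contradiction with `C' • chi ρ - C • chi ρ' = 0`.
-/

set_option autoImplicit false

namespace Pool.Agent.Lib.P0c8ca5.Hh

open MonoidAlgebra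

variable {p : ℕ} {k : Type*} [Field k] {A : Type*} [Group A] {Z N : Subgroup A} {n m m' : ℕ}

namespace UniqAux

theorem act_single [Finite A] {N : Subgroup A} {V : Type*} [AddCommGroup V] [Module k V]
    (ρ : Representation k N V) (g : N) : act ρ (single (g : A) (1 : k)) = ρ g := by
  classical
  have : Fintype N := Fintype.ofFinite _
  ext v
  rw [act_apply, Finset.sum_eq_single g]
  · rw [coeff_single, Finsupp.single_eq_same, one_smul]
  · intro x _ hx
    rw [coeff_single, Finsupp.single_eq_of_ne, zero_smul]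
    intro h
    exact hx (Subtype.ext h)
  · intro h
    exact absurd (Finset.mem_univ _) h

theorem supp_single {N : Subgroup A} {g : A} (hg : g ∈ N) : SuppIn N (single g (1 : k)) := by
  classical
  intro x hx
  by_contra h
  apply hx
  rw [coeff_single, Finsupp.single_eq_of_ne]
  rintro rfl
  exact h hg

end UniqAux

open UniqAux

theorem trace_lp [IsAlgClosed k] [Finite A] {P : Fin n → Subgroup A} (hd : Jj.Dec p Z N P)
    {ρ : Rp k N m} (hρ : Irr' ρ) {d : Fin n → ℕ} {σ : ∀ i, Rp k (P i) (d i)}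
    (hσ : ∀ i, Irr' (σ i)) (ho : ∀ i, Over (hd.le' i) ρ (σ i)) :
    ∃ C : k, ∀ g : ∀ i, P i, ∀ v : N, (v : A) = lp (fun i => (g i : A)) →
      LinearMap.trace k (Fin m → k) (ρ v) =
        C * ∏ i, LinearMap.trace k (Fin (d i) → k) (σ i (g i)) := by
  choose φ hφ using fun i => exists_phi (hd.le' i) (dec_inn hd i) hρ (hσ i) (ho i)
  have hd0 : ∀ i, d i ≠ 0 := by
    intro i h0
    have h1 := (hσ i).nontriv
    have h2 : Subsingleton (Fin (d i) → k) := by
      rw [h0]
      infer_instance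
    exact not_subsingleton _ h2
  have hc : ∀ i j, i ≠ j → ∀ S T, Commute (φ i S) (φ j T) := by
    intro i j hij S T
    obtain ⟨a, ha, hS⟩ := Un8.exists_act (hσ i) S
    obtain ⟨b, hb, hT⟩ := Un8.exists_act (hσ j) T
    have h1 := commute_factor hd hij ha hb
    have e1 : φ i S = act ρ a := by rw [← hφ i a ha, hS]
    have e2 : φ j T = act ρ b := by rw [← hφ j b hb, hT]
    rw [e1, e2, Commute, SemiconjBy, ← act_mul ρ (ha.mono (hd.le' i)),
      ← act_mul ρ (hb.mono (hd.le' j)), h1.eq]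
  obtain ⟨C, hC⟩ := func_lp hd0 φ hc (LinearMap.trace k (Fin m → k))
    (fun i S r => LinearMap.trace_mul_comm k (φ i S) r)
  refine ⟨C, fun g v hv => ?_⟩
  rw [← hC (fun i => σ i (g i))]
  congr 1
  have h1 : ∀ i, φ i (σ i (g i)) = ρ (⟨(g i : A), hd.le' i (g i).2⟩ : N) := by
    intro i
    have e1 : σ i (g i) = act (σ i) (single ((g i : P i) : A) (1 : k)) := (act_single (σ i) (g i)).symm
    rw [e1, hφ i _ (supp_single (g i).2)]
    exact act_single ρ (⟨(g i : A), hd.le' i (g i).2⟩ : N)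
  have h2 : v = lp (fun i => (⟨(g i : A), hd.le' i (g i).2⟩ : N)) := by
    apply Subtype.ext
    rw [hv]
    exact (lp_map N.subtype (fun i => (⟨(g i : A), hd.le' i (g i).2⟩ : N))).symm
  rw [h2, lp_map ρ]
  congr 1
  funext i
  exact (h1 i).symm

theorem iso_of_over [IsAlgClosed k] [Finite A] {P : Fin n → Subgroup A}
    (hd : Jj.Dec p Z N P) {ρ : Rp k N m} {ρ' : Rp k N m'} (hρ : Irr' ρ) (hρ' : Irr' ρ')
    {d : Fin n → ℕ} {σ : ∀ i, Rp k (P i) (d i)} (hσ : ∀ i, Irr' (σ i))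
    (ho : ∀ i, Over (hd.le' i) ρ (σ i)) (ho' : ∀ i, Over (hd.le' i) ρ' (σ i)) : Iso ρ ρ' := by
  classical
  obtain ⟨C, hC⟩ := trace_lp hd hρ hσ ho
  obtain ⟨C', hC'⟩ := trace_lp hd hρ' hσ ho'
  have key : C' • chi ρ = C • chi ρ' := by
    funext x
    rw [Pi.smul_apply, Pi.smul_apply]
    by_cases hx : x ∈ N
    · obtain ⟨g, hg, hgx⟩ := dec_exists_lp hd hx
      rw [chi_of_mem ρ hx, chi_of_mem ρ' hx, hC (fun i => ⟨g i, hg i⟩) ⟨x, hx⟩ hgx.symm,
        hC' (fun i => ⟨g i, hg i⟩) ⟨x, hx⟩ hgx.symm, smul_eq_mul, smul_eq_mul]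
      ring
    · rw [chi_of_notMem ρ hx, chi_of_notMem ρ' hx, smul_zero, smul_zero]
  have hC0 : C ≠ 0 := by
    intro h0
    have := Fintype.ofFinite A
    refine ChDAux.chi_ne_zero (irr_iff.2 hρ) ?_
    funext x
    by_cases hx : x ∈ N
    · obtain ⟨g, hg, hgx⟩ := dec_exists_lp hd hx
      rw [chi_of_mem ρ hx, hC (fun i => ⟨g i, hg i⟩) ⟨x, hx⟩ hgx.symm, h0, zero_mul]
      rfl
    · rw [chi_of_notMem ρ hx]
      rfl
  by_contra hne
  have hchi : chi ρ ≠ chi ρ' := fun h =>
    hne (iso_iff.2 (chi_inj (irr_iff.2 hρ) (irr_iff.2 hρ') h))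
  set a : IrrCh k N := ⟨chi ρ, m, ρ, irr_iff.2 hρ, rfl⟩ with ha
  set b : IrrCh k N := ⟨chi ρ', m', ρ', irr_iff.2 hρ', rfl⟩ with hb
  have hab : a ≠ b := fun h => hchi (congrArg Subtype.val h)
  have hli := (chi_linearIndependent (k := k) N).comp ![a, b] (by
    intro i j hij
    fin_cases i <;> fin_cases j
    · rfl
    · exact absurd hij hab
    · exact absurd hij.symm hab
    · rfl)
  have hli' : LinearIndependent k ![chi ρ, chi ρ'] := by
    convert hli using 1
    funext i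
    fin_cases i <;> rfl
  rw [LinearIndependent.pair_iff] at hli'
  have h1 := hli' C' (-C) (by rw [key, neg_smul, add_neg_cancel])
  exact hC0 (neg_eq_zero.1 h1.2)

end Pool.Agent.Lib.P0c8ca5.Hh
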