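import Mathlib
import Pool.Agent.Lib.P0c8ca5H.Uniq
import Pool.Agent.Lib.P0c8ca5H.Exist

/-!
# Module Bij: irreducible representations of a product in a product idempotent

`f i ∈ Z(k P i)` idempotent, `single z 1 * f i = l z • f i` for `z ∈ Z`.
PROOF of `eigen_rep`.  `act σ (f) = 1` and `σ z = σ z * act σ f = act σ (single z 1 * f) = l z • act σ f` (`act_mul`; `act σ (single z 1) = σ z`).
PROOF of `blk_under`.  `act ρ (lp f) = 1`, `lp f = f i * lp f` (`mul_lp`), so `act ρ (f i) = 1` (`act ρ (f i)` is `0` or `1` by `act_zero_or_one`: `f i` is idempotent,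
invariant under `N`; or multiply: `act ρ (f i) * act ρ (lp f) = act ρ (lp f) = 1`, so `act ρ (f i) = 1`).  Then `over_blk` (or `isot` for `f i - 1`...: use
`over_blk` with `InvBy N (f i)`) gives `act σ (f i) = 1`.
PROOF of `blk_over`.  If `act (σ i) (f i) = 1` for all `i` then `act ρ (f i) = 1` (`over_blk`), and `act ρ (lp f) = lp (act ρ (f i)) = 1` (induction with `act_mul`, or
`lp_map`-like; `SuppIn N (f i)`).
PROOF of `irX_equiv`.  For a class `c` of `IrX N (lp f)` with representative `γ` and each `i`: `exists_under (hd.le' i)` gives an irreducible `σ` of `P i` with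
`Over (hd.le' i) γ.ρ σ`, `act σ (f i) = 1` (`blk_under`), so the class `⟦mkIrr σ _ _⟧ : IrX (P i) (f i)`.  The class does not depend on the choices
(`under_unique` with `dec_inn`; `Over.congr_left` for another representative `γ'`; `mk_eq_mk`).  This defines `e c i` (choose).  Property: for every `γ`
with `⟦γ⟧ = c`: `Over γ.ρ σ` for every `σ` in the class (`Over.congr_left`, `Over.congr_right`), in particular for `Quotient.out (e c i)`.
Injective: `iso_of_over`.  Surjective: given classes `s i` with representatives `σ i = (Quotient.out (s i)).ρ`: `exists_over_all` (with `hl` by `eigen_rep`) gives `ρ`;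
`act ρ (lp f) = 1` (`blk_over`); the class of `ρ` maps to `s` by `under_unique`.  `Equiv.ofBijective`.
-/

set_option autoImplicit false

namespace Pool.Agent.Lib.P0c8ca5.Hh

open MonoidAlgebra

variable {p : ℕ} {k : Type*} [Field k] {A : Type*} [Group A] {Z N : Subgroup A} {n m : ℕ}

namespace BijAux

theorem act_single_g [Finite A] {G : Subgroup A} {V : Type*} [AddCommGroup V] [Module k V]
    (ρ : Representation k G V) {g : A} (hg : g ∈ G) :
    act ρ (single g (1 : k)) = ρ ⟨g, hg⟩ := by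
  classical
  have : Fintype G := Fintype.ofFinite _
  apply LinearMap.ext
  intro v
  rw [act_apply, Finset.sum_eq_single (⟨g, hg⟩ : G)]
  · rw [coeff_single, Finsupp.single_eq_same, one_smul]
  · intro x _ hx
    rw [coeff_single, Finsupp.single_eq_of_ne, zero_smul]
    intro h
    exact hx (Subtype.ext h)
  · intro h
    exact absurd (Finset.mem_univ _) h

theorem act_smul_c [Finite A] {T : Subgroup A} {V : Type*} [AddCommGroup V] [Module k V]
    (ρ : Representation k T V) (c : k) (a : MonoidAlgebra k A) :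
    act ρ (c • a) = c • act ρ a := by
  have : Fintype T := Fintype.ofFinite T
  apply LinearMap.ext
  intro v
  rw [LinearMap.smul_apply, act_apply, act_apply, Finset.smul_sum]
  refine Finset.sum_congr rfl (fun x _ => ?_)
  rw [coeff_smul_apply, smul_eq_mul, mul_smul]

theorem supp_single {G : Subgroup A} {g : A} (hg : g ∈ G) : SuppIn G (single g (1 : k)) := by
  classical
  intro x hx
  rw [coeff_single] at hx
  by_cases h : x = g
  · rw [h]
    exact hg
  · rw [Finsupp.single_eq_of_ne h] at hx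
    exact absurd rfl hx

theorem act_list [Finite A] {T : Subgroup A} {V : Type*} [AddCommGroup V] [Module k V]
    (ρ : Representation k T V) (L : List (MonoidAlgebra k A))
    (h : ∀ a ∈ L, SuppIn T a ∧ act ρ a = 1) : act ρ L.prod = 1 := by
  induction L with
  | nil => exact Cy.EpsAux.act_one ρ
  | cons a L ih =>
    have ha := h a (List.mem_cons_self)
    rw [List.prod_cons, act_mul ρ ha.1, ha.2, one_mul]
    exact ih fun b hb => h b (List.mem_cons_of_mem a hb)

end BijAux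

theorem eigen_rep [Finite A] {G : Subgroup A} {d : ℕ} {σ : Rp k G d} {f : MonoidAlgebra k A}
    (hσf : act σ f = 1) {z : A} (hz : z ∈ G) {c : k} (h : single z (1 : k) * f = c • f) :
    ∀ v, σ ⟨z, hz⟩ v = c • v := by
  intro v
  have h1 : act σ (single z (1 : k) * f) = σ ⟨z, hz⟩ := by
    rw [act_mul σ (BijAux.supp_single hz), hσf, mul_one, BijAux.act_single_g σ hz]
  rw [h, BijAux.act_smul_c, hσf] at h1
  rw [← h1]
  rfl

theorem blk_under [Finite A] {P : Fin n → Subgroup A} (hd : Jj.Dec p Z N P)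
    {f : Fin n → MonoidAlgebra k A} (hf : ∀ i, f i ∈ fixAlg k (P i) (P i))
    (hff : ∀ i, f i * f i = f i) {ρ : Rp k N m} (hρ : Irr' ρ) (hb : act ρ (lp f) = 1)
    (i : Fin n) : act ρ (f i) = 1 ∧ ∀ {d : ℕ} {σ : Rp k (P i) d}, Irr' σ →
      Over (hd.le' i) ρ σ → act σ (f i) = 1 := by
  have hs : ∀ i, SuppIn (P i) (f i) := fun i => (mem_fixAlg.1 (hf i)).1
  have h1 : act ρ (f i) = 1 := by
    have h2 : act ρ (f i * lp f) = act ρ (f i) * act ρ (lp f) :=
      act_mul ρ ((hs i).mono (hd.le' i))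
    rw [mul_lp hd hs hff i, hb, mul_one] at h2
    exact h2.symm
  refine ⟨h1, fun {d σ} hσ ho => ?_⟩
  exact (over_blk hρ hσ ho (hs i) (inv_factor hd (hf i)) (hff i)).1 h1

theorem blk_over [Finite A] {P : Fin n → Subgroup A} (hd : Jj.Dec p Z N P)
    {f : Fin n → MonoidAlgebra k A} (hf : ∀ i, f i ∈ fixAlg k (P i) (P i))
    (hff : ∀ i, f i * f i = f i) {ρ : Rp k N m} (hρ : Irr' ρ) {d : Fin n → ℕ}
    {σ : ∀ i, Rp k (P i) (d i)} (hσ : ∀ i, Irr' (σ i)) (ho : ∀ i, Over (hd.le' i) ρ (σ i))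
    (hb : ∀ i, act (σ i) (f i) = 1) : act ρ (lp f) = 1 := by
  have hs : ∀ i, SuppIn (P i) (f i) := fun i => (mem_fixAlg.1 (hf i)).1
  refine BijAux.act_list ρ _ fun a ha => ?_
  rw [List.mem_ofFn] at ha
  obtain ⟨i, rfl⟩ := ha
  exact ⟨(hs i).mono (hd.le' i),
    (over_blk hρ (hσ i) (ho i) (hs i) (inv_factor hd (hf i)) (hff i)).2 (hb i)⟩

theorem irX_equiv [Fact p.Prime] [CharP k p] [IsAlgClosed k] [Fintype A]
    {P : Fin n → Subgroup A} (hd : Jj.Dec p Z N P) {f : Fin n → MonoidAlgebra k A}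
    (hf : ∀ i, f i ∈ fixAlg k (P i) (P i)) (hff : ∀ i, f i * f i = f i) {l : A → k}
    (hz : ∀ i, ∀ z ∈ Z, single z (1 : k) * f i = l z • f i) :
    ∃ e : IrX N (lp f) ≃ (∀ i, IrX (P i) (f i)), ∀ (γ : IrrInv N ⊥ (lp f)) (i : Fin n)
      (δ : IrrInv (P i) ⊥ (f i)), e ⟦γ⟧ i = ⟦δ⟧ ↔ Over (hd.le' i) γ.ρ δ.ρ := by
  classical
  have hirr : ∀ γ : IrrInv N ⊥ (lp f), Irr' γ.ρ := fun γ => irr_iff.1 γ.irr
  have hirr' : ∀ (i : Fin n) (δ : IrrInv (P i) ⊥ (f i)), Irr' δ.ρ := fun i δ => irr_iff.1 δ.irr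
  have hex : ∀ (γ : IrrInv N ⊥ (lp f)) (i : Fin n), ∃ δ : IrrInv (P i) ⊥ (f i),
      Over (hd.le' i) γ.ρ δ.ρ := by
    intro γ i
    obtain ⟨d, σ, hσ, ho⟩ := exists_under (hd.le' i) (hirr γ)
    have h1 := (blk_under hd hf hff (hirr γ) (act_iff.2 γ.blk) i).2 hσ ho
    exact ⟨mkIrr σ hσ h1, ho⟩
  choose D hD using hex
  have huniq : ∀ (γ : IrrInv N ⊥ (lp f)) (i : Fin n) (δ δ' : IrrInv (P i) ⊥ (f i)),
      Over (hd.le' i) γ.ρ δ.ρ → Over (hd.le' i) γ.ρ δ'.ρ → Iso δ.ρ δ'.ρ :=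
    fun γ i δ δ' h h' => under_unique (hd.le' i) (dec_inn hd i) (hirr γ) (hirr' i δ)
      (hirr' i δ') h h'
  let E : IrX N (lp f) → (∀ i, IrX (P i) (f i)) := fun c i => ⟦D c.out i⟧
  have key : ∀ (γ : IrrInv N ⊥ (lp f)) (i : Fin n) (δ : IrrInv (P i) ⊥ (f i)),
      E ⟦γ⟧ i = ⟦δ⟧ ↔ Over (hd.le' i) γ.ρ δ.ρ := by
    intro γ i δ
    have h0 : Iso (Quotient.out (⟦γ⟧ : IrX N (lp f))).ρ γ.ρ :=
      mk_eq_mk.1 (Quotient.out_eq (⟦γ⟧ : IrX N (lp f)))
    have h1 : Over (hd.le' i) γ.ρ (D (Quotient.out (⟦γ⟧ : IrX N (lp f))) i).ρ :=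
      (hD (Quotient.out (⟦γ⟧ : IrX N (lp f))) i).congr_left h0
    constructor
    · intro h
      exact h1.congr_right (mk_eq_mk.1 h)
    · intro h
      exact mk_eq_mk.2 (huniq γ i _ δ h1 h)
  have hinj : Function.Injective E := by
    intro c c'
    induction c using Quotient.inductionOn with
    | _ γ =>
    induction c' using Quotient.inductionOn with
    | _ γ' =>
      intro h
      have h1 : ∀ i, Over (hd.le' i) γ.ρ (Quotient.out (E ⟦γ⟧ i)).ρ := fun i =>
        (key γ i _).1 (Quotient.out_eq (E ⟦γ⟧ i)).symm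
      have h2 : ∀ i, Over (hd.le' i) γ'.ρ (Quotient.out (E ⟦γ⟧ i)).ρ := fun i =>
        (key γ' i _).1 (by rw [← h]; exact (Quotient.out_eq (E ⟦γ⟧ i)).symm)
      exact mk_eq_mk.2 (iso_of_over hd (hirr γ) (hirr γ')
        (fun i => hirr' i (Quotient.out (E ⟦γ⟧ i))) h1 h2)
  have hsurj : Function.Surjective E := by
    intro s
    obtain ⟨m', ρ, hρ, ho⟩ := exists_over_all hd (σ := fun i => (Quotient.out (s i)).ρ)
      (fun i => hirr' i (Quotient.out (s i))) (l := l) (fun i z hzZ v =>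
        eigen_rep (act_iff.2 (Quotient.out (s i)).blk) (hd.le i hzZ) (hz i z hzZ) v)
    have hb : act ρ (lp f) = 1 := blk_over hd hf hff hρ
      (fun i => hirr' i (Quotient.out (s i))) ho (fun i => act_iff.2 (Quotient.out (s i)).blk)
    refine ⟨⟦mkIrr ρ hρ hb⟧, ?_⟩
    funext i
    rw [← Quotient.out_eq (s i)]
    exact (key (mkIrr ρ hρ hb) i _).2 (ho i)
  exact ⟨Equiv.ofBijective E ⟨hinj, hsurj⟩, key⟩

end Pool.Agent.Lib.P0c8ca5.Hh
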