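import Mathlib
import Pool.Agent.Lib.P0c8ca5H.TwS
import Pool.Agent.Lib.P0c8ca5H.Bij
import Pool.Agent.Lib.P0c8ca5H.CoreS

/-!
# Module ShBij: invariant representations of a product whose factors are permuted cyclically

`cg u (P i) = P (i + 1)`, `cj u (f i) = f (i + 1)` for `i : Fin q`.

PROOF of `over_pow`.  `ρ` with an intertwiner of `u`, `Over ρ σ` (`σ` of `P 0`): `ρ` has an intertwiner of `u ^ j` (`itw_pow`), so `Over ρ (twS hj σ)` (`over_twS_of_itw`) where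
`hj : cg (u ^ j) (P 0) = P j` (`cg_pow`; state it for `i : Fin q` and `j = i.val`).
PROOF of `inv_inj`.  `ρ`, `ρ'` with intertwiners of `u` over the same `σ`: both lie over `twS _ σ` for all `i` (`over_pow`), so `iso_of_over`.
PROOF of `inv_surj`.  Given `σ` of `P 0`, irreducible, `act σ (f 0) = 1`, with an intertwiner of `u ^ q`.  Put `σ i := twS hi σ`, `hi : cg (u ^ i.val) (P 0) = P i`.  For `z ∈ Z`:
`σ i z = l z` since `act (σ i) (f i) = act σ (cj (u ^ i)⁻¹ (f i)) = act σ (f 0) = 1` (`act_twS`, `hfs` iterated) and `eigen_rep`.  `exists_over_all` gives `ρ` over all `σ i`;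
`act ρ (lp f) = 1` (`blk_over`).  `tw hu ρ` lies over `twS _ (σ (i - 1))` (`over_tw_twS`), which is `σ i` for `i ≠ 0` (`twS_twS`, `u * u ^ (i-1) = u ^ i`), and for `i = 0` it is
`twS (u ^ q) σ`, isomorphic to `σ = σ 0` up to the identification of `twS` for `u ^ 0 = 1` (`iso_twS_of_itw`; `Over.congr_right`).  So `tw hu ρ` and `ρ` lie over the same
family (up to isomorphism), `iso_of_over` gives `Iso (tw hu ρ) ρ`, and `Gg.itw_iff` gives an intertwiner of `u`.
PROOF of `shift_equiv`.  For `c` with `ρ = (Quotient.out c).ρ` having an intertwiner: `exists_under (hd.le' 0)` gives `σ`, irreducible, `act σ (f 0) = 1` (`blk_under`), with an intertwiner of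
`u ^ q` (`itw_pow`, `itw_under`); its class is well defined (`under_unique`), `Quotient.out` of the class is isomorphic to `σ` (`mk_eq_mk`, `itw_iso`).  Injective: `inv_inj`
(`Over.congr_right` to make the `σ` equal).  Surjective: `inv_surj` (the class of `ρ`, `itw_iso` for `Quotient.out`).
-/

set_option autoImplicit false

namespace Pool.Agent.Lib.P0c8ca5.Hh

open MonoidAlgebra Gg Un8

variable {p : ℕ} {k : Type*} [Field k] {A : Type*} [Group A] {Z N : Subgroup A} {m m' d q : ℕ}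
  [NeZero q]

namespace ShBijAux

theorem ofNat_val (i : Fin q) : (0 : Fin q) + Fin.ofNat q (i : ℕ) = i := by
  rw [zero_add]
  apply Fin.ext
  change (i : ℕ) % q = i
  exact Nat.mod_eq_of_lt i.isLt

theorem cg_i {P : Fin q → Subgroup A} {u : A} (hsh : ∀ i, cg u (P i) = P (i + 1)) (i : Fin q) :
    cg (u ^ (i : ℕ)) (P 0) = P i := by
  rw [cg_pow hsh, ofNat_val]

theorem cg_q {P : Fin q → Subgroup A} {u : A} (hsh : ∀ i, cg u (P i) = P (i + 1)) :
    cg (u ^ q) (P 0) = P 0 := by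
  rw [cg_pow hsh]
  have h : Fin.ofNat q q = 0 := by
    apply Fin.ext
    change q % q = 0 % q
    rw [Nat.mod_self, Nat.zero_mod]
  rw [h, add_zero]

theorem norm_of_cg {G : Subgroup A} {g : A} (h : cg g G = G) :
    g ∈ Subgroup.normalizer (G : Set A) := by
  rw [Subgroup.mem_normalizer_iff]
  intro x
  have h1 : g * x * g⁻¹ ∈ cg g G ↔ g⁻¹ * (g * x * g⁻¹) * g ∈ G := Jj.mem_cj
  have e : g⁻¹ * (g * x * g⁻¹) * g = x := by group
  rw [h, e] at h1
  exact h1.symm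

theorem norm_pow {u : A} (hu : u ∈ Subgroup.normalizer (N : Set A)) (j : ℕ) :
    u ^ j ∈ Subgroup.normalizer (N : Set A) := (Subgroup.normalizer (N : Set A)).pow_mem hu j

theorem iso_aux {P Q : Subgroup A} {x y : A} (h : cg x P = Q) (h' : cg y P = Q) {σ : Rp k P d}
    (hX : ∃ X, Itw P σ (y⁻¹ * x) X) : Iso (twS h σ) (twS h' σ) := by
  obtain ⟨X, hX⟩ := hX
  refine ⟨X, fun z v => ?_⟩
  rw [twS_apply, twS_apply]
  exact hX (cjS h z) (cjS h' z) (by rw [coe_cjS, coe_cjS]; group) v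

theorem itw_one {G : Subgroup A} (σ : Rp k G d) : ∃ X, Itw G σ 1 X := by
  refine ⟨LinearEquiv.refl k _, fun g g' hg v => ?_⟩
  have h : g' = g := Subtype.ext (by rw [hg]; group)
  rw [h]
  rfl

theorem iso_twS_one {P : Subgroup A} {x : A} (hx : x = 1) (h : cg x P = P) (σ : Rp k P d) :
    Iso (twS h σ) σ := by
  subst hx
  refine ⟨LinearEquiv.refl k _, fun z v => ?_⟩
  have e : cjS h z = z := Subtype.ext (by rw [coe_cjS]; group)
  rw [twS_apply, e]
  rfl

theorem cj_pow_f {f : Fin q → MonoidAlgebra k A} {u : A}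
    (hfs : ∀ i, P0c8ca5.cj u (f i) = f (i + 1)) (j : ℕ) :
    P0c8ca5.cj (u ^ j) (f 0) = f (Fin.ofNat q j) := by
  induction j with
  | zero =>
    rw [pow_zero, cj_one_left]
    congr 1
  | succ j ih =>
    rw [pow_succ', ← cj_cj, ih, hfs]
    congr 1
    apply Fin.ext
    rw [Fin.val_add]
    change (j % q + 1 % q) % q = (j + 1) % q
    rw [← Nat.add_mod]

theorem cj_inv_f {f : Fin q → MonoidAlgebra k A} {u : A}
    (hfs : ∀ i, P0c8ca5.cj u (f i) = f (i + 1)) (i : Fin q) :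
    P0c8ca5.cj (u ^ (i : ℕ))⁻¹ (f i) = f 0 := by
  have h := cj_pow_f hfs (i : ℕ)
  have e : Fin.ofNat q (i : ℕ) = i := by
    have := ofNat_val i
    rwa [zero_add] at this
  rw [e] at h
  rw [← h, cj_cj, inv_mul_cancel, cj_one_left]

end ShBijAux

open ShBijAux

theorem over_pow [Finite A] {P : Fin q → Subgroup A} (hd : Jj.Dec p Z N P) {u : A}
    (hsh : ∀ i, cg u (P i) = P (i + 1)) {ρ : Rp k N m} (hX : ∃ X, Itw N ρ u X)
    {σ : Rp k (P 0) d} (ho : Over (hd.le' 0) ρ σ) (i : Fin q)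
    (hi : cg (u ^ (i : ℕ)) (P 0) = P i) : Over (hd.le' i) ρ (twS hi σ) := by
  have hu := norm_of_shift hd hsh
  obtain ⟨X, hX⟩ := itw_pow hu hX (i : ℕ)
  exact over_twS_of_itw (hd.le' 0) (hd.le' i) hi ho (norm_pow hu _) hX

theorem inv_inj [IsAlgClosed k] [Finite A] {P : Fin q → Subgroup A} (hd : Jj.Dec p Z N P)
    {u : A} (hsh : ∀ i, cg u (P i) = P (i + 1)) {ρ : Rp k N m} {ρ' : Rp k N m'}
    (hρ : Irr' ρ) (hρ' : Irr' ρ') (hX : ∃ X, Itw N ρ u X) (hX' : ∃ X, Itw N ρ' u X)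
    {σ : Rp k (P 0) d} (hσ : Irr' σ) (ho : Over (hd.le' 0) ρ σ) (ho' : Over (hd.le' 0) ρ' σ) :
    Iso ρ ρ' :=
  iso_of_over hd hρ hρ' (d := fun _ => d) (σ := fun i => twS (cg_i hsh i) σ)
    (fun i => irr_twS _ hσ) (fun i => over_pow hd hsh hX ho i _)
    (fun i => over_pow hd hsh hX' ho' i _)

theorem inv_surj [Fact p.Prime] [CharP k p] [IsAlgClosed k] [Fintype A]
    {P : Fin q → Subgroup A} (hd : Jj.Dec p Z N P) {u : A}
    (hsh : ∀ i, cg u (P i) = P (i + 1)) {f : Fin q → MonoidAlgebra k A}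
    (hf : ∀ i, f i ∈ fixAlg k (P i) (P i)) (hff : ∀ i, f i * f i = f i) {l : A → k}
    (hz : ∀ i, ∀ z ∈ Z, single z (1 : k) * f i = l z • f i)
    (hfs : ∀ i, P0c8ca5.cj u (f i) = f (i + 1)) {σ : Rp k (P 0) d} (hσ : Irr' σ)
    (hb : act σ (f 0) = 1) (hX : ∃ X, Itw (P 0) σ (u ^ q) X) :
    ∃ (m : ℕ) (ρ : Rp k N m), Irr' ρ ∧ act ρ (lp f) = 1 ∧ Over (hd.le' 0) ρ σ ∧
      ∃ X, Itw N ρ u X := by
  have hu := norm_of_shift hd hsh
  have hbs : ∀ i, act (twS (cg_i hsh i) σ) (f i) = 1 := by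
    intro i
    rw [act_twS, cj_inv_f hfs, hb]
  have hirr : ∀ i, Irr' (twS (cg_i hsh i) σ) := fun i => irr_twS _ hσ
  obtain ⟨m, ρ, hρ, ho⟩ := exists_over_all hd (d := fun _ => d)
    (σ := fun i => twS (cg_i hsh i) σ) hirr (l := l)
    (fun i z hzZ => eigen_rep (hbs i) (hd.le i hzZ) (hz i z hzZ))
  refine ⟨m, ρ, hρ, blk_over hd hf hff hρ hirr ho hbs, ?_, ?_⟩
  · have h0 : ((0 : Fin q) : ℕ) = 0 := Nat.zero_mod q
    exact (ho 0).congr_right (iso_twS_one (by rw [h0, pow_zero]) _ σ)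
  · rw [← Gg.itw_iff hu]
    refine iso_of_over hd (hρ.tw hu) hρ (d := fun _ => d)
      (σ := fun i => twS (cg_i hsh i) σ) hirr ?_ ho
    have key : ∀ j : Fin q, Over (hd.le' (j + 1)) (tw hu ρ) (twS (cg_i hsh (j + 1)) σ) := by
      intro j
      have h1 := over_tw_twS (hd.le' j) (hd.le' (j + 1)) (hsh j) (ho j) hu
      have h2 : cg (u * u ^ (j : ℕ)) (P 0) = P (j + 1) := by
        have h3 : u * u ^ (j : ℕ) = u ^ ((j : ℕ) + 1) := (pow_succ' u _).symm
        rw [h3, cg_pow hsh, zero_add]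
        congr 1
        apply Fin.ext
        rw [Fin.val_add]
        change ((j : ℕ) + 1) % q = ((j : ℕ) + 1 % q) % q
        rw [Nat.add_mod_mod]
      have h4 := twS_twS (cg_i hsh j) (hsh j) h2 σ
      have h5 : Over (hd.le' (j + 1)) (tw hu ρ) (twS h2 σ) := by
        rw [← h4]
        exact h1
      refine h5.congr_right (iso_aux _ _ ?_)
      rcases Nat.lt_or_ge ((j : ℕ) + 1) q with h6 | h6
      · have h7 : ((j + 1 : Fin q) : ℕ) = (j : ℕ) + 1 := by
          rw [Fin.val_add]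
          change ((j : ℕ) + 1 % q) % q = (j : ℕ) + 1
          rw [Nat.add_mod_mod, Nat.mod_eq_of_lt h6]
        have h8 : (u ^ ((j + 1 : Fin q) : ℕ))⁻¹ * (u * u ^ (j : ℕ)) = 1 := by
          rw [h7, pow_succ', inv_mul_cancel]
        rw [h8]
        exact itw_one σ
      · have h7 : (j : ℕ) + 1 = q := le_antisymm j.isLt h6
        have h8 : ((j + 1 : Fin q) : ℕ) = 0 := by
          rw [Fin.val_add]
          change ((j : ℕ) + 1 % q) % q = 0
          rw [Nat.add_mod_mod, h7, Nat.mod_self]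
        have h9 : (u ^ ((j + 1 : Fin q) : ℕ))⁻¹ * (u * u ^ (j : ℕ)) = u ^ q := by
          rw [h8, pow_zero, inv_one, one_mul, ← pow_succ', h7]
        rw [h9]
        exact hX
    intro i
    have h1 := key (i - 1)
    rw [sub_add_cancel] at h1
    exact h1

theorem shift_equiv [Fact p.Prime] [CharP k p] [IsAlgClosed k] [Fintype A]
    {P : Fin q → Subgroup A} (hd : Jj.Dec p Z N P) {u : A}
    (hsh : ∀ i, cg u (P i) = P (i + 1)) {f : Fin q → MonoidAlgebra k A}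
    (hf : ∀ i, f i ∈ fixAlg k (P i) (P i)) (hff : ∀ i, f i * f i = f i) {l : A → k}
    (hz : ∀ i, ∀ z ∈ Z, single z (1 : k) * f i = l z • f i)
    (hfs : ∀ i, P0c8ca5.cj u (f i) = f (i + 1)) :
    ∃ e : {c : IrX N (lp f) // ∃ X, Itw N (Quotient.out c).ρ u X} ≃
        {c : IrX (P 0) (f 0) // ∃ X, Itw (P 0) (Quotient.out c).ρ (u ^ q) X},
      ∀ c, Over (hd.le' 0) (Quotient.out c.1).ρ (Quotient.out (e c).1).ρ := by
  have hu := norm_of_shift hd hsh
  have huq : u ^ q ∈ Subgroup.normalizer (P 0 : Set A) := norm_of_cg (cg_q hsh)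
  have hirrN : ∀ c : IrX N (lp f), Irr' (Quotient.out c).ρ := fun c =>
    irr_iff.1 (Quotient.out c).irr
  have hirrP : ∀ c : IrX (P 0) (f 0), Irr' (Quotient.out c).ρ := fun c =>
    irr_iff.1 (Quotient.out c).irr
  have hex : ∀ c : {c : IrX N (lp f) // ∃ X, Itw N (Quotient.out c).ρ u X},
      ∃ x : {c : IrX (P 0) (f 0) // ∃ X, Itw (P 0) (Quotient.out c).ρ (u ^ q) X},
        Over (hd.le' 0) (Quotient.out c.1).ρ (Quotient.out x.1).ρ := by
    rintro ⟨c, hc⟩
    obtain ⟨d, σ, hσ, ho⟩ := exists_under (hd.le' 0) (hirrN c)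
    have hb := (blk_under hd hf hff (hirrN c) (act_iff.2 (Quotient.out c).blk) 0).2 hσ ho
    have h1 : Iso σ (Quotient.out (⟦mkIrr σ hσ hb⟧ : IrX (P 0) (f 0))).ρ := by
      apply Iso.symm
      exact mk_eq_mk.1 (Quotient.out_eq (⟦mkIrr σ hσ hb⟧ : IrX (P 0) (f 0)))
    have h2 := ho.congr_right h1
    refine ⟨⟨⟦mkIrr σ hσ hb⟧, ?_⟩, h2⟩
    exact itw_under (hd.le' 0) (dec_inn hd 0) (hirrN c) (hirrP _) h2 (norm_pow hu q) huq
      (itw_pow hu hc q)
  choose e he using hex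
  have hbij : Function.Bijective e := by
    constructor
    · intro c c' h
      have h1 := he c
      have h2 := he c'
      rw [h] at h1
      have h3 := inv_inj hd hsh (hirrN c.1) (hirrN c'.1) c.2 c'.2 (hirrP _) h1 h2
      apply Subtype.ext
      rw [← Quotient.out_eq c.1, ← Quotient.out_eq c'.1]
      exact mk_eq_mk.2 h3
    · intro x
      obtain ⟨m, ρ, hρ, hact, ho, hX⟩ := inv_surj hd hsh hf hff hz hfs (hirrP x.1)
        (act_iff.2 (Quotient.out x.1).blk) x.2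
      have h1 : Iso ρ (Quotient.out (⟦mkIrr ρ hρ hact⟧ : IrX N (lp f))).ρ := by
        apply Iso.symm
        exact mk_eq_mk.1 (Quotient.out_eq (⟦mkIrr ρ hρ hact⟧ : IrX N (lp f)))
      refine ⟨⟨⟦mkIrr ρ hρ hact⟧, itw_iso h1 hX⟩, ?_⟩
      have h2 := he ⟨⟦mkIrr ρ hρ hact⟧, itw_iso h1 hX⟩
      have h3 := ho.congr_left h1
      have h4 := under_unique (hd.le' 0) (dec_inn hd 0) (hirrN _) (hirrP _) (hirrP _) h2 h3
      apply Subtype.ext
      rw [← Quotient.out_eq x.1, ← Quotient.out_eq (e _).1]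
      exact mk_eq_mk.2 h4
  exact ⟨Equiv.ofBijective e hbij, he⟩

end Pool.Agent.Lib.P0c8ca5.Hh
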