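import Mathlib
import Pool.Agent.Lib.P0c8ca5H.CoreS
import Pool.Agent.Lib.P0c8ca5H.ShBij

/-!
# Module LvS: the sum of the symbols of the representations of a product whose factors are permuted cyclically

PROOF of `sum_omw_shift`.  Let `F c` be the term of `c : IrX N (lp f)` and `G c₀` the term of `c₀ : IrX (P 0) (f 0)` (with `u' = u ^ q` first).  `F c = 0` unless `(Quotient.out c).ρ` has an
intertwiner of `u` (`omw_spec`, `omwX`; `teich 0 = 0`), `G c₀ = 0` unless `(Quotient.out c₀).ρ` has one of `u ^ q`.  So both `finsum`s are sums over the subtypes of `shift_equiv`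
(finite types; `finsum_subtype_eq_finsum_mem`-like or `Finset.sum_subtype`/`Finset.sum_filter`), and for `c` in the subtype, `c₀ = e c`: `omw_shift` with
`ρ = (Quotient.out c).ρ`, `σ = (Quotient.out c₀).ρ`: `F c = teich (s⁻¹ * ..) = teich s⁻¹ * G c₀`.  (`act ρ (f i) = 1` by `blk_under`, `act ρ (lp f) = 1` by `act_iff`.)
Finally replace `u ^ q` by `ut` and `v` by `v0` (`omw_congr` with `hut`, `hv0`), and `lp (fun i => cj (u ^ i) (e' (-i)))` by `et` (`het`).
-/

set_option autoImplicit false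

namespace Pool.Agent.Lib.P0c8ca5.Hh

open MonoidAlgebra Gg Un8

variable {p : ℕ} {k : Type*} [Field k] {A : Type*} [Group A] {Z N : Subgroup A} {q : ℕ}
  [NeZero q]

namespace LvSAux

theorem finsum_sub {α M : Type*} [AddCommMonoid M] (F : α → M) (P : α → Prop)
    (h : ∀ a, ¬ P a → F a = 0) : ∑ᶠ a, F a = ∑ᶠ a : {a // P a}, F a.1 := by
  rw [finsum_subtype_eq_finsum_cond (f := F) P]
  refine finsum_congr fun a => ?_
  by_cases ha : P a
  · simp [ha]
  · simp [ha, h a ha]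

end LvSAux

open LvSAux

theorem sum_omw_shift [Fact p.Prime] [CharP k p] [IsAlgClosed k] [Fintype A]
    {P : Fin q → Subgroup A} (hd : Jj.Dec p Z N P) {f : Fin q → MonoidAlgebra k A}
    (hf : ∀ i, f i ∈ fixAlg k (P i) (P i)) (hff : ∀ i, f i * f i = f i) {l : A → k}
    (hz : ∀ i, ∀ z ∈ Z, single z (1 : k) * f i = l z • f i) {u v ut v0 : A}
    (hsh : ∀ i, cg u (P i) = P (i + 1)) (hfs : ∀ i, P0c8ca5.cj u (f i) = f (i + 1))
    (hv : ∀ i, v ∈ Subgroup.normalizer (P i : Set A))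
    (hut : ∀ z ∈ P 0, u ^ q * z * (u ^ q)⁻¹ = ut * z * ut⁻¹)
    (hv0 : ∀ z ∈ P 0, v * z * v⁻¹ = v0 * z * v0⁻¹)
    {e et : MonoidAlgebra k A} {e' : Fin q → MonoidAlgebra k A}
    (he : ∀ i, Imp (P i) (f i) (v * u * v⁻¹ * u⁻¹) (e' i))
    (het : lp (fun i : Fin q => P0c8ca5.cj (u ^ (i : ℕ)) (e' (-i))) = et) {s : k} (hs : s ≠ 0)
    (hact : ∀ {m : ℕ} (ρ : Rp k N m), Irr' ρ → act ρ (lp f) = 1 →
      act ρ e = s • act ρ (lp e')) :
    (∑ᶠ c : IrX N (lp f), WittVector.teichmuller p (omwX N (lp f) c u v e)) =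
      WittVector.teichmuller p s⁻¹ * ∑ᶠ c : IrX (P 0) (f 0),
        WittVector.teichmuller p (omwX (P 0) (f 0) c ut v0 et) := by
  obtain ⟨φ, hφ⟩ := shift_equiv hd hsh hf hff hz hfs
  have hF : ∀ c : IrX N (lp f), (¬ ∃ X, Itw N (Quotient.out c).ρ u X) →
      WittVector.teichmuller p (omwX N (lp f) c u v e) = 0 := by
    intro c hc
    have h0 : omwX N (lp f) c u v e = 0 := by
      by_contra h
      obtain ⟨X, Y, hX, _⟩ := omw_spec h
      exact hc ⟨X, hX⟩
    rw [h0, WittVector.teichmuller_zero]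
  have hG : ∀ c : IrX (P 0) (f 0), (¬ ∃ X, Itw (P 0) (Quotient.out c).ρ (u ^ q) X) →
      WittVector.teichmuller p (omwX (P 0) (f 0) c ut v0 et) = 0 := by
    intro c hc
    have h0 : omwX (P 0) (f 0) c ut v0 et = 0 := by
      by_contra h
      obtain ⟨X, Y, hX, _⟩ := omw_spec h
      exact hc ⟨X, (itw_congr hut).2 hX⟩
    rw [h0, WittVector.teichmuller_zero]
  rw [finsum_sub _ _ hF, finsum_sub _ _ hG, ← finsum_comp_equiv φ,
    mul_finsum' _ _ (Set.toFinite _)]
  refine finsum_congr fun c => ?_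
  have hρ : Irr' (Quotient.out c.1).ρ := irr_iff.1 (Quotient.out c.1).irr
  have hb : act (Quotient.out c.1).ρ (lp f) = 1 := act_iff.2 (Quotient.out c.1).blk
  have hσ : Irr' (Quotient.out (φ c).1).ρ := irr_iff.1 (Quotient.out (φ c).1).irr
  have h1 := omw_shift hd hsh hv hρ c.2 hσ (hφ c) (fun i => (blk_under hd hf hff hρ hb i).1) he hs
    (hact _ hρ hb)
  rw [het, omw_congr hut hv0] at h1
  show WittVector.teichmuller p (omw N (Quotient.out c.1).ρ u v e) =
    WittVector.teichmuller p s⁻¹ *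
      WittVector.teichmuller p (omw (P 0) (Quotient.out (φ c).1).ρ ut v0 et)
  rw [h1, map_mul]

end Pool.Agent.Lib.P0c8ca5.Hh
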