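import Mathlib
import Pool.Agent.Lib.P0c8ca5H.Sft
import Pool.Agent.Lib.P0c8ca5H.Exv
import Pool.Agent.Lib.P0c8ca5H.LvS
import Pool.Agent.Lib.P0c8ca5H.ImL
import Pool.Agent.Lib.P0c8ca5H.Coef
import Pool.Agent.Lib.P0c8ca5W.Cos

/-!
# Module LvSh: the level of one chain, for cyclically permuted factors

`u = lp a * x`, `t ∈ Ch (famAll p (W 0))` with `u ^ q ∈ stab ⊤ t`, `s = sig q u t` (P0c8ca5L.ChnD), `P i := stab (W i) (prj (W i) s)`, `N := stab V s = V ⊓ TT s`, `Q := t.sup id`,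
`(prj (W i) s).sup id = cg (u ^ i) Q` (`Ll.prj_sig`; `Finset.sup_image`-like and `cg` of a supremum), `f i := cS ((prj (W i) s).sup id) (cc i)`, `cS (s.sup id) c = lp f` (`H.hcS`), `g = [y, x]`.
`SV`, `S0` are the two inner sums in `lvl`.

PROOF of `lvl`.
(1) `cS (s.sup id) c = 0`: `IrX N 0` is empty (`Cs.isEmpty_irX`), so `SV = 0`.  By `lp_ne_zero` (`dec_mono` or `Ll.stab_dec`; `single z 1 * f i = l z • f i`: `z` is central, `cS` commutes with the
 multiplication by `single z 1`) some `f i = 0`, and `f i = cj (u ^ i) (f 0)` (`u ^ i` maps `W 0, Q, cc 0` to `W i, cg (u ^ i) Q, cc i`; `cj u (cc i) = cc (i + 1)` from `H.hcx`, as `lp a ∈ V` fixes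
 `cc (i + 1)`: `H.uhi`), so `f 0 = cS Q (cc 0) = 0`, `IrX _ 0` is empty, `S0 = 0`.
(2) Otherwise, if no element of `csF (W 0) y` is in `stab ⊤ t` then `S0 = 0` (empty sum), and no element of `csF V y` is in `stab ⊤ s`: such an element is `lp b * y`, `b i ∈ W i`
 (`Ll.mem_iSup_lp`, `H.dec.sup`), and `b 0 * y ∈ stab ⊤ (prj (W 0) s) = stab ⊤ t` (`Ll.lp_mul_mem_stab_top`, `Ll.prj_sig_zero`); so `SV = 0`.
(3) Otherwise take `b₀ * y ∈ stab ⊤ t`, `b₀ ∈ W 0`, and `b` from `exv`; `v := lp b * y ∈ stab ⊤ s`, `v0 := b 0 * y`.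
 `sum_lvl` for `UH V ⊤ c`, `QT p V (s.sup id) (TT s)` (`Un8.qt_chain`), the unit `w` over `g⁻¹`: `SV = |N| * F(v)` (`stab_eq`: `stab V s = V ⊓ TT s` by `rfl`, `stab ⊤ s = ⊤ ⊓ TT s`;
 `[v, u] g⁻¹ ∈ V` since `u ∈ V x`, `v ∈ V y`, `V` normal), and `sum_lvl` for `H.uhi 0`, `QT p (W 0) Q (TT t)`, the unit `wt x wi` over `[y, x ^ q]⁻¹` (`H.hwt`), and the element `ut a x` in place of
 `x`: it is in the normalizer of `W 0` and in `TT t` (`ut_stab`, `ut_mem`): `S0 = |P 0| * F0(v0)`.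
 `sum_omw_shift` for `P i`, `N`, `f i`, `u`, `v`, `ut := ut a x`, `v0`: `F(v) = teich s⁻¹ * F0(v0)` with
 `e = single [v, u] 1 * cS (s.sup id) w`, `e' i = single (hh a b x y i) 1 * cS ((prj (W i) s).sup id) (wi i)`, `et = single [v0, ut a x] 1 * cS Q (wt x wi)`:
  `hd`: `Ll.stab_dec`; `hsh`: `cg u (P i) = P (i + 1)` (`sh_u` and `prj (W (i + 1)) s = (prj (W i) s).image (cg u)`, as `u ∈ stab ⊤ s`, `Ll.sig_stab`); `hfs`: `cj u (f i) = f (i + 1)`;
  `hv`: `v` normalizes `W i` and the members; `hut`: `ut_conj`; `hv0`: `Ll.lp_mul_conj`;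
  `he`: `imp_level` for `H.uhi i`, `QT p (W i) ((prj (W i) s).sup id) (TT (prj (W i) s))`, `r = hh a b x y i` (in `N(W i)`, and in `TT`: it acts on `W i` as `[v, u]`, which is in `stab ⊤ s`;
  `r g⁻¹ ∈ W i` by `comm_hh`); `Imp` for `r` gives `Imp` for `[v, u]`, as they act in the same way on `P i` (`[v, u] = lp (hh g⁻¹) g` and `Ll.lp_mul_conj`);
  `het`: `tele` (the support hypothesis is `Imp.supp`, `P i ≤ W i ⊓ N(cg (u ^ i) Q)`: a member of the chain, or `⊥`, is the supremum: `Un8.sup_mem_chain`);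
  `hact`: `H.lev` with `h i = hh i * g⁻¹` gives `e = cS (s.sup id) eta * lp e'`; `act ρ (cS (s.sup id) eta) = s • 1` by `Un8.act_res` (`H.res`, `H.heta`), and `act_mul`.
 Finally `|W 0| * [V : N] * |N| = |W 0| * |V|` and `|V| * [W 0 : P 0] * |P 0| = |V| * |W 0|` (`Ll.relIndex_mul_card'`).
-/

set_option autoImplicit false

namespace Pool.Agent.Lib.P0c8ca5.Hh

open MonoidAlgebra Ps Gg Un8

variable {p : ℕ} {k : Type*} [Field k] {A : Type*} [Group A] [Fintype A] {Z V M : Subgroup A}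
  {q : ℕ} [NeZero q] {W : Fin q → Subgroup A} {c w w' wt' eta : MonoidAlgebra k A}
  {cc wi wi' : Fin q → MonoidAlgebra k A} {l : A → k} {x y : A} {s : k}

namespace LvShAux

theorem cS_cg (g : A) (R : Subgroup A) (a : MonoidAlgebra k A) :
    P0c8ca5.cj g (cS R a) = cS (cg g R) (P0c8ca5.cj g a) := by
  classical
  ext x
  rw [coeff_cj, coeff_resS, coeff_resS, coeff_cj]
  have h1 : g⁻¹ * x * g ∈ (Subgroup.centralizer (R : Set A) : Set A) ↔
      x ∈ (Subgroup.centralizer ((cg g R : Subgroup A) : Set A) : Set A) := by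
    rw [SetLike.mem_coe, SetLike.mem_coe, Subgroup.mem_centralizer_iff,
      Subgroup.mem_centralizer_iff]
    constructor
    · intro h y hy
      have hy' : g⁻¹ * y * g ∈ R := mem_cg.1 hy
      have h2 := h _ hy'
      calc y * x = g * (g⁻¹ * y * g * (g⁻¹ * x * g)) * g⁻¹ := by group
        _ = g * (g⁻¹ * x * g * (g⁻¹ * y * g)) * g⁻¹ := by rw [h2]
        _ = x * y := by group
    · intro h r hr
      have hr' : g * r * g⁻¹ ∈ cg g R := by
        rw [mem_cg]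
        have e : g⁻¹ * (g * r * g⁻¹) * g = r := by group
        rw [e]
        exact hr
      have h2 := h _ hr'
      calc r * (g⁻¹ * x * g) = g⁻¹ * (g * r * g⁻¹ * x) * g := by group
        _ = g⁻¹ * (x * (g * r * g⁻¹)) * g := by rw [h2]
        _ = g⁻¹ * x * g * r := by group
  simp only [h1]

theorem conj_mem_norm {R : Subgroup A} {g z : A} (hg : g ∈ Subgroup.normalizer (R : Set A)) :
    z ∈ Subgroup.normalizer (R : Set A) ↔ g * z * g⁻¹ ∈ Subgroup.normalizer (R : Set A) := by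
  constructor
  · exact fun hz => Subgroup.mul_mem _ (Subgroup.mul_mem _ hg hz) (Subgroup.inv_mem _ hg)
  · intro h
    have h1 := Subgroup.mul_mem _ (Subgroup.mul_mem _ (Subgroup.inv_mem _ hg) h) hg
    have e : g⁻¹ * (g * z * g⁻¹) * g = z := by group
    rwa [e] at h1

theorem norm_stab (hV : V.Normal) {σ : Finset (Subgroup A)} {u : A} (hu : u ∈ stab ⊤ σ) :
    u ∈ Subgroup.normalizer ((stab V σ : Subgroup A) : Set A) := by
  rw [Subgroup.mem_normalizer_iff]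
  intro z
  have h0 := (Ll.mem_stab_iff.1 hu).2
  have hVu : u ∈ Subgroup.normalizer (V : Set A) := by
    rw [Subgroup.normalizer_eq_top]
    exact Subgroup.mem_top u
  rw [Ll.mem_stab_iff, Ll.mem_stab_iff]
  refine and_congr ((Subgroup.mem_normalizer_iff.1 hVu) z) ?_
  exact forall_congr' fun Q => forall_congr' fun hQ => conj_mem_norm (h0 Q hQ)

theorem stab_factor (hd : Jj.Dec p Z V W) {σ : Finset (Subgroup A)}
    (hs : σ ∈ Ch (Hh.PD p V W)) (i : Fin q) :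
    stab (W i) (prj (W i) σ) = W i ⊓ stab V σ := by
  ext z
  constructor
  · intro hz
    have hzW := (Ll.mem_stab_iff.1 hz).1
    exact ⟨hzW, (Ll.mem_stab_factor hd hs hzW).2 hz⟩
  · rintro ⟨h1, h2⟩
    exact (Ll.mem_stab_factor hd hs h1).1 h2

/-- the data of the factors -/
theorem qt_i [Fact p.Prime] (hd : Jj.Dec p Z V W) {σ : Finset (Subgroup A)}
    (hs : σ ∈ Ch (Hh.PD p V W)) (i : Fin q) :
    QT p (W i) ((prj (W i) σ).sup id) (TT (prj (W i) σ)) :=
  qt_chain (D := famAll p (W i)) (fun R hR => (mem_famAll.1 hR).1)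
    (fun R hR => (mem_famAll.1 hR).2.1) (Ll.prj_mem hd hs i)

theorem qt_V [Fact p.Prime] {σ : Finset (Subgroup A)}
    (hs : σ ∈ Ch (Hh.PD p V W)) : QT p V (σ.sup id) (TT σ) :=
  qt_chain (D := Hh.PD p V W) (fun R hR => (mem_PD.1 hR).1)
    (fun R hR => (mem_PD.1 hR).2.1) hs

theorem cS_z [Fact p.Prime] [CharP k p] {R X T : Subgroup A} (qt : QT p X R T)
    (hZ : Z ≤ Subgroup.center A) {c₀ : MonoidAlgebra k A} (hc : InvBy X c₀) {z : A}
    (hz : z ∈ Z) {s₀ : k} (h : single z (1 : k) * c₀ = s₀ • c₀) :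
    single z (1 : k) * cS R c₀ = s₀ • cS R c₀ := by
  classical
  have hzc : ∀ g : A, g * z = z * g := Subgroup.mem_center_iff.1 (hZ hz)
  have h1 : cS R (single z (1 : k)) = single z 1 := by
    change resS _ _ = _
    ext y
    by_cases hy : y ∈ (Subgroup.centralizer (R : Set A) : Set A)
    · rw [coeff_resS_of_mem _ hy]
    · rw [coeff_resS_of_notMem _ hy, coeff_single, Finsupp.single_eq_of_ne]
      rintro rfl
      apply hy
      rw [SetLike.mem_coe, Subgroup.mem_centralizer_iff]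
      exact fun g _ => hzc g
  have h2 : InvBy X (single z (1 : k)) := by
    rw [invBy_iff_cj]
    intro g _
    rw [cj, single_mul_single, single_mul_single, hzc g, mul_inv_cancel_right, one_mul, one_mul]
  have h3 := cS_mul qt h2 hc
  rw [h1, h] at h3
  rw [← h3]
  exact resS_smul _ _ _

theorem cg_supid {σ : Finset (Subgroup A)} (hs : σ ∈ Ch (Hh.PD p V W)) {u : A}
    (hu : u ∈ stab ⊤ σ) : cg u (σ.sup id) = σ.sup id := by
  rcases Un8.sup_mem_chain hs with ⟨h1, -⟩ | h1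
  · rw [h1, cg_eq_self_iff, Subgroup.normalizer_eq_top]
    exact Subgroup.mem_top u
  · exact cg_eq_self_iff.2 ((Ll.mem_stab_iff.1 hu).2 _ h1)

theorem sup_shift (hd : Jj.Dec p Z V W) {σ : Finset (Subgroup A)}
    (hs : σ ∈ Ch (Hh.PD p V W)) {u : A} (hu : u ∈ stab ⊤ σ)
    (hW : ∀ i, cg u (W i) = W (i + 1)) (i : Fin q) :
    cg u ((prj (W i) σ).sup id) = (prj (W (i + 1)) σ).sup id := by
  rw [← Ll.sup_inf hs i, ← Ll.sup_inf hs (i + 1), cg_inf, cg_supid hs hu, hW]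

theorem stab_shift (hd : Jj.Dec p Z V W) (hV : V.Normal) {σ : Finset (Subgroup A)}
    (hs : σ ∈ Ch (Hh.PD p V W)) {u : A} (hu : u ∈ stab ⊤ σ)
    (hW : ∀ i, cg u (W i) = W (i + 1)) (i : Fin q) :
    cg u (stab (W i) (prj (W i) σ)) = stab (W (i + 1)) (prj (W (i + 1)) σ) := by
  rw [stab_factor hd hs i, stab_factor hd hs (i + 1), cg_inf, hW,
    cg_eq_self_iff.2 (norm_stab hV hu)]

theorem csF_congr {N : Subgroup A} {v y : A} (h : v * y⁻¹ ∈ N) : csF N v = csF N y := by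
  ext z
  rw [mem_csF, mem_csF]
  constructor
  · intro h1
    have h2 := N.mul_mem h1 h
    have e : z * v⁻¹ * (v * y⁻¹) = z * y⁻¹ := by group
    rwa [e] at h2
  · intro h1
    have h2 := N.mul_mem h1 (N.inv_mem h)
    have e : z * y⁻¹ * (v * y⁻¹)⁻¹ = z * v⁻¹ := by group
    rwa [e] at h2

/-- commutators of elements of the same cosets -/
theorem comm_mem {N K : Subgroup A} (hK : K ≤ Subgroup.normalizer (N : Set A)) (hN : N ≤ K)
    {x x' y y' : A} (hx : x ∈ K) (hxx : x' * x⁻¹ ∈ N) (hy : y ∈ K) (hyy : y' * y⁻¹ ∈ N) :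
    y' * x' * y'⁻¹ * x'⁻¹ * (y * x * y⁻¹ * x⁻¹)⁻¹ ∈ N := by
  have nm : ∀ {g n : A}, g ∈ K → n ∈ N → g * n * g⁻¹ ∈ N := fun {g n} hg hn =>
    ((Subgroup.mem_normalizer_iff.1 (hK hg)) n).1 hn
  obtain ⟨a, ha⟩ : ∃ a, a = x' * x⁻¹ := ⟨_, rfl⟩
  obtain ⟨d, hd⟩ : ∃ d, d = y' * y⁻¹ := ⟨_, rfl⟩
  rw [← ha] at hxx
  rw [← hd] at hyy
  have e1 : x' = a * x := by rw [ha]; group
  have e2 : y' = d * y := by rw [hd]; group
  have h1 := nm hy hxx
  have h2 := nm (K.inv_mem hx) (N.inv_mem hxx)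
  have h3 := nm (K.mul_mem (K.mul_mem hy hx) (K.inv_mem hy))
    (N.mul_mem (N.inv_mem hyy) h2)
  have h4 := N.mul_mem (N.mul_mem hyy h1) h3
  have e3 : d * (y * a * y⁻¹) * (y * x * y⁻¹ * (d⁻¹ * (x⁻¹ * a⁻¹ * x⁻¹⁻¹)) * (y * x * y⁻¹)⁻¹)
      = y' * x' * y'⁻¹ * x'⁻¹ * (y * x * y⁻¹ * x⁻¹)⁻¹ := by
    rw [e1, e2]
    group
  rwa [e3] at h4


theorem ofNat_succ (n : ℕ) : Fin.ofNat q (n + 1) = Fin.ofNat q n + 1 := by
  symm
  apply Fin.ext
  rw [Fin.val_add]
  show (n % q + (1 : Fin q).val) % q = (n + 1) % q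
  rcases Nat.eq_or_lt_of_le (NeZero.one_le (n := q)) with h1 | h1
  · subst h1
    rw [Nat.mod_one, Nat.mod_one]
  · have h2 : (1 : Fin q).val = 1 := by
      rw [Fin.val_one']
      exact Nat.mod_eq_of_lt h1
    rw [h2, Nat.mod_add_mod]

theorem zero_shift {u : A} {f : Fin q → MonoidAlgebra k A}
    (hfs : ∀ i, P0c8ca5.cj u (f i) = f (i + 1)) {j : Fin q} (hj : f j = 0) : f 0 = 0 := by
  have key : ∀ n : ℕ, f (Fin.ofNat q n) = P0c8ca5.cj (u ^ n) (f 0) := by
    intro n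
    induction n with
    | zero =>
      rw [pow_zero, cj_one_left]
      congr 1
    | succ n ih => rw [ofNat_succ, ← hfs, ih, cj_cj, ← pow_succ']
  have h1 := key j.val
  have e : Fin.ofNat q j.val = j := by
    apply Fin.ext
    show j.val % q = j.val
    exact Nat.mod_eq_of_lt j.isLt
  rw [e, hj] at h1
  have h2 : P0c8ca5.cj (u ^ j.val)⁻¹ (P0c8ca5.cj (u ^ j.val) (f 0)) = f 0 := by
    rw [cj_cj, inv_mul_cancel, cj_one_left]
  rw [← h2, ← h1, cj_zero]

theorem sum_filter_eq {N : Subgroup A} {y y' : A} (h : y' * y⁻¹ ∈ N)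
    (σ : Finset (Subgroup A)) {R : Type*} [AddCommMonoid R] (F : A → R)
    [DecidablePred fun v => v ∈ stab ⊤ σ] [DecidablePred fun v => v ∈ TT σ] :
    ∑ v ∈ (csF N y).filter (fun v => v ∈ stab ⊤ σ), F v =
      ∑ v ∈ (csF N y').filter (fun v => v ∈ TT σ), F v := by
  rw [csF_congr h]
  refine Finset.sum_congr ?_ fun _ _ => rfl
  ext z
  rw [Finset.mem_filter, Finset.mem_filter, stab_eq, top_inf_eq]

section sft

variable [Fact p.Prime] [CharP k p] [IsAlgClosed k]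
  (H : Sft p Z V M W c cc l x y w w' wi wi' wt' eta s) {a b : Fin q → A}
include H

theorem hcu (ha : ∀ i, a i ∈ W i) (i : Fin q) :
    P0c8ca5.cj (lp a * x) (cc i) = cc (i + 1) := by
  rw [← cj_cj, H.hcx]
  refine invBy_iff_cj.1 (H.uhi (i + 1)).inv _ ?_
  exact Jj.norBy_iff.1 (H.dec.norBy (i + 1)) (dec_lp_mem H.dec ha)

theorem hgN (i : Fin q) : y * x * y⁻¹ * x⁻¹ ∈ Subgroup.normalizer (W i : Set A) :=
  H.hMW i (H.hab x y)

theorem imp_i (ha : ∀ i, a i ∈ W i) (hb : ∀ i, b i ∈ W i) {S : Finset (Subgroup A)}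
    (hS : S ∈ Ch (Hh.PD p V W)) (huS : lp a * x ∈ stab ⊤ S) (hvS : lp b * y ∈ stab ⊤ S)
    (i : Fin q) :
    Imp (stab (W i) (prj (W i) S)) (cS ((prj (W i) S).sup id) (cc i))
      (lp b * y * (lp a * x) * (lp b * y)⁻¹ * (lp a * x)⁻¹)
      (single (hh a b x y i) 1 * cS ((prj (W i) S).sup id) (wi i)) := by
  have hd := H.dec
  have hg := hgN H
  obtain ⟨h1, h2⟩ := comm_hh hd H.hx ha hb H.hy hg
  have h3 : lp (fun i => hh a b x y i * (y * x * y⁻¹ * x⁻¹)⁻¹) * (y * x * y⁻¹ * x⁻¹) ∈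
      stab ⊤ S := by
    rw [← h2]
    exact Subgroup.mul_mem _ (Subgroup.mul_mem _ (Subgroup.mul_mem _ hvS huS)
      (Subgroup.inv_mem _ hvS)) (Subgroup.inv_mem _ huS)
  have h4 := (Ll.lp_mul_mem_stab_top hd hS h1 hg).1 h3 i
  rw [inv_mul_cancel_right] at h4
  have h5 : hh a b x y i ∈ Subgroup.normalizer (W i : Set A) := by
    have h6 := Subgroup.mul_mem _ (Subgroup.le_normalizer (h1 i)) (hg i)
    rwa [inv_mul_cancel_right] at h6
  have h6 := imp_level (H.uhi i) (qt_i hd hS i) (hg i) (H.hwi i) (r := hh a b x y i)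
    ⟨h5, h4.2⟩ (h1 i)
  refine ⟨h6.supp, fun z hz => ?_, h6.inv⟩
  rw [h6.comm z hz]
  have hzW : z ∈ W i := (Ll.mem_stab_iff.1 hz).1
  have h7 := Ll.lp_mul_conj hd h1 hg hzW
  rw [← h2, inv_mul_cancel_right] at h7
  rw [h7]

theorem act_e (ha : ∀ i, a i ∈ W i) (hb : ∀ i, b i ∈ W i) {S : Finset (Subgroup A)}
    (hS : S ∈ Ch (Hh.PD p V W)) (huS : lp a * x ∈ stab ⊤ S) (hvS : lp b * y ∈ stab ⊤ S) {m : ℕ} (ρ : Rp k (stab V S) m) (hρ : Irr' ρ)
    (hf : act ρ (lp fun i => cS ((prj (W i) S).sup id) (cc i)) = 1) :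
    act ρ (single (lp b * y * (lp a * x) * (lp b * y)⁻¹ * (lp a * x)⁻¹) 1 *
        cS (S.sup id) w) =
      s • act ρ (lp fun i => single (hh a b x y i) 1 * cS ((prj (W i) S).sup id) (wi i)) := by
  obtain ⟨h1, h2⟩ := comm_hh H.dec H.hx ha hb H.hy (hgN H)
  have h3 := H.lev S hS (fun i => hh a b x y i * (y * x * y⁻¹ * x⁻¹)⁻¹) h1
  simp only [inv_mul_cancel_right] at h3
  rw [← h2] at h3
  replace h3 := h3 (cg_eq_self_iff.1 (cg_supid hS (Subgroup.mul_mem _ (Subgroup.mul_mem _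
    (Subgroup.mul_mem _ hvS huS) (Subgroup.inv_mem _ hvS)) (Subgroup.inv_mem _ huS))))
  have h4 : SuppIn (stab V S) (cS (S.sup id) eta) :=
    supp_cS (qt_V hS) (mem_fixAlg.1 H.heta).1
  have h5 : act ρ (cS (S.sup id) eta) = s • 1 := by
    refine act_res H.uh (qt_V hS) hρ ?_ H.heta H.res
    rw [H.hcS S hS]
    exact hf
  rw [h3, act_mul ρ h4, h5, smul_mul_assoc, one_mul]

end sft

end LvShAux

open LvShAux

open Classical in
theorem lvl [Fact p.Prime] [CharP k p] [IsAlgClosed k]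
    (H : Sft p Z V M W c cc l x y w w' wi wi' wt' eta s) {a : Fin q → A}
    (ha : ∀ i, a i ∈ W i) {t : Finset (Subgroup A)} (ht : t ∈ Ch (famAll p (W 0)))
    (hut : (lp a * x) ^ q ∈ stab ⊤ t) :
    (Nat.card (W 0) : WittVector p k) *
        ((stab V (Ll.sig q (lp a * x) t)).relIndex V : WittVector p k) *
      (∑ v ∈ (csF V y).filter (fun v => v ∈ stab ⊤ (Ll.sig q (lp a * x) t)),
        ∑ᶠ e : IrX (stab V (Ll.sig q (lp a * x) t)) (cS ((Ll.sig q (lp a * x) t).sup id) c),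
          WittVector.teichmuller p (omwX (stab V (Ll.sig q (lp a * x) t))
            (cS ((Ll.sig q (lp a * x) t).sup id) c) e (lp a * x) v
            (single (v * (lp a * x) * v⁻¹ * (lp a * x)⁻¹) 1 *
              cS ((Ll.sig q (lp a * x) t).sup id) w))) =
    (Nat.card V : WittVector p k) * ((stab (W 0) t).relIndex (W 0) : WittVector p k) *
      (WittVector.teichmuller p s⁻¹ *
      ∑ v ∈ (csF (W 0) y).filter (fun v => v ∈ stab ⊤ t),
        ∑ᶠ e : IrX (stab (W 0) t) (cS (t.sup id) (cc 0)),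
          WittVector.teichmuller p (omwX (stab (W 0) t) (cS (t.sup id) (cc 0)) e (ut a x) v
            (single (v * ut a x * v⁻¹ * (ut a x)⁻¹) 1 * cS (t.sup id) (wt x wi)))) := by
  have hd := H.dec
  have hW : ∀ i, cg (lp a * x) (W i) = W (i + 1) := sh_u hd H.hx ha
  obtain ⟨S, hSe⟩ : ∃ S, S = Ll.sig q (lp a * x) t := ⟨_, rfl⟩
  have hexv : ∀ {b₀ : A}, b₀ ∈ W 0 → b₀ * y ∈ stab ⊤ t →
      M ≤ V ⊔ (M ⊓ Subgroup.centralizer ((S.sup id : Subgroup A) : Set A)) →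
      ∃ b : Fin q → A, (∀ i, b i ∈ W i) ∧ b 0 = b₀ ∧ lp b * y ∈ stab ⊤ S := by
    intro b₀ h1 h2 h3
    rw [hSe] at h3 ⊢
    exact exv hd H.nV H.hx ha H.hy H.VM H.hab ht hut h3 h1 h2
  have hS : S ∈ Ch (Hh.PD p V W) := by
    rw [hSe]
    exact Ll.sig_mem hd hW ht
  have huS : lp a * x ∈ stab ⊤ S := by
    rw [hSe]
    exact Ll.sig_stab hut
  have hp0 : prj (W 0) S = t := by
    rw [hSe]
    exact Ll.prj_sig_zero hd hW ht
  rw [← hSe]
  clear hSe
  have hpi : ∀ i, (prj (W i) S).sup id = cg ((lp a * x) ^ (i : ℕ)) (t.sup id) := by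
    intro i
    have h1 := Ll.sup_inf hS i
    have h2 := Ll.sup_inf hS (0 : Fin q)
    rw [hp0] at h2
    rw [← h1, ← h2, cg_inf, cg_supid hS (Subgroup.pow_mem _ huS _), Ll.cg_pow_val hW i]
  have hcSf : cS (S.sup id) c = lp fun i => cS ((prj (W i) S).sup id) (cc i) := H.hcS S hS
  have hdN := Ll.stab_dec hd hS
  have hfix : ∀ i, cS ((prj (W i) S).sup id) (cc i) ∈
      fixAlg k (stab (W i) (prj (W i) S)) (stab (W i) (prj (W i) S)) := fun i =>
    mem_fixAlg.2 ⟨supp_cS (qt_i hd hS i) (H.uhi i).blk.suppIn,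
      cS_inv (qt_i hd hS i) (H.uhi i).blk.invBy⟩
  have hidem : ∀ i, cS ((prj (W i) S).sup id) (cc i) * cS ((prj (W i) S).sup id) (cc i) =
      cS ((prj (W i) S).sup id) (cc i) := fun i => by
    rw [← cS_mul (qt_i hd hS i) (H.uhi i).blk.invBy (H.uhi i).blk.invBy, (H.uhi i).blk.idem]
  have hfz : ∀ i, ∀ z ∈ Z, single z (1 : k) * cS ((prj (W i) S).sup id) (cc i) =
      l z • cS ((prj (W i) S).sup id) (cc i) := fun i z hz =>
    cS_z (qt_i hd hS i) hd.cen (H.uhi i).blk.invBy hz (H.hz i z hz)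
  have hfs : ∀ i, P0c8ca5.cj (lp a * x) (cS ((prj (W i) S).sup id) (cc i)) =
      cS ((prj (W (i + 1)) S).sup id) (cc (i + 1)) := fun i => by
    rw [cS_cg, sup_shift hd hS huS hW i, hcu H ha i]
  by_cases hc0 : cS (S.sup id) c = 0
  · have hf0 : cS (t.sup id) (cc 0) = 0 := by
      by_contra hne
      refine lp_ne_zero hdN (l := l) (fun i => (mem_fixAlg.1 (hfix i)).1) hfz (fun j hj => ?_)
        (hcSf.symm.trans hc0)
      have h1 := zero_shift (f := fun i => cS ((prj (W i) S).sup id) (cc i)) hfs hj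
      rw [hp0] at h1
      exact hne h1
    have e1 : IsEmpty (IrX (stab V S) (cS (S.sup id) c)) := by
      rw [hc0]
      exact Cs.isEmpty_irX _
    have e2 : IsEmpty (IrX (stab (W 0) t) (cS (t.sup id) (cc 0))) := by
      rw [hf0]
      exact Cs.isEmpty_irX _
    rw [Finset.sum_eq_zero (fun v _ => finsum_of_isEmpty _),
      Finset.sum_eq_zero (fun v _ => finsum_of_isEmpty _), mul_zero, mul_zero, mul_zero]
  by_cases hex : ∃ b₀ ∈ W 0, b₀ * y ∈ stab ⊤ t
  swap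
  · rw [Finset.sum_eq_zero, Finset.sum_eq_zero, mul_zero, mul_zero, mul_zero]
    · intro v hv
      exfalso
      rw [Finset.mem_filter, mem_csF] at hv
      apply hex
      refine ⟨v * y⁻¹, hv.1, ?_⟩
      rw [inv_mul_cancel_right]
      exact hv.2
    · intro v hv
      exfalso
      rw [Finset.mem_filter, mem_csF] at hv
      obtain ⟨b, hb, hbe⟩ := dec_exists_lp hd hv.1
      have h1 : lp b * y ∈ stab ⊤ S := by
        rw [hbe, inv_mul_cancel_right]
        exact hv.2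
      have h2 := (Ll.lp_mul_mem_stab_top hd hS hb H.hy).1 h1 0
      rw [hp0] at h2
      exact hex ⟨b 0, hb 0, h2⟩
  obtain ⟨b₀, hb₀, hb₀y⟩ := hex
  obtain ⟨b, hb, hb0, hvS⟩ := hexv hb₀ hb₀y (H.hMC S hS hc0)
  have hv0t : b 0 * y ∈ stab ⊤ t := by
    rw [hb0]
    exact hb₀y
  have hVn : (⊤ : Subgroup A) ≤ Subgroup.normalizer (V : Set A) := by
    have := H.nV
    rw [Subgroup.normalizer_eq_top]
  have hlb : lp b * y * y⁻¹ ∈ V := by
    rw [mul_inv_cancel_right]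
    exact dec_lp_mem hd hb
  have hla : lp a * x * x⁻¹ ∈ V := by
    rw [mul_inv_cancel_right]
    exact dec_lp_mem hd ha
  have s1 : ∑ v ∈ (csF V y).filter (fun v => v ∈ stab ⊤ S),
        (∑ᶠ e : IrX (stab V S) (cS (S.sup id) c),
          WittVector.teichmuller p (omwX (stab V S) (cS (S.sup id) c) e (lp a * x) v
            (single (v * (lp a * x) * v⁻¹ * (lp a * x)⁻¹) 1 * cS (S.sup id) w))) =
      (Nat.card (stab V S) : WittVector p k) * ∑ᶠ e : IrX (stab V S) (cS (S.sup id) c),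
          WittVector.teichmuller p (omwX (stab V S) (cS (S.sup id) c) e (lp a * x) (lp b * y)
            (single (lp b * y * (lp a * x) * (lp b * y)⁻¹ * (lp a * x)⁻¹) 1 *
              cS (S.sup id) w)) := by
    rw [sum_filter_eq hlb S]
    exact sum_lvl H.uh (qt_V hS) (Subgroup.mem_top _) H.hw huS hvS
      (comm_mem hVn le_top (Subgroup.mem_top _) hla (Subgroup.mem_top _) hlb)
  have qt0 : QT p (W 0) (t.sup id) (TT t) :=
    qt_chain (D := famAll p (W 0)) (fun R hR => (mem_famAll.1 hR).1)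
      (fun R hR => (mem_famAll.1 hR).2.1) ht
  have hxq : x ^ q ∈ Subgroup.normalizer (W 0 : Set A) := cg_eq_self_iff.1 (Ll.cg_pow_q H.hx)
  have hutN : ut a x ∈ Subgroup.normalizer (W 0 : Set A) := by
    have h1 := Subgroup.mul_mem _ (Subgroup.le_normalizer (ut_mem hd H.hx ha)) hxq
    rwa [inv_mul_cancel_right] at h1
  have hutT := (ut_stab hd H.hx ha ht).1 hut
  have hv0N : b 0 * y ∈ Subgroup.normalizer (W 0 : Set A) :=
    Subgroup.mul_mem _ (Subgroup.le_normalizer (hb 0)) (H.hy 0)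
  have hb0y : b 0 * y * y⁻¹ ∈ W 0 := by
    rw [mul_inv_cancel_right]
    exact hb 0
  have s2 : ∑ v ∈ (csF (W 0) y).filter (fun v => v ∈ stab ⊤ t),
        (∑ᶠ e : IrX (stab (W 0) t) (cS (t.sup id) (cc 0)),
          WittVector.teichmuller p (omwX (stab (W 0) t) (cS (t.sup id) (cc 0)) e (ut a x) v
            (single (v * ut a x * v⁻¹ * (ut a x)⁻¹) 1 * cS (t.sup id) (wt x wi)))) =
      (Nat.card (stab (W 0) t) : WittVector p k) *
        ∑ᶠ e : IrX (stab (W 0) t) (cS (t.sup id) (cc 0)),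
          WittVector.teichmuller p (omwX (stab (W 0) t) (cS (t.sup id) (cc 0)) e (ut a x)
            (b 0 * y) (single (b 0 * y * ut a x * (b 0 * y)⁻¹ * (ut a x)⁻¹) 1 *
              cS (t.sup id) (wt x wi))) := by
    rw [sum_filter_eq hb0y t]
    exact sum_lvl (H.uhi 0) qt0 (H.hMW 0 (H.hab (x ^ q) y)) H.hwt ⟨hutN, hutT.2⟩
      ⟨hv0N, hv0t.2⟩
      (comm_mem le_rfl Subgroup.le_normalizer hxq (ut_mem hd H.hx ha) (H.hy 0) hb0y)
  have he := imp_i H ha hb hS huS hvS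
  have het : lp (fun i : Fin q => P0c8ca5.cj ((lp a * x) ^ (i : ℕ))
      (single (hh a b x y (-i)) 1 * cS ((prj (W (-i)) S).sup id) (wi (-i)))) =
      single (b 0 * y * ut a x * (b 0 * y)⁻¹ * (ut a x)⁻¹) 1 * cS (t.sup id) (wt x wi) := by
    simp only [hpi]
    refine tele hd H.hx ha hb H.hy qt0.QN qt0.pg (qt0.nT hut.2) (fun i => (H.hwi i).iu)
      fun i => ?_
    rw [← hpi i]
    exact (he i).supp.mono (inf_le_inf_left _ (qt_i hd hS i).nT)
  have hv : ∀ i, lp b * y ∈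
      Subgroup.normalizer ((stab (W i) (prj (W i) S) : Subgroup A) : Set A) := by
    intro i
    rw [stab_factor hd hS i]
    refine Jj.mem_normalizer_inf ?_ (norm_stab H.nV hvS)
    exact Subgroup.mul_mem _ (Jj.norBy_iff.1 (hd.norBy i) (dec_lp_mem hd hb)) (H.hy i)
  have s3 : (∑ᶠ e : IrX (stab V S) (cS (S.sup id) c),
        WittVector.teichmuller p (omwX (stab V S) (cS (S.sup id) c) e (lp a * x) (lp b * y)
          (single (lp b * y * (lp a * x) * (lp b * y)⁻¹ * (lp a * x)⁻¹) 1 *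
            cS (S.sup id) w))) =
      WittVector.teichmuller p s⁻¹ *
        ∑ᶠ e : IrX (stab (W 0) (prj (W 0) S)) (cS ((prj (W 0) S).sup id) (cc 0)),
          WittVector.teichmuller p (omwX (stab (W 0) (prj (W 0) S))
            (cS ((prj (W 0) S).sup id) (cc 0)) e (ut a x) (b 0 * y)
            (single (b 0 * y * ut a x * (b 0 * y)⁻¹ * (ut a x)⁻¹) 1 *
              cS (t.sup id) (wt x wi))) := by
    rw [hcSf]
    exact sum_omw_shift (P := fun i => stab (W i) (prj (W i) S))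
      (f := fun i => cS ((prj (W i) S).sup id) (cc i))
      (e' := fun i => single (hh a b x y i) 1 * cS ((prj (W i) S).sup id) (wi i))
      hdN hfix hidem hfz
      (fun i => stab_shift hd H.nV hS huS hW i) hfs hv
      (fun z hz => ut_conj hd H.hx ha (Ll.mem_stab_iff.1 hz).1)
      (fun z hz => Ll.lp_mul_conj hd hb H.hy (Ll.mem_stab_iff.1 hz).1)
      he het H.hs (fun ρ hρ hf => act_e H ha hb hS huS hvS ρ hρ hf)
  rw [hp0] at s3
  rw [s1, s2, s3]
  have c1 : ((stab V S).relIndex V : WittVector p k) * (Nat.card (stab V S) : WittVector p k) =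
      (Nat.card V : WittVector p k) := by
    exact_mod_cast congrArg (Nat.cast : ℕ → WittVector p k)
      (Ll.relIndex_mul_card' (inf_le_left : stab V S ≤ V))
  have c2 : ((stab (W 0) t).relIndex (W 0) : WittVector p k) *
      (Nat.card (stab (W 0) t) : WittVector p k) = (Nat.card (W 0) : WittVector p k) := by
    exact_mod_cast congrArg (Nat.cast : ℕ → WittVector p k)
      (Ll.relIndex_mul_card' (inf_le_left : stab (W 0) t ≤ W 0))
  rw [← c1, ← c2]
  ring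

end Pool.Agent.Lib.P0c8ca5.Hh
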