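import Mathlib
import Pool.Agent.Lib.P0c8ca5H.LvSh
import Pool.Agent.Lib.P0c8ca5L.ChnC

/-!
# Module SumSh: the sum over the cosets, for cyclically permuted factors

PROOF of `T2_split`.  Definition of `T2`, `dlw`; exchange the sums: for fixed `u` the sum over `v ∈ csF N y` and over the `σ` with `u, v ∈ stab ⊤ σ` is the sum over the `σ` with `u ∈ stab ⊤ σ`
of the sum over `v ∈ (csF N y).filter (v ∈ stab ⊤ σ)` (`Finset.sum_filter`, `Finset.sum_comm`); `((-1) ^ card * relIndex : ℤ) • r = (-1) ^ card * (relIndex : W) * r`.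
PROOF of `sum_shift2`.  By `T2_split` for `V`, `PD`: `T2 V = ∑_{u ∈ csF V x} ∑_{σ ∈ Ch PD, u ∈ stab ⊤ σ} (-1)^|σ| [V : N] SV(u, σ)`.  The elements of `csF V x` are the `lp a * x`; with
`S i` the Finset of the elements of `W i`: `∑_{a ∈ piFinset S} G (lp a * x) = |Z|^(q-1) ∑_{u ∈ csF V x} G u` (`Ll.sum_lp` with `X = W`, `F v = G (v * x)`, and the bijection `v ↦ v * x`).
For `u = lp a * x`: `Ll.sum_shift` (with `sh_u`) turns the sum over `σ` into the sum over the `t ∈ Ch (famAll p (W 0))` with `u ^ q ∈ stab ⊤ t`, `σ = sig q u t`, `|σ| = |t|` (`Ll.card_sig`), and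
`lvl` gives `|W 0| [V : N] SV = |V| [W 0 : P 0] teich s⁻¹ S0(ut a x, t)`.  `u ^ q ∈ stab ⊤ t ↔ ut a x ∈ stab ⊤ t` (`ut_stab`).  So
`|Z|^(q-1) |W 0| T2 V = |V| teich s⁻¹ ∑_{a ∈ piFinset S} K (ut a x)` with `K r = ∑_{t, r ∈ stab ⊤ t} (-1)^|t| [W 0 : stab (W 0) t] S0(r, t)`; by `sum_ut` the last sum is
`|W 0|^(q-1) ∑_{r ∈ csF (W 0) (x ^ q)} K r = |W 0|^(q-1) T2 (W 0) ..` (`T2_split` for `W 0`, `famAll p (W 0)`).
-/

set_option autoImplicit false

namespace Pool.Agent.Lib.P0c8ca5.Hh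

open MonoidAlgebra Ps Gg Un8

variable {p : ℕ} {k : Type*} [Field k] {A : Type*} [Group A] [Fintype A] {Z V M : Subgroup A}
  {q : ℕ} [NeZero q] {W : Fin q → Subgroup A} {c w w' wt' eta : MonoidAlgebra k A}
  {cc wi wi' : Fin q → MonoidAlgebra k A} {l : A → k} {x y : A} {s : k}

namespace SumShAux

theorem int_smul {R : Type*} [CommRing R] (m n : ℕ) (r : R) :
    (((-1) ^ m * (n : ℤ) : ℤ)) • r = (-1) ^ m * (n : R) * r := by
  rw [zsmul_eq_mul]
  push_cast
  ring

open Classical in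
theorem swap {R : Type*} [CommRing R] {α β : Type*} (C : Finset α) (X : Finset β) (P : α → Prop)
    (Q : β → α → Prop) (m n : α → ℕ) (g : β → α → R) :
    ∑ v ∈ X, ∑ σ ∈ C.filter (fun σ => P σ ∧ Q v σ), ((-1) ^ m σ * (n σ : ℤ) : ℤ) • g v σ =
      ∑ σ ∈ C.filter (fun σ => P σ), (-1) ^ m σ * (n σ : R) *
        ∑ v ∈ X.filter (fun v => Q v σ), g v σ := by
  have h1 : ∀ v ∈ X, ∑ σ ∈ C.filter (fun σ => P σ ∧ Q v σ),
      ((-1) ^ m σ * (n σ : ℤ) : ℤ) • g v σ =
      ∑ σ ∈ C.filter (fun σ => P σ), if Q v σ then (-1) ^ m σ * (n σ : R) * g v σ else 0 := by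
    intro v _
    rw [← Finset.filter_filter, Finset.sum_filter]
    refine Finset.sum_congr rfl fun σ _ => ?_
    rw [int_smul]
  rw [Finset.sum_congr rfl h1, Finset.sum_comm]
  refine Finset.sum_congr rfl fun σ _ => ?_
  rw [Finset.mul_sum, Finset.sum_filter]

end SumShAux

open Classical in
theorem T2_split [Fact p.Prime] (N : Subgroup A) (D : Finset (Subgroup A))
    (f : MonoidAlgebra k A) (x y : A) (w : MonoidAlgebra k A) :
    T2 p N D f x y w = ∑ u ∈ csF N x, ∑ σ ∈ (Ch D).filter (fun σ => u ∈ stab ⊤ σ),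
      (-1) ^ σ.card * ((stab N σ).relIndex N : WittVector p k) *
        ∑ v ∈ (csF N y).filter (fun v => v ∈ stab ⊤ σ),
          ∑ᶠ e : IrX (stab N σ) (cS (σ.sup id) f),
            WittVector.teichmuller p (omwX (stab N σ) (cS (σ.sup id) f) e u v
              (single (v * u * v⁻¹ * u⁻¹) 1 * cS (σ.sup id) w)) := by
  unfold T2 Un8.dlw
  refine Finset.sum_congr rfl fun u _ => ?_
  exact SumShAux.swap (Ch D) (csF N y) (fun σ => u ∈ stab ⊤ σ) (fun v σ => v ∈ stab ⊤ σ)
    (fun σ => σ.card) (fun σ => (stab N σ).relIndex N) (fun v σ =>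
      ∑ᶠ e : IrX (stab N σ) (cS (σ.sup id) f),
        WittVector.teichmuller p (omwX (stab N σ) (cS (σ.sup id) f) e u v
          (single (v * u * v⁻¹ * u⁻¹) 1 * cS (σ.sup id) w)))

theorem sum_shift2 [Fact p.Prime] [CharP k p] [IsAlgClosed k]
    (H : Sft p Z V M W c cc l x y w w' wi wi' wt' eta s) :
    (Nat.card Z : WittVector p k) ^ (q - 1) * (Nat.card (W 0) : WittVector p k) *
        T2 p V (Hh.PD p V W) c x y w =
      (Nat.card V : WittVector p k) * (Nat.card (W 0) : WittVector p k) ^ (q - 1) *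
        (WittVector.teichmuller p s⁻¹ *
          T2 p (W 0) (famAll p (W 0)) (cc 0) (x ^ q) y (wt x wi)) := by
  classical
  set S : Fin q → Finset A := fun i => Finset.univ.filter (fun z => z ∈ W i) with hSdef
  have hS : ∀ i z, z ∈ S i ↔ z ∈ W i := fun i z => by
    rw [hSdef]
    simp
  set G : A → WittVector p k := fun u =>
    ∑ σ ∈ (Ch (Hh.PD p V W)).filter (fun σ => u ∈ stab ⊤ σ),
      (-1) ^ σ.card * ((stab V σ).relIndex V : WittVector p k) *
        ∑ v ∈ (csF V y).filter (fun v => v ∈ stab ⊤ σ),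
          ∑ᶠ e : IrX (stab V σ) (cS (σ.sup id) c),
            WittVector.teichmuller p (omwX (stab V σ) (cS (σ.sup id) c) e u v
              (single (v * u * v⁻¹ * u⁻¹) 1 * cS (σ.sup id) w)) with hG
  set K : A → WittVector p k := fun u =>
    ∑ σ ∈ (Ch (famAll p (W 0))).filter (fun σ => u ∈ stab ⊤ σ),
      (-1) ^ σ.card * ((stab (W 0) σ).relIndex (W 0) : WittVector p k) *
        ∑ v ∈ (csF (W 0) y).filter (fun v => v ∈ stab ⊤ σ),
          ∑ᶠ e : IrX (stab (W 0) σ) (cS (σ.sup id) (cc 0)),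
            WittVector.teichmuller p (omwX (stab (W 0) σ) (cS (σ.sup id) (cc 0)) e u v
              (single (v * u * v⁻¹ * u⁻¹) 1 * cS (σ.sup id) (wt x wi))) with hK
  have hTV : T2 p V (Hh.PD p V W) c x y w = ∑ u ∈ csF V x, G u := T2_split V _ c x y w
  have hTW : T2 p (W 0) (famAll p (W 0)) (cc 0) (x ^ q) y (wt x wi) =
      ∑ u ∈ csF (W 0) (x ^ q), K u := T2_split (W 0) _ (cc 0) (x ^ q) y (wt x wi)
  have h1 : ∑ a ∈ Fintype.piFinset S, G (lp a * x) =
      (Nat.card Z : WittVector p k) ^ (q - 1) * ∑ u ∈ csF V x, G u := by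
    rw [Ll.sum_lp H.dec (fun i => le_rfl) H.dec.le S (Finset.univ.filter (fun z => z ∈ V)) hS
      (fun z => by rw [H.dec.sup]; simp) (fun v => G (v * x))]
    congr 1
    refine Finset.sum_nbij' (fun v => v * x) (fun u => u * x⁻¹) ?_ ?_ ?_ ?_ ?_
    · intro v hv
      rw [mem_csF]
      have hv' : v ∈ V := (Finset.mem_filter.1 hv).2
      simpa using hv'
    · intro u hu
      rw [mem_csF] at hu
      exact Finset.mem_filter.2 ⟨Finset.mem_univ _, hu⟩
    · intro v _
      simp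
    · intro u _
      simp
    · intro v _
      rfl
  have h2 : ∀ a ∈ Fintype.piFinset S, (Nat.card (W 0) : WittVector p k) * G (lp a * x) =
      (Nat.card V : WittVector p k) * (WittVector.teichmuller p s⁻¹ * K (ut a x)) := by
    intro a haS
    have ha : ∀ i, a i ∈ W i := fun i => (hS i (a i)).1 (Fintype.mem_piFinset.1 haS i)
    have h3 : G (lp a * x) = _ := Ll.sum_shift H.dec (sh_u H.dec H.hx ha) _
    have h4 : (Ch (famAll p (W 0))).filter (fun t => (lp a * x) ^ q ∈ stab ⊤ t) =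
        (Ch (famAll p (W 0))).filter (fun t => ut a x ∈ stab ⊤ t) := by
      ext t
      rw [Finset.mem_filter, Finset.mem_filter]
      constructor
      · rintro ⟨h5, h6⟩
        exact ⟨h5, (ut_stab H.dec H.hx ha h5).1 h6⟩
      · rintro ⟨h5, h6⟩
        exact ⟨h5, (ut_stab H.dec H.hx ha h5).2 h6⟩
    rw [h3, hK]
    simp only []
    rw [← h4, Finset.mul_sum, Finset.mul_sum, Finset.mul_sum]
    refine Finset.sum_congr rfl fun t ht => ?_
    obtain ⟨h5, h6⟩ := Finset.mem_filter.1 ht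
    have h7 := lvl H ha h5 h6
    rw [Ll.card_sig H.dec (sh_u H.dec H.hx ha) h5]
    calc _ = (-1) ^ t.card * ((Nat.card (W 0) : WittVector p k) *
        ((stab V (Ll.sig q (lp a * x) t)).relIndex V : WittVector p k) *
      (∑ v ∈ (csF V y).filter (fun v => v ∈ stab ⊤ (Ll.sig q (lp a * x) t)),
        ∑ᶠ e : IrX (stab V (Ll.sig q (lp a * x) t)) (cS ((Ll.sig q (lp a * x) t).sup id) c),
          WittVector.teichmuller p (omwX (stab V (Ll.sig q (lp a * x) t))
            (cS ((Ll.sig q (lp a * x) t).sup id) c) e (lp a * x) v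
            (single (v * (lp a * x) * v⁻¹ * (lp a * x)⁻¹) 1 *
              cS ((Ll.sig q (lp a * x) t).sup id) w)))) := by ring
      _ = _ := by
        rw [h7]
        ring
  calc (Nat.card Z : WittVector p k) ^ (q - 1) * (Nat.card (W 0) : WittVector p k) *
        T2 p V (Hh.PD p V W) c x y w =
      (Nat.card (W 0) : WittVector p k) *
        ((Nat.card Z : WittVector p k) ^ (q - 1) * ∑ u ∈ csF V x, G u) := by
        rw [hTV]
        ring
    _ = (Nat.card (W 0) : WittVector p k) * ∑ a ∈ Fintype.piFinset S, G (lp a * x) := by rw [h1]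
    _ = ∑ a ∈ Fintype.piFinset S,
        (Nat.card V : WittVector p k) * (WittVector.teichmuller p s⁻¹ * K (ut a x)) := by
        rw [Finset.mul_sum]
        exact Finset.sum_congr rfl h2
    _ = (Nat.card V : WittVector p k) * (WittVector.teichmuller p s⁻¹ *
        ((Nat.card (W 0) : WittVector p k) ^ (q - 1) * ∑ u ∈ csF (W 0) (x ^ q), K u)) := by
        rw [← Finset.mul_sum, ← Finset.mul_sum, sum_ut H.dec H.hx S hS K]
    _ = _ := by
        rw [hTW]
        ring

end Pool.Agent.Lib.P0c8ca5.Hh
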