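import Mathlib
import Pool.Agent.Lib.P0c8ca5H.CoreN
import Pool.Agent.Lib.P0c8ca5H.Bij

/-!
# Module LvN: the sum of the symbols of the representations of a product

PROOF of `sum_omw_prod`.  Let `E` be the equivalence of `irX_equiv`.  For `c : IrX N (lp f)` and `γ = Quotient.out c`, `δ i = Quotient.out (E c i)`: `Over γ.ρ (δ i).ρ`
(the property of `E` with `⟦γ⟧ = c`, `⟦δ i⟧ = E c i`, `Quotient.out_eq`), so `omw_lp` gives
`omwX N (lp f) c u v e = s⁻¹ * ∏ i, omwX (P i) (f i) (E c i) u v (e' i)` (definition of `omwX`; `act (δ i).ρ (f i) = 1` by `act_iff`), and `omw_congr` with `hu'`, `hv'` replaces `u`, `v` by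
`u' i`, `v' i`.  `WittVector.teichmuller p` is multiplicative (`map_mul`, `map_prod`).  So the left side is
`∑ᶠ c, teich s⁻¹ * ∏ i, F i (E c i) = teich s⁻¹ * ∑ᶠ (s : ∀ i, IrX (P i) (f i)), ∏ i, F i (s i)` (`finsum_comp_equiv`), and all sums are finite (`instFiniteIrX`; choose
`Fintype` instances, `finsum_eq_sum_of_fintype`); `Finset.prod_univ_sum` with `Fintype.piFinset_univ`.
-/

set_option autoImplicit false

namespace Pool.Agent.Lib.P0c8ca5.Hh

open MonoidAlgebra Gg Un8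

variable {p : ℕ} {k : Type*} [Field k] {A : Type*} [Group A] {Z N : Subgroup A} {n : ℕ}

theorem sum_omw_prod [Fact p.Prime] [CharP k p] [IsAlgClosed k] [Fintype A]
    {P : Fin n → Subgroup A} (hd : Jj.Dec p Z N P) {f : Fin n → MonoidAlgebra k A}
    (hf : ∀ i, f i ∈ fixAlg k (P i) (P i)) (hff : ∀ i, f i * f i = f i) {l : A → k}
    (hz : ∀ i, ∀ z ∈ Z, single z (1 : k) * f i = l z • f i) {u v : A} {u' v' : Fin n → A}
    (hu : ∀ i, u ∈ Subgroup.normalizer (P i : Set A))
    (hv : ∀ i, v ∈ Subgroup.normalizer (P i : Set A))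
    (hu' : ∀ i, ∀ z ∈ P i, u * z * u⁻¹ = u' i * z * (u' i)⁻¹)
    (hv' : ∀ i, ∀ z ∈ P i, v * z * v⁻¹ = v' i * z * (v' i)⁻¹)
    {e : MonoidAlgebra k A} {e' : Fin n → MonoidAlgebra k A}
    (he : ∀ i, Imp (P i) (f i) (v * u * v⁻¹ * u⁻¹) (e' i)) {s : k} (hs : s ≠ 0)
    (hact : ∀ {m : ℕ} (ρ : Rp k N m), Irr' ρ → act ρ (lp f) = 1 →
      act ρ e = s • act ρ (lp e')) :
    (∑ᶠ c : IrX N (lp f), WittVector.teichmuller p (omwX N (lp f) c u v e)) =
      WittVector.teichmuller p s⁻¹ * ∏ i, ∑ᶠ c : IrX (P i) (f i),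
        WittVector.teichmuller p (omwX (P i) (f i) c (u' i) (v' i) (e' i)) := by
  classical
  obtain ⟨E, hE⟩ := irX_equiv hd hf hff hz
  have key : ∀ c : IrX N (lp f), omwX N (lp f) c u v e =
      s⁻¹ * ∏ i, omwX (P i) (f i) (E c i) (u' i) (v' i) (e' i) := by
    intro c
    have h1 : ∀ i, Over (hd.le' i) (Quotient.out c).ρ (Quotient.out (E c i)).ρ := by
      intro i
      apply (hE (Quotient.out c) i _).1
      rw [Quotient.out_eq, Quotient.out_eq]
    have h2 := omw_lp hd (irr_iff.1 (Quotient.out c).irr)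
      (fun i => irr_iff.1 (Quotient.out (E c i)).irr) h1 hu hv
      (fun i => act_iff.2 (Quotient.out (E c i)).blk) he hs
      (hact (Quotient.out c).ρ (irr_iff.1 (Quotient.out c).irr)
        (act_iff.2 (Quotient.out c).blk))
    unfold omwX
    rw [h2]
    congr 1
    exact Finset.prod_congr rfl fun i _ => omw_congr (hu' i) (hv' i) _
  have hfin : ∀ i, Finite (IrX (P i) (f i)) := fun i => instFiniteIrX _ _
  let _ : ∀ i, Fintype (IrX (P i) (f i)) := fun i => Fintype.ofFinite _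
  have h3 : (∑ᶠ c : IrX N (lp f), WittVector.teichmuller p (omwX N (lp f) c u v e)) =
      ∑ᶠ c : IrX N (lp f), (fun t : (∀ i, IrX (P i) (f i)) => WittVector.teichmuller p s⁻¹ *
        ∏ i, WittVector.teichmuller p (omwX (P i) (f i) (t i) (u' i) (v' i) (e' i))) (E c) := by
    apply finsum_congr
    intro c
    rw [key c, map_mul, map_prod]
  have h5 := h3.trans (finsum_comp_equiv (f := fun t : (∀ i, IrX (P i) (f i)) =>
    WittVector.teichmuller p s⁻¹ *
      ∏ i, WittVector.teichmuller p (omwX (P i) (f i) (t i) (u' i) (v' i) (e' i))) E)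
  rw [h5, finsum_eq_sum_of_fintype, ← Finset.mul_sum]
  congr 1
  have h4 : ∀ i, (∑ᶠ c : IrX (P i) (f i),
      WittVector.teichmuller p (omwX (P i) (f i) c (u' i) (v' i) (e' i))) =
      ∑ c : IrX (P i) (f i),
        WittVector.teichmuller p (omwX (P i) (f i) c (u' i) (v' i) (e' i)) :=
    fun i => finsum_eq_sum_of_fintype _
  simp only [h4]
  rw [Finset.prod_univ_sum, Fintype.piFinset_univ]

end Pool.Agent.Lib.P0c8ca5.Hh
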