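import Mathlib
import Pool.Agent.Lib.P0c8ca5H.ExSft
import Pool.Agent.Lib.P0c8ca5H.SumSh
import Pool.Agent.Lib.P0c8ca5H.StBa
import Pool.Agent.Lib.P0c8ca5U.UnxB
import Pool.Agent.Lib.P0c8ca5Z.Pr
import Pool.Agent.Lib.P0c8ca5W.SumN
import Pool.Agent.Lib.P0c8ca5W.UbB

/-!
# From the pair `(x ^ q, y)` to the pair `(x, y)`

`T2_zero`: if `x` permutes the `q` factors of `V` cyclically and `y` normalizes them, and the sum `T2` for the pair
`(x ^ q, y)` vanishes, then the sum `T2` for the pair `(x, y)` vanishes.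
-/

set_option autoImplicit false

namespace Pool.Agent.Lib.P0c8ca5.Hh

open MonoidAlgebra Ps Gg Un8

variable {p : ℕ} {k : Type*} [Field k] {A : Type*} [Group A] {Z V : Subgroup A}
  {c : MonoidAlgebra k A}

theorem teich_ne_zero [Fact p.Prime] [CharP k p] {s : k} (hs : s ≠ 0) :
    WittVector.teichmuller p s ≠ 0 := by
  intro h0
  apply hs
  have h1 := congrArg (fun a => WittVector.coeff a 0) h0
  simpa using h1

theorem natCast_ne_zero' [Fact p.Prime] [CharP k p] {n : ℕ} (hn : n ≠ 0) :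
    (n : WittVector p k) ≠ 0 := by
  intro h0
  exact hn (Zz.wit_inj (k := k) p (by rw [h0, Nat.cast_zero]))

/-- the blocks of the factors -/
theorem exists_blocks [Fact p.Prime] [CharP k p] [IsAlgClosed k] [Fintype A] {n : ℕ}
    {W : Fin n → Subgroup A} (hd : Jj.Dec p Z V W) (hn : n ≠ 0) (hc : IsBlock V c)
    (hci : InvBy ⊤ c) :
    ∃ (cc : Fin n → MonoidAlgebra k A) (l : A → k), (∀ i, IsBlock (W i) (cc i)) ∧ c = lp cc ∧
      (∀ i, ∀ z ∈ Z, single z (1 : k) * cc i = l z • cc i) ∧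
      ∀ (g : A) (i j : Fin n), cg g (W i) = W j → P0c8ca5.cj g (cc i) = cc j := by
  obtain ⟨cc, hb, hcc, hc1⟩ := Ww.exists_cc hd hc
  have hZV : Z ≤ V := (hd.le ⟨0, Nat.pos_of_ne_zero hn⟩).trans (hd.le' _)
  obtain ⟨l, hl⟩ := Ww.exists_scalar hd hZV hc hb hcc
  exact ⟨cc, l, hb, hc1, fun i z hz => (hl z hz).2.2 i,
    fun g i j hij => Ww.cj_cc hb hcc hc.ne_zero hci (Subgroup.mem_top g) hij⟩

theorem T2_zero [Fact p.Prime] [CharP k p] [IsAlgClosed k] [Fintype A] {q : ℕ} [NeZero q]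
    {W : Fin q → Subgroup A} {cc : Fin q → MonoidAlgebra k A} {l : A → k} {x y : A}
    (hd : Jj.Dec p Z V W) (hV : V.Normal) (uh : UH V ⊤ c) (hx : ∀ i, cg x (W i) = W (i + 1))
    (hy : ∀ i, y ∈ Subgroup.normalizer (W i : Set A))
    (hMW : ∀ i, uh.unt ≤ Subgroup.normalizer (W i : Set A))
    (hab : ∀ g h : A, h * g * h⁻¹ * g⁻¹ ∈ uh.unt) (hcb : ∀ i, IsBlock (W i) (cc i))
    (hc : c = lp cc) (hz : ∀ i, ∀ z ∈ Z, single z (1 : k) * cc i = l z • cc i)
    (hcj : ∀ (g : A) (i j : Fin q), cg g (W i) = W j → P0c8ca5.cj g (cc i) = cc j)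
    {u v : MonoidAlgebra k A} (hu : UP V c (y * x ^ q * y⁻¹ * (x ^ q)⁻¹)⁻¹ u v)
    (h0 : T2 p V (Hh.PD p V W) c (x ^ q) y u = 0) :
    ∃ w w', UP V c (y * x * y⁻¹ * x⁻¹)⁻¹ w w' ∧ T2 p V (Hh.PD p V W) c x y w = 0 := by
  classical
  have hrot : ∀ j : Fin q, ∃ w w' wi wi' wt' eta s, Sft p Z V uh.unt (fun i => W (i + j)) c
      (fun i => cc (i + j)) l x y w w' wi wi' wt' eta s := by
    intro j
    have hd' : Jj.Dec p Z V (fun i => W (i + j)) := hd.reindex (Equiv.addRight j)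
    have hc' : c = lp (fun i => cc (i + j)) := by
      rw [hc]
      refine (lp_perm (fun i i' hi => ?_) (Equiv.addRight j)).symm
      exact supp_comm (hd.comm i i' hi) (hcb i).suppIn (hcb i').suppIn
    refine exists_sft hd' hV uh (fun i => ?_) (fun i => hy _) (fun i => hMW _) hab
      (fun i => hcb _) hc' (fun i => hz _) (fun g i i' h => hcj g _ _ h)
    rw [hx]
    congr 1
    exact add_right_comm i j 1
  choose w w' wi wi' wt' eta s H using hrot
  have hxq : ∀ i, x ^ q ∈ Subgroup.normalizer (W i : Set A) := by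
    intro i
    have h1 := Ll.cg_pow_q (W := fun m => W (m + i)) (u := x) (fun m => by
      rw [hx]
      congr 1
      exact add_right_comm m i 1)
    simp only [zero_add] at h1
    exact cg_eq_self_iff.1 h1
  have hcc : ∀ i, UH (W i) (Subgroup.normalizer (W i : Set A)) (cc i) := by
    intro i
    have h1 := (H i).uhi 0
    simp only [zero_add] at h1
    exact h1
  obtain ⟨r, hr, hprod⟩ := Cs.T2_prod' hd uh ⟨hd.sup, hd.comm, hcb, hc⟩ hcc hz hxq hy hu
    (wi := fun i => wt x (wi i)) (vi := fun i => wt' i) (fun i => by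
      have h1 := (H i).hwt
      simp only [zero_add] at h1
      exact h1)
  rw [h0, mul_zero] at hprod
  have h1 : ∏ i, T2 p (W i) (famAll p (W i)) (cc i) (x ^ q) y (wt x (wi i)) = 0 :=
    (mul_eq_zero.1 hprod.symm).resolve_left (teich_ne_zero hr)
  obtain ⟨j, -, hj⟩ := Finset.prod_eq_zero_iff.1 h1
  refine ⟨w j, w' j, (H j).hw, ?_⟩
  have h2 := sum_shift2 (H j)
  simp only [zero_add] at h2
  rw [hj, mul_zero, mul_zero] at h2
  have e : Hh.PD p V (fun i => W (i + j)) = Hh.PD p V W :=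
    PD_comp (Equiv.addRight j).surjective
  rw [e] at h2
  have hZ : (Nat.card Z : WittVector p k) ≠ 0 := natCast_ne_zero' Nat.card_pos.ne'
  have hW : (Nat.card (W j) : WittVector p k) ≠ 0 := natCast_ne_zero' Nat.card_pos.ne'
  exact (mul_eq_zero.1 h2).resolve_left (mul_ne_zero (pow_ne_zero _ hZ) hW)

end Pool.Agent.Lib.P0c8ca5.Hh
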