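import Mathlib
import Pool.Agent.Lib.P0c8ca5H.ThmP
import Pool.Agent.Lib.P0c8ca5H.StBb
import Pool.Agent.Lib.P0c8ca5M.IsoD
import Pool.Agent.Lib.P0c8ca5M.IsoB
import Pool.Agent.Lib.P0c8ca5W.T1T2
import Pool.Agent.Lib.P0c8ca5G.SitB
import Pool.Agent.Lib.P0c8ca5G.AsmB
import Pool.Agent.Lib.P0c8ca5G.AsmC

/-!
# Part (B): a component that is not normal

`V` is a minimal normal subgroup above the centre with several components and `C(V) = Z`, `A / V` is a p'-group.  The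
pairs `(x, y)` with `x ∉ H`, `y ∈ H`, `H` normal of prime index `q` above the normalizer of a component, do not
contribute: `x` permutes `q` factors cyclically, and the pair `(x ^ q, y)` in `H` does not contribute.
-/

set_option autoImplicit false

namespace Pool.Agent.Lib.P0c8ca5.Hh

open MonoidAlgebra Ps Bq Zz Gg Un8

universe u v

theorem nsmul_wit_zero {p : ℕ} {k : Type*} [Field k] [Fact p.Prime] [CharP k p] {n : ℕ}
    (hn : n ≠ 0) {s : k} (hs : s ≠ 0) {a : WittVector p k}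
    (h : n • (WittVector.teichmuller p s * a) = 0) : a = 0 := by
  rw [nsmul_eq_mul] at h
  have h1 := (mul_eq_zero.1 h).resolve_left (natCast_ne_zero' hn)
  exact (mul_eq_zero.1 h1).resolve_left (teich_ne_zero hs)

theorem stepB_sit {p : ℕ} [Fact p.Prime] {k : Type v} [Field k] [CharP k p] [IsAlgClosed k]
    {A : Type u} [Group A] [Fintype A] {V : Subgroup A} {c b : MonoidAlgebra k A}
    (h : Sit p V c b) (hV : Jj.MinN V) (hpV : ¬ p ∣ V.index)
    (hprim : ∀ N : Subgroup A, N.Normal → ∃! c' : MonoidAlgebra k A, IsBlock N c' ∧ b * c' ≠ 0)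
    {E : Subgroup A} (hE : Jj.Cmp V E) (hn : ¬ E.Normal) : NavarroEq p ⊤ ⊤ b := by
  classical
  by_contra hno
  have hVn : V.Normal := h.nV
  have hR := h.rd
  have hMn : h.uh.unt.Normal := by
    rw [← Subgroup.normalizer_eq_top_iff]
    exact top_le_iff.1 h.uh.norm_unt
  have hbc : b * c = b := by
    rw [← commute_of (K := ⊤) (fun _ _ => Subgroup.mem_top _) h.blk.invBy, h.cb]
  have hbM : SuppIn h.uh.unt b := h.uh.supp_unt h.blk.mem h.blk.idem hbc
  have hVM : V ≤ h.uh.unt := h.uh.le_unt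
  have hab : ∀ x y : A, y * x * y⁻¹ * x⁻¹ ∈ h.uh.unt := h.quot_abel hno hMn hVM hbM
  have hbB : IsBlock h.uh.unt b := by
    obtain ⟨c', hc', -, hcb'⟩ := covered_inv h.blk hMn (hprim _ hMn)
    have hcm : b * c' = c' * b := (commute_of (K := ⊤) (fun _ _ => Subgroup.mem_top _)
      h.blk.invBy).symm
    rcases hc'.mul_eq (mem_fixAlg.2 ⟨hbM, h.blk.invBy.mono le_top⟩) h.blk.idem with h1 | h1
    · exfalso
      apply h.blk.ne_zero
      rw [← hcb', ← hcm, h1]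
    · rw [hcm, hcb'] at h1
      exact Eq.subst (motive := fun a => IsBlock h.uh.unt a) h1.symm hc'
  have hbI : InvBy (⊤ : Subgroup A) b := h.blk.invBy
  have hpM : ¬ p ∣ h.uh.unt.index := fun h1 =>
    hpV (h1.trans (Subgroup.index_dvd_of_le hVM))
  have hpr : ¬ p ∣ V.relIndex h.uh.unt := fun h1 => hpV (by
    rw [← Subgroup.relIndex_mul_index hVM]
    exact h1.mul_right _)
  have hr0 : V.relIndex h.uh.unt * V.relIndex h.uh.unt ≠ 0 := by
    have h1 : V.relIndex h.uh.unt ≠ 0 := fun h2 => hpr (by rw [h2]; exact dvd_zero p)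
    exact mul_ne_zero h1 h1
  -- the normalizer of the component
  have hMN : h.uh.unt ≤ Subgroup.normalizer (E : Set A) := by
    intro x hx
    have h1 := (Jj.Ker.mem_iff).1 (h.unt_le_ker hV hE hx) 1
    simpa using h1
  have hN : Subgroup.normalizer (E : Set A) ≠ ⊤ := fun h1 =>
    hn (Subgroup.normalizer_eq_top_iff.1 h1)
  obtain ⟨H, hNH, hHn, hHp⟩ := exists_prime_index (fun x y => hMN (hab x y)) hN
  have hMH : h.uh.unt ≤ H := hMN.trans hNH
  obtain ⟨q, hq⟩ : ∃ q, q = H.index := ⟨_, rfl⟩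
  have hqF : Fact q.Prime := ⟨by rw [hq]; exact hHp⟩
  have hq0 : NeZero q := ⟨hqF.out.ne_zero⟩
  have hD := PD_WB_fam hR hV hE H hNH
  obtain ⟨D, hDe⟩ : ∃ D, D = Hh.PD p V (Jj.WB E H) := ⟨_, rfl⟩
  rw [← hDe] at hD
  have hDV : ∀ Q ∈ D, Q ≤ V := fun Q hQ => by
    rw [hDe] at hQ
    exact (mem_PD.1 hQ).1
  have hDp : ∀ Q ∈ D, IsPGroup p Q := fun Q hQ => by
    rw [hDe] at hQ
    exact (mem_PD.1 hQ).2.1
  have hiso : ∀ x y : A, h.uh.unt ⊔ Subgroup.closure {x, y} ≠ ⊤ →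
      T1 p h.uh.unt D b x y = 0 := fun x y hne =>
    Mm.Sit.iso h hD hMn hVM hbM hab hpM x y hne
  refine hno (Mm.Sit.navarro_of_T1 h hD hMn hab hVM hbM hpM hMH hHp hHn hiso ?_)
  intro x hx y hy
  obtain ⟨W, hd, hxW, hHW, hPD⟩ := decG hR hV hE (q := q) H hNH hq.symm hx
  obtain ⟨cc, l, hcb, hc, hz, hcj⟩ := exists_blocks hd (NeZero.ne q) h.cblk h.cinv
  have hHN : ∀ g ∈ H, ∀ i, g ∈ Subgroup.normalizer (W i : Set A) := fun g hg i =>
    cg_eq_self_iff.1 (hHW g hg i)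
  -- the pair in `H`
  have hxq : x ^ q ∈ H := by
    rw [← QuotientGroup.eq_one_iff, QuotientGroup.mk_pow, hq]
    show (x : A ⧸ H) ^ Nat.card (A ⧸ H) = 1
    exact pow_card_eq_one'
  have hT1 : T1 p h.uh.unt D b (x ^ q) y = 0 := by
    apply hiso
    intro h1
    apply hHp.one_lt.ne'
    rw [Subgroup.index_eq_one, eq_top_iff, ← h1]
    refine sup_le hMH ?_
    rw [Subgroup.closure_le]
    rintro z (rfl | rfl)
    · exact hxq
    · exact hy
  obtain ⟨-, u, v, huv⟩ := h.uh.mem_unt.1 (hab (x ^ q) y)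
  obtain ⟨s, hs, hs1⟩ := Cs.T1_T2 h.uh hDV hDp hbB hbI hbc hpr (hab (x ^ q) y) huv
  rw [hT1] at hs1
  have hT2 : T2 p V D c (x ^ q) y v = 0 := nsmul_wit_zero hr0 hs hs1.symm
  obtain ⟨w, w', hw, hT⟩ := T2_zero hd hVn h.uh hxW (fun i => hHN y hy i)
    (fun i g hg => hHN g (hMH hg) i) hab hcb hc hz hcj huv.symm (by rw [hPD, ← hDe]; exact hT2)
  have hw2 : UP V c (y * x * y⁻¹ * x⁻¹) w' w := by
    have h1 := hw.symm
    rwa [inv_inv] at h1
  obtain ⟨s', hs', hs2⟩ := Cs.T1_T2 h.uh hDV hDp hbB hbI hbc hpr (hab x y) hw2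
  rw [hs2, hDe, ← hPD, hT, mul_zero, nsmul_zero]

end Pool.Agent.Lib.P0c8ca5.Hh
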